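import Pool.Agent.U398.MV.Stm4

set_option autoImplicit false

/-!
# Project MV6: all moments of the zero counts in windows seen from the zeros, at all distances up to `T/(log T)³`

THEOREM `S_TH6 SG.NZ SG.ord` (unconditional). For all `k`, `ε` there are `C, T0`: for `T ≥ T0`, all real `c_i` with `∑ |c_i| ≤ 1`,
`∑ c_i = 0` and all real shifts `|x_i| ≤ T/(log T)³` the mean over the zeros `T < g n ≤ 2T` of `(∑ c_i S(g n + x_i))^k` is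
`gM k V + O((1 + |V|)^((k-1)/2 + ε))`, `V = Vh T c x = ∑ c_i c_j (1/(2π²)) log |ζ(1 + 1/log T + i(x_i - x_j))|`.
-/

namespace Pool.Agent.U398.MV

open MeasureTheory Filter Topology Set

noncomputable section

/-- admissible coefficients and shifts -/
def Adm (T : ℝ) {m : ℕ} (c x : Fin m → ℝ) : Prop :=
  (∑ i, |c i|) ≤ 1 ∧ (∑ i, c i) = 0 ∧ ∀ i, |x i| ≤ T / Real.log T ^ 3

/-- the moments with far shifts (input): (1) two close points at any distance; (2) asymptotics; (3) upper bounds; (4) size of `V` -/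
def MomF (N : ℝ → ℕ) : Prop :=
  (∀ (p : ℕ) (B : ℝ), ∃ C T0 : ℝ, 0 < C ∧ 10 ≤ T0 ∧ ∀ T : ℝ, T0 ≤ T → ∀ x y : ℝ, |x| ≤ T / Real.log T ^ 3 + B →
    |x - y| ≤ B →
    (∫ t in (3 * T / 4)..(3 * T), (sg N (t + x) - sg N (t + y)) ^ (2 * p)) ≤
      C * T * (1 + Real.log (1 + |x - y| * Real.log T)) ^ p) ∧
  (∀ k : ℕ, ∃ C T0 : ℝ, 0 < C ∧ 10 ≤ T0 ∧ ∀ T : ℝ, T0 ≤ T → ∀ (m : ℕ) (c x : Fin m → ℝ), Adm T c x →
    |1 / T * (∫ t in T..(2 * T), Gf N c x t ^ k) - gM k (Vh T c x)| ≤ C * (1 + |Vh T c x|) ^ (((k : ℝ) - 1) / 2)) ∧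
  (∀ p : ℕ, ∃ C T0 : ℝ, 0 < C ∧ 10 ≤ T0 ∧ ∀ T : ℝ, T0 ≤ T → ∀ (m : ℕ) (c x : Fin m → ℝ), Adm T c x →
    (∫ t in (3 * T / 4)..(3 * T), Gf N c x t ^ (2 * p)) ≤ C * T * (1 + |Vh T c x|) ^ p) ∧
  ∃ C T0 : ℝ, 0 < C ∧ 10 ≤ T0 ∧ ∀ T : ℝ, T0 ≤ T → ∀ (m : ℕ) (c x : Fin m → ℝ), Adm T c x →
    |Vh T c x| ≤ C * Real.log (Real.log T)

/-- package MF (as package MM of MV4: `Pool.Agent.U688.MV4.MM`, `MMa`, `MMb`, `MMc`). PROOF. `S_TH3` with the shifts `x_i + s ≥ 0`, `s = T/(log T)³ + B`, over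
`[T', 2T']`, after the change of variables `t → t - s` (`Vh` depends only on the differences); the integrals over the end intervals
of length `s` (`[T, T + s]`, ...) are `≤ √s (∫ G^(2k))^(1/2)`, negligible: `T (log T)^(-3/2) (log log T)^k`. `pS` against `sg`: `J_CN` with base point
`t + x_i0` or `t + s'`: as `∑ c_i = 0`, `|∑ c_i (sg - pS)(t + x_i)| ≤ C` for almost all `t`. Blocks: `[3T/4, 3T]` is covered by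
`[T', 2T']`, `T' = 0.7 T, 1.4 T, 2.8 T` (shifted); `|Vh T' c x - Vh T c x| ≤ C` by `S_PRS` (`∑_{T' < p ≤ T} 1/p ≤ C`); (1): `S_TH3` / (3) with `c = (1/2, -1/2)`
and `log |ζ(1 + 1/L + iy)| ` against `log (1/L + |y|)` for `|y| ≤ B` as in `MMb`; (4): `|log |ζ(1 + 1/L + iy)|| ≤ log ζ(1 + 1/L) ≤ log (2 L)`. -/
def J_MF (N : ℝ → ℕ) (g : ℕ → ℝ) : Prop := J_CN N g → S_TH3 → S_PRS → (∃ C1 : ℝ, 1 ≤ C1 ∧ Cnt N g C1) → MomF N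

/-- package ZF: the value at the zero against the values before the zero (from `S_PU`). PROOF. For `t ∈ [g n - w, g n)`, `w = 2π/L`:
`N (t + x_i) ≤ N (g n + x_i) ≤ N (t + x_i + w)`, `Mf` changes by at most `2`, so `|Gf (g n) - Gf t| ≤ ∑ |c_i| (2 + N (t + x_i + w) - N (t + x_i)) ≤
∑ |c_i| (C + |sg (t + x_i + w) - sg (t + x_i)|)`; Jensen (`jens` in `Pool.Agent.U492.MV4.LW`), `S_PU` with `f t = ∑ |c_i| (...)^(2p)` (or one `i` at a time)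
and (1) of `MomF`. -/
def J_ZF : Prop := S_PU → ∀ (N : ℝ → ℕ) (g : ℕ → ℝ) (C1 : ℝ), 1 ≤ C1 → Cnt N g C1 → Mom N → MomF N →
  ∀ p : ℕ, ∃ C T0 : ℝ, 0 < C ∧ 10 ≤ T0 ∧ ∀ T : ℝ, T0 ≤ T → ∀ (m : ℕ) (c x : Fin m → ℝ), Adm T c x →
  PA N g T (2 * Real.pi / Real.log T) (fun n t => (Gf N c x (g n) - Gf N c x t) ^ (2 * p)) ≤ C * (T * Real.log T)

/-- package LWF: means over long windows (as `Pool.Agent.U492.MV4.LW`, with `Vh` in place of `log R`). -/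
def S_LWF : Prop := ∀ (N : ℝ → ℕ) (g : ℕ → ℝ) (C1 : ℝ), 1 ≤ C1 → Cnt N g C1 → Mom N → MomF N →
  ∀ k : ℕ, ∃ C T0 : ℝ, 0 < C ∧ 10 ≤ T0 ∧ ∀ T : ℝ, T0 ≤ T → ∀ K : ℕ, 1 ≤ K → (K : ℝ) ≤ Real.log T →
  ∀ (m : ℕ) (c x : Fin m → ℝ), Adm T c x →
  |PA N g T (2 * Real.pi * K / Real.log T) (fun _ t => Gf N c x t ^ k) -
      T * Real.log T / (2 * Real.pi) * gM k (Vh T c x)| ≤
    C * (T * Real.log T) * ((1 + |Vh T c x|) ^ (((k : ℝ) - 1) / 2) + (1 + |Vh T c x|) ^ ((k : ℝ) / 2) * (1 + Real.log (1 + K)) / K)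

/-- package CWF: short windows against long windows (as `Pool.Agent.U251.MV4.CW`; `‖G(· + z) - G‖_{2p}` by (1) of `MomF`, Jensen). -/
def J_CWF : Prop := S_PU → ∀ (N : ℝ → ℕ) (g : ℕ → ℝ) (C1 : ℝ), 1 ≤ C1 → Cnt N g C1 → Mom N → MomF N →
  ∀ k : ℕ, ∃ C T0 : ℝ, 0 < C ∧ 10 ≤ T0 ∧ ∀ T : ℝ, T0 ≤ T → ∀ K : ℕ, 1 ≤ K → (K : ℝ) ≤ Real.log T →
  ∀ (m : ℕ) (c x : Fin m → ℝ), Adm T c x →
  |PA N g T (2 * Real.pi * K / Real.log T) (fun _ t => Gf N c x t ^ k) - PA N g T (2 * Real.pi / Real.log T) (fun _ t => Gf N c x t ^ k)| ≤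
    C * (T * Real.log T) * (1 + |Vh T c x|) ^ (((k : ℝ) - 1) / 2) * (1 + Real.log (1 + K)) ^ (1 / 2 : ℝ)

/-- THE THEOREM -/
def S_TH6 (N : ℝ → ℕ) (g : ℕ → ℝ) : Prop := ∀ (k : ℕ) (ε : ℝ), 1 ≤ k → 0 < ε → ∃ C T0 : ℝ, 0 < C ∧ 10 ≤ T0 ∧ ∀ T : ℝ, T0 ≤ T →
  ∀ (m : ℕ) (c x : Fin m → ℝ), Adm T c x →
  |(∑ n ∈ Finset.Ioc (N T) (N (2 * T)), Gf N c x (g n) ^ k) - ((N (2 * T) : ℝ) - N T) * gM k (Vh T c x)| ≤
    C * ((N (2 * T) : ℝ) - N T) * (1 + |Vh T c x|) ^ (((k : ℝ) - 1) / 2 + ε)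

/-- package FIN6 (as `Pool.Agent.U667.MV4.FIN4`): `Gf (g n)^k - Gf t^k` by `J_ZF` and `PA (Gf^(2k-2)) ≤ C T L (1+|V|)^(k-1)` (`S_PU`, (3) of `MomF`),
Cauchy-Schwarz for `PA`; `J_CWF`, `S_LWF` with `K = ⌈√(1 + |V|)⌉` (`≤ log T` by (4)); `N (2T) - N T = T L/2π + O(T)`, `|V|^(1/2) ≤ C log T`. -/
def J_FIN6 : Prop := S_PU → J_ZF → S_LWF → J_CWF → ∀ (N : ℝ → ℕ) (g : ℕ → ℝ) (C1 : ℝ), 1 ≤ C1 → Cnt N g C1 → Mom N → MomF N →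
  S_TH6 N g

/-- the assembly -/
theorem th6_of (N : ℝ → ℕ) (g : ℕ → ℝ) (hCN : J_CN N g) (h3 : S_TH3) (hP : S_PRS) (hM : Mom N) (hMF : J_MF N g) (hPU : S_PU)
    (hZF : J_ZF) (hLW : S_LWF) (hCW : J_CWF) (hF : J_FIN6) : S_TH6 N g := by
  obtain ⟨C1, h1, hC⟩ := hCN.1
  exact hF hPU hZF hLW hCW N g C1 h1 hC hM (hMF hCN h3 hP ⟨C1, h1, hC⟩)

end

end Pool.Agent.U398.MV
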