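import Pool.Agent.U398.MV.Stm3

set_option autoImplicit false

/-!
# Project MV4: all moments of all linear forms in the unfolded ordinates of the zeta zeros,
unconditionally, up to the scale `log T` (sums of `r` consecutive gaps, `r ≤ A log T`)

Statements of the packages. Every `S_X` / `J_X` is a `Prop`; package `X` proves `theorem t_X`.

THEOREM `S_TH4 SG.NZ SG.ord`. `g n` = the `n`-th ordinate, `uf n = (g n / 2π) log (g n / 2πe)`. For every `k`, `ε`, `A` there are `C, T0`: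
for `T ≥ T0`, `1 ≤ R ≤ A log T`, all real `c_i` with `∑ |c_i| ≤ 1`, `∑ c_i = 0` and integers `0 ≤ a_i ≤ R` the mean over the zeros
`T < g n ≤ 2T` of `(∑ c_i (uf (n + a_i) - a_i))^k` is `gM k V + O((1 + log R)^((k-1)/2 + ε))`,
`V = -(1/(2π²)) ∑ c_i c_j log (1 + |a_i - a_j|)`.
-/

namespace Pool.Agent.U398.MV

open MeasureTheory Filter Topology Set
open scoped Nat

noncomputable section

/-- the smooth counting function `(t/2π) log (t/2πe)` -/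
def Mf (t : ℝ) : ℝ := t / (2 * Real.pi) * Real.log (t / (2 * Real.pi)) - t / (2 * Real.pi)

/-- the fluctuation of a counting function -/
def sg (N : ℝ → ℕ) (t : ℝ) : ℝ := (N t : ℝ) - Mf t

/-- the unfolded ordinate -/
def uf (g : ℕ → ℝ) (n : ℕ) : ℝ := Mf (g n)

/-- Gaussian moments -/
def gM (m : ℕ) (v : ℝ) : ℝ := if Even m then ((m - 1)‼ : ℝ) * v ^ (m / 2) else 0

/-- counting function `N` and ordinates `g` -/
structure Cnt (N : ℝ → ℕ) (g : ℕ → ℝ) (C1 : ℝ) : Prop where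
  mono : Monotone N
  gc : ∀ n : ℕ, 1 ≤ n → ∀ t : ℝ, g n ≤ t ↔ n ≤ N t
  rvm : ∀ t : ℝ, 10 ≤ t → |sg N t| ≤ C1 * Real.log t

/-- the linear form in the fluctuations -/
def Gf (N : ℝ → ℕ) {m : ℕ} (c x : Fin m → ℝ) (t : ℝ) : ℝ := ∑ i, c i * sg N (t + x i)

/-- its variance on the scale `L = log T` -/
def VL {m : ℕ} (L : ℝ) (c x : Fin m → ℝ) : ℝ :=
  -(1 / (2 * Real.pi ^ 2)) * ∑ i, ∑ j, c i * c j * Real.log (1 + |x i - x j| * L / (2 * Real.pi))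

/-- the moments (input): (1) upper bounds, (2) asymptotics. `B` = size of the shifts. -/
def Mom (N : ℝ → ℕ) : Prop :=
  (∀ (p : ℕ) (B : ℝ), ∃ C T0 : ℝ, 0 < C ∧ 10 ≤ T0 ∧ ∀ T : ℝ, T0 ≤ T → ∀ x y : ℝ, |x| ≤ B → |y| ≤ B →
    (∫ t in (3 * T / 4)..(3 * T), (sg N (t + x) - sg N (t + y)) ^ (2 * p)) ≤
      C * T * (1 + Real.log (1 + |x - y| * Real.log T)) ^ p) ∧
  ∀ (k : ℕ) (B : ℝ), ∃ C T0 : ℝ, 0 < C ∧ 10 ≤ T0 ∧ ∀ T : ℝ, T0 ≤ T → ∀ (m : ℕ) (c x : Fin m → ℝ) (r : ℝ),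
    (∑ i, |c i|) ≤ 1 → (∑ i, c i) = 0 → 1 ≤ r → (∀ i, 0 ≤ x i ∧ x i ≤ B ∧ x i * Real.log T ≤ 2 * Real.pi * r) →
    |1 / T * (∫ t in T..(2 * T), Gf N c x t ^ k) - gM k (VL (Real.log T) c x)| ≤
      C * (1 + Real.log r) ^ (((k : ℝ) - 1) / 2)

/-- package CN: the zeros of zeta. PROOF. `N = SG.NZ`, `g = SG.ord` of `Pool.Agent.H382R2.Final0` (`SG.ord_le_iff`, `SG.NZ_mono`);
Riemann-von Mangoldt: search the library (`Pool.Agent.U761.SZ.RGA.zcount2` gives all differences, `S(t) = O(log t)` is in the library in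
several places). The second part: `zcount2`, `Gammaℝ` by Stirling, `U84.MV2.ae_noOrd`. -/
def J_CN (N : ℝ → ℕ) (g : ℕ → ℝ) : Prop := (∃ C1 : ℝ, 1 ≤ C1 ∧ Cnt N g C1) ∧
  ∃ (Z : Set ℝ) (C : ℝ), volume Z = 0 ∧ 0 < C ∧ ∀ t u : ℝ, t ∉ Z → u ∉ Z → 10 ≤ t → t < u → u ≤ 2 * t →
    |(pS u - pS t) - (sg N u - sg N t)| ≤ C

/-- package MM (from `S_TH3` = `Pool.Agent.U398.MV.th3`, `cov2`/`S_PRS`, integrability `pow_int`, and `J_CN`). PROOF. `G = ∑ c_i sg (t + x_i) =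
∑ c_i (sg (t + x_i) - sg t)` differs from `F = ∑ c_i pS (t + x_i)` by at most `C` for almost all `t` (apply `J_CN` with base point `t`;
`∑|c_i| ≤ 1`), so `|G^k - F^k| ≤ C_k (1 + |F|^(k-1))`, `∫ |F|^(k-1) ≤` (even moments and Hölder) `≤ C T (1 + log r)^((k-1)/2)`.
`Vh T c x` and `VL`: `log |ζ(1 + 1/L + iy)| = -log (max (1/L) |y|) + O_B(1)` for `|y| ≤ B` (from the pole of zeta at 1 and `ζ(1+iy) ≠ 0`, compactness; or
`S_PRS` and `S_PR`), `∑ c_i = 0` removes `log L`; `max 1 (|y| L)` against `1 + |y|L/2π`: `O(1)`; so `|Vh - VL| ≤ C_B`, `|VL| ≤ C (1 + log r)`.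
(1): for `x ≤ y` take `c = (1/2, -1/2)`, shifts `0, y - x` after the change of variables `t → t + x`, on the dyadic blocks
`[T', 2T']`, `T' = T/2, T, 2T`; even `k = 2p`. -/
def J_MM (N : ℝ → ℕ) (g : ℕ → ℝ) : Prop := J_CN N g → S_TH3 → Mom N

/-- package PTW: the pointwise comparison (deterministic). Notation: `L = log T`, `w = 2π/L`, `D i = sg (t + 2π i/L) - sg t`.
PROOF. `t < g n ≤ g (n + a)`; let `i` be the integer with `t + 2πi/L < g (n+a) ≤ t + 2π(i+1)/L`. By `rvm` an interval of length `H` (large,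
depending on `A, C1`) has more than `A L + 1` points, so `i ≤ C L`. `Mf (t + y) - Mf t = y L / 2π + O(1)` for `0 ≤ y ≤ H + 1` and `t ∈ [T/2, 4T]`, so
`uf (n+a) - uf n - a = i - a + O(1)`. From `gc`: `N (t + 2πi/L) < n + a ≤ N (t + 2π(i+1)/L)` and `N t < n ≤ N (t + w) ` so
`n - ν ≤ N t ≤ n - 1`, `ν = N (t + w) - N t`; with `N (t + 2πi/L) - N t = i + O(1) + D i`: `i + D i ≤ a + ν + C` and
`a ≤ i + D (i+1) + C`. -/
def S_PTW : Prop := ∀ A C1 : ℝ, 1 ≤ A → 1 ≤ C1 → ∃ C T0 : ℝ, 1 ≤ C ∧ 10 ≤ T0 ∧ ∀ (N : ℝ → ℕ) (g : ℕ → ℝ), Cnt N g C1 →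
  ∀ T : ℝ, T0 ≤ T → ∀ a n : ℕ, (a : ℝ) ≤ A * Real.log T → n ∈ Finset.Ioc (N T) (N (2 * T)) →
  ∀ t : ℝ, g n - 2 * Real.pi / Real.log T ≤ t → t < g n →
  ∃ i : ℕ, (i : ℝ) ≤ C * Real.log T ∧
    |uf g (n + a) - uf g n - a + (sg N (t + 2 * Real.pi * a / Real.log T) - sg N t)| ≤
      C * (1 + ((N (t + 2 * Real.pi / Real.log T) : ℝ) - N t)) +
      |sg N (t + 2 * Real.pi * i / Real.log T) - sg N (t + 2 * Real.pi * a / Real.log T)| +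
      |sg N (t + 2 * Real.pi * (i + 1) / Real.log T) - sg N (t + 2 * Real.pi * a / Real.log T)| ∧
    |(i : ℝ) - a| ≤ C * (1 + ((N (t + 2 * Real.pi / Real.log T) : ℝ) - N t) +
      |sg N (t + 2 * Real.pi * a / Real.log T) - sg N t| +
      |sg N (t + 2 * Real.pi * i / Real.log T) - sg N (t + 2 * Real.pi * a / Real.log T)| +
      |sg N (t + 2 * Real.pi * (i + 1) / Real.log T) - sg N (t + 2 * Real.pi * a / Real.log T)|)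

/-- mean over the zeros `T < g n ≤ 2T` and over the window `[g n - w, g n)` -/
def PA (N : ℝ → ℕ) (g : ℕ → ℝ) (T w : ℝ) (f : ℕ → ℝ → ℝ) : ℝ :=
  ∑ n ∈ Finset.Ioc (N T) (N (2 * T)), 1 / w * ∫ t in (g n - w)..(g n), f n t

/-- package PU: upper bound of Palm means. PROOF. `∑_n 1(t ∈ [g n - w, g n)) 1(T < g n ≤ 2T) ≤ N (t + w) - N t`, so the left side is
`≤ (1/w) ∫_{T-w}^{2T} f t (N (t + w) - N t) dt`, Cauchy-Schwarz, and `N (t+w) - N t = Mf (t+w) - Mf t + sg (t+w) - sg t`,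
its second moment is `≤ C T` (first part of `Mom`, `p = 1`; `w = 2π/L`, `Mf (t+w) - Mf t ≤ 2`). Measurability: `f` is given measurable and
square integrable on `[3T/4, 3T]`. -/
def S_PU : Prop := ∀ (N : ℝ → ℕ) (g : ℕ → ℝ) (C1 : ℝ), Cnt N g C1 → Mom N → ∃ C T0 : ℝ, 0 < C ∧ 10 ≤ T0 ∧ ∀ T : ℝ, T0 ≤ T →
  ∀ f : ℝ → ℝ, (∀ t, 0 ≤ f t) → AEStronglyMeasurable f volume →
  IntegrableOn (fun t => f t ^ 2) (Icc (3 * T / 4) (3 * T)) →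
  PA N g T (2 * Real.pi / Real.log T) (fun _ t => f t) ≤
    C * Real.log T * Real.sqrt T * Real.sqrt (∫ t in (3 * T / 4)..(3 * T), f t ^ 2)

/-- package CRU: the comparison of the ordinates with the fluctuations, in all moments (from `S_PTW`, `S_PU`). `Q = 1 + log R`. PROOF. First
crude form: with `i = i(n,t)` of `S_PTW` the quantity is `≤ C (1 + ν^(2q) + |Δ i|^(2q) + |Δ (i+1)|^(2q))`, `Δ i = sg (t + 2πi/L) - sg (t + 2πa/L)`; bound it by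
`f t = ∑_{i ≤ C L} χ_i(t) (same)` where `χ_i = 1` for `|i - a| ≤ Q` and
`χ_i = (C (1 + ν + |D a| + |Δ i| + |Δ (i+1)|) / |i - a|)^4` otherwise; by `Mom` (1), Cauchy-Schwarz:
`(∫ f²)^(1/2) ≤ ∑_i ‖·‖_2 ≤ C √T (Q (1 + log (1+Q))^q + ∑_{j > Q} j^(-4) Q² (1 + log (1+j))^q) ≤ C √T Q²`; `S_PU` gives the crude bound
`≤ C T L Q²` for all `q`. Then Jensen for the probability measure (zeros × window) with exponent `q/p`, `q/p ≥ 2/ε`: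
`≤ (C Q²)^(p/q) T L ≤ C T L Q^ε`. (`N (2T) - N T = T L/2π + O(T)` by `rvm`.) -/
def J_CRU : Prop := S_PTW → S_PU → ∀ (N : ℝ → ℕ) (g : ℕ → ℝ) (C1 : ℝ), 1 ≤ C1 → Cnt N g C1 → Mom N →
  ∀ (p : ℕ) (A ε : ℝ), 1 ≤ A → 0 < ε → ∃ C T0 : ℝ, 0 < C ∧ 10 ≤ T0 ∧ ∀ T : ℝ, T0 ≤ T → ∀ R a : ℕ, 1 ≤ R →
  (R : ℝ) ≤ A * Real.log T → a ≤ R →
  PA N g T (2 * Real.pi / Real.log T) (fun n t =>
    (uf g (n + a) - uf g n - a + (sg N (t + 2 * Real.pi * a / Real.log T) - sg N t)) ^ (2 * p)) ≤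
    C * (T * Real.log T) * (1 + Real.log R) ^ ε

/-- package LW: means over long windows. `K ≥ 1` integer, `W = 2πK/L`. PROOF. The left mean is
`(1/W) ∫_{T-W}^{2T} G^k #{n : max t T < g n ≤ min (t+W) (2T)} dt`; up to the two edge intervals of length `W` it is
`(1/W) ∫_T^{2T} G^k (N (t+W) - N t) dt`, edges by Cauchy-Schwarz and `N (t+W) - N t ≤ C K L` (`rvm`, `W ≤ 2π`): `≤ C √T L^C`, fine for
`T ≥ T0`. `N (t+W) - N t = W L/2π + O(W + W²) + (sg (t+W) - sg t)`: main term `(L/2π) ∫ G^k = (L/2π) T gM + ...` by `Mom` (2); `(1/W) ∫ |G|^k |sg (t+W) - sg t| ≤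
(L/(2πK)) C T Q^(k/2) (1 + log (1+K))^(1/2)` by `Mom` (1) (for `G`: Jensen, `|G|^(2k) ≤ ∑|c_i| |sg (t+x_i) - sg (t + x_j0)|^(2k)`, using `∑ c_i = 0`) and
Cauchy-Schwarz. -/
def S_LW : Prop := ∀ (N : ℝ → ℕ) (g : ℕ → ℝ) (C1 : ℝ), 1 ≤ C1 → Cnt N g C1 → Mom N →
  ∀ (k : ℕ) (A : ℝ), 1 ≤ A → ∃ C T0 : ℝ, 0 < C ∧ 10 ≤ T0 ∧ ∀ T : ℝ, T0 ≤ T → ∀ R K : ℕ, 1 ≤ R → (R : ℝ) ≤ A * Real.log T →
  1 ≤ K → (K : ℝ) ≤ Real.log T → ∀ (m : ℕ) (c : Fin m → ℝ) (a : Fin m → ℕ), (∑ i, |c i|) ≤ 1 → (∑ i, c i) = 0 → (∀ i, a i ≤ R) →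
  |PA N g T (2 * Real.pi * K / Real.log T) (fun _ t => Gf N c (fun i => 2 * Real.pi * a i / Real.log T) t ^ k) -
      T * Real.log T / (2 * Real.pi) * gM k (VL (Real.log T) c (fun i => 2 * Real.pi * a i / Real.log T))| ≤
    C * (T * Real.log T) * ((1 + Real.log R) ^ (((k : ℝ) - 1) / 2) +
      (1 + Real.log R) ^ ((k : ℝ) / 2) * (1 + Real.log (1 + K)) / K)

/-- package CW: short windows against long windows (from `S_PU`). PROOF. For fixed `n` the difference of the two means is at most the mean over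
`s ∈ [g n - w, g n)` of `(1/W) ∫_{-W}^{w} |G(s)^k - G(s+z)^k| dz`, `w = 2π/L ≤ W`; `|x^k - y^k| ≤ k |x - y| (|x|^(k-1) + |y|^(k-1))`; apply
`S_PU` to `f s = (1/W) ∫_{-W}^{w} ... dz`, Cauchy-Schwarz / Minkowski in `z`, and `Mom` (1): `‖G(· + z) - G‖_{2p} ≤ C √T.. (1 + log (1 + K))^(1/2)` (Jensen over `i`),
`‖G‖_{2p} ≤ C Q^(1/2)`. -/
def J_CW : Prop := S_PU → ∀ (N : ℝ → ℕ) (g : ℕ → ℝ) (C1 : ℝ), 1 ≤ C1 → Cnt N g C1 → Mom N →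
  ∀ (k : ℕ) (A : ℝ), 1 ≤ A → ∃ C T0 : ℝ, 0 < C ∧ 10 ≤ T0 ∧ ∀ T : ℝ, T0 ≤ T → ∀ R K : ℕ, 1 ≤ R → (R : ℝ) ≤ A * Real.log T →
  1 ≤ K → (K : ℝ) ≤ Real.log T → ∀ (m : ℕ) (c : Fin m → ℝ) (a : Fin m → ℕ), (∑ i, |c i|) ≤ 1 → (∑ i, c i) = 0 → (∀ i, a i ≤ R) →
  |PA N g T (2 * Real.pi * K / Real.log T) (fun _ t => Gf N c (fun i => 2 * Real.pi * a i / Real.log T) t ^ k) -
      PA N g T (2 * Real.pi / Real.log T) (fun _ t => Gf N c (fun i => 2 * Real.pi * a i / Real.log T) t ^ k)| ≤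
    C * (T * Real.log T) * (1 + Real.log R) ^ (((k : ℝ) - 1) / 2) * (1 + Real.log (1 + K)) ^ (1 / 2 : ℝ)

/-- variance of a linear form in the unfolded ordinates -/
def VR {m : ℕ} (c : Fin m → ℝ) (a : Fin m → ℕ) : ℝ :=
  -(1 / (2 * Real.pi ^ 2)) * ∑ i, ∑ j, c i * c j * Real.log (1 + |(a i : ℝ) - a j|)

/-- THE THEOREM (with a factor `N (2T) - N T`) -/
def S_TH4 (N : ℝ → ℕ) (g : ℕ → ℝ) : Prop := ∀ (k : ℕ) (A ε : ℝ), 1 ≤ k → 1 ≤ A → 0 < ε → ∃ C T0 : ℝ, 0 < C ∧ 10 ≤ T0 ∧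
  ∀ T : ℝ, T0 ≤ T → ∀ R : ℕ, 1 ≤ R → (R : ℝ) ≤ A * Real.log T →
  ∀ (m : ℕ) (c : Fin m → ℝ) (a : Fin m → ℕ), (∑ i, |c i|) ≤ 1 → (∑ i, c i) = 0 → (∀ i, a i ≤ R) →
  |(∑ n ∈ Finset.Ioc (N T) (N (2 * T)), (∑ i, c i * (uf g (n + a i) - a i)) ^ k) -
      ((N (2 * T) : ℝ) - N T) * gM k (VR c a)| ≤
    C * ((N (2 * T) : ℝ) - N T) * (1 + Real.log R) ^ (((k : ℝ) - 1) / 2 + ε)

/-- package FIN4. PROOF. `x_i = 2π a_i / L`; `Y_n = ∑ c_i (uf (n + a_i) - a_i) = ∑ c_i (uf (n + a_i) - uf n - a_i) = -G(t) + E_n(t)` for every `t` in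
the window, `G = Gf N c x` (as `∑ c_i = 0`), `|E|^(2p) ≤ ∑ |c_i| |...|^(2p)` (Jensen), so `PA |E|^(2p) ≤ C T L Q^ε` by `J_CRU`.
`|Y^k - (-G)^k| ≤ C_k |E| (|E|^(k-1) + |G|^(k-1))`; `PA (|G|^(2k-2)) ≤ C T L Q^(k-1)` by `S_PU` and `Mom` (1); Cauchy-Schwarz for the sum-integral `PA`.
`PA` of `(-G)^k` over the short window `= (-1)^k (PA long ± J_CW) = (-1)^k (T L / 2π) gM ± ...` with `K = ⌈√Q⌉` (`≤ log T` for large `T`; `log (1+K) ≤ C Q^ε`); `(-1)^k gM k = gM k`;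
`VL (log T) c x = VR c a` exactly (as `x_i L / 2π = a_i`); `N (2T) - N T = T L/2π + O(T)` by `rvm`, `|gM k V| ≤ C Q^(k/2)`, and `Q^(k/2)/L ≤ C` since `R ≤ A L`. -/
def J_FIN4 : Prop := S_PU → J_CRU → S_LW → J_CW → S_PTW → ∀ (N : ℝ → ℕ) (g : ℕ → ℝ) (C1 : ℝ), 1 ≤ C1 → Cnt N g C1 → Mom N →
  S_TH4 N g

end

end Pool.Agent.U398.MV
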