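import Pool.Agent.U398.MV.Fin4
import Pool.Agent.U398.MV.Stm6
import Pool.Agent.U978.MV6.MF
import Pool.Agent.U427.MV6.ZF
import Pool.Agent.U390.MV6.LWF
import Pool.Agent.U873.MV6.CWF
import Pool.Agent.U255.MV6.FIN6

set_option autoImplicit false

/-! # Project MV6: assembly -/

namespace Pool.Agent.U398.MV

noncomputable section

/-- all moments of the zero counts in windows seen from the zeros -/
theorem th6 : S_TH6 SG.NZ SG.ord :=
  th6_of SG.NZ SG.ord Pool.Agent.U15.MV4.t_CN th3 Pool.Agent.U125.MV2.PRS.t_PRS mom4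
    (Pool.Agent.U978.MV6.t_MF SG.NZ SG.ord) Pool.Agent.U898.MV4.t_PU Pool.Agent.U427.MV6.t_ZF
    Pool.Agent.U390.MV6.t_LWF Pool.Agent.U873.MV6.t_CWF Pool.Agent.U255.MV6.t_FIN6

end

end Pool.Agent.U398.MV
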