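import Mathlib

set_option autoImplicit false

/-!
# Project MV: number variance of the zeros of zeta with a bounded error, at all scales

Statements of the packages. Every `S_X` is a `Prop`; package `X` proves `theorem t_X : ... → S_X`.

THEOREM (unconditional). There is `C` such that for all large `T` and `1 / log T ≤ h ≤ 1`
`|(1/T) ∫_T^{2T} (N(t+h) - N(t) - (h/2π) log T)² dt - (1/π²) log (h log T)| ≤ C`,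
and `|N*(T, a) / (T log T / 2π) - a| ≤ C` for `0 < a ≤ (log T) / 2π`.
-/

namespace Pool.Agent.U398.MV

open MeasureTheory Filter Topology Set Complex

noncomputable section

/-- local Fourier transform (Gaussian window at `t`, frequency `u`) of the measure
`∑ w i δ_(x i) - lam 1_[a,b] dx` -/
def Vf {ι : Type} (S : Finset ι) (w x : ι → ℝ) (lam a b u t : ℝ) : ℂ :=
  (∑ i ∈ S, (w i : ℂ) * (cexp (I * u * x i) * cexp (-((x i : ℂ) - t) ^ 2 / 2))) -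
    (lam : ℂ) * ∫ y in a..b, cexp (I * u * y) * cexp (-((y : ℂ) - t) ^ 2 / 2)

/-- the measure of the window `(t, t+h]` -/
def Ff {ι : Type} (S : Finset ι) (w x : ι → ℝ) (lam a b h t : ℝ) : ℝ :=
  (∑ i ∈ S, w i * (if t < x i ∧ x i ≤ t + h then 1 else 0)) -
    lam * ∫ y in a..b, (if t < y ∧ y ≤ t + h then (1 : ℝ) else 0)

/-- transform of `max 0 (h - |x|) * exp (x² / 4)` -/
def rr (h u : ℝ) : ℝ :=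
  1 / (2 * Real.pi) * ∫ x in (-h)..h, (h - |x|) * Real.exp (x ^ 2 / 4) * Real.cos (u * x)

/-- package R: the function `rr` -/
def S_R : Prop := ∃ C : ℝ, 0 < C ∧ ∀ h : ℝ, 0 < h → h ≤ 1 →
  Continuous (rr h) ∧ Integrable (rr h) ∧ (∀ u, rr h (-u) = rr h u) ∧ (∀ u, |rr h u| ≤ h ^ 2) ∧
  (∀ u, |rr h u| * u ^ 2 ≤ C) ∧
  (∀ u, 1 ≤ u → |rr h u - 1 / (Real.pi * u ^ 2) * (1 - Real.exp (h ^ 2 / 4) * Real.cos (u * h))| ≤ C * h / u ^ 3) ∧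
  (∀ x, (∫ u : ℝ, rr h u * Real.cos (u * x)) * Real.exp (-x ^ 2 / 4) = max 0 (h - |x|))

/-- package ID: the Plancherel identity with Gaussian windows (from `S_R`) -/
def S_ID : Prop := ∀ (ι : Type) (S : Finset ι) (w x : ι → ℝ) (lam a b : ℝ), a ≤ b →
  (∀ u : ℝ, Integrable (fun t : ℝ => ‖Vf S w x lam a b u t‖ ^ 2)) ∧
  (Continuous fun u : ℝ => ∫ t : ℝ, ‖Vf S w x lam a b u t‖ ^ 2) ∧
  (∀ u : ℝ, (∫ t : ℝ, ‖Vf S w x lam a b (-u) t‖ ^ 2) = ∫ t : ℝ, ‖Vf S w x lam a b u t‖ ^ 2) ∧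
  (Continuous fun p : ℝ × ℝ => Vf S w x lam a b p.1 p.2) ∧
  ∀ h : ℝ, 0 < h → h ≤ 1 →
    Integrable (fun u : ℝ => rr h u * ∫ t : ℝ, ‖Vf S w x lam a b u t‖ ^ 2) ∧
    Integrable (fun t : ℝ => Ff S w x lam a b h t ^ 2) ∧
    (∫ t : ℝ, Ff S w x lam a b h t ^ 2) =
      1 / Real.sqrt Real.pi * ∫ u : ℝ, rr h u * ∫ t : ℝ, ‖Vf S w x lam a b u t‖ ^ 2

/-- package OUT: the edges -/
def S_OUT : Prop := ∃ C : ℝ, 0 < C ∧ ∀ (ι : Type) (S : Finset ι) (w x : ι → ℝ) (lam a b T L C1 : ℝ),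
  1 ≤ L → 4 * L ≤ T → T ≤ a → a ≤ T + 1 → 2 * T - 1 ≤ b → b ≤ 2 * T → 0 ≤ lam → lam ≤ L → 1 ≤ C1 →
  (∀ i ∈ S, 0 ≤ w i ∧ a ≤ x i ∧ x i ≤ b) →
  (∀ y : ℝ, ∑ i ∈ S, w i * (if |x i - y| ≤ 1 then 1 else 0) ≤ C1 * L) →
  ∀ u : ℝ, ∫ t in (Icc (T + L) (2 * T - L))ᶜ, ‖Vf S w x lam a b u t‖ ^ 2 ≤ C * C1 ^ 2 * L ^ 3

/-- the prime side -/
def Pf (u t : ℝ) : ℂ :=
  ∑' n : ℕ, ((ArithmeticFunction.vonMangoldt n : ℝ) : ℂ) * (Real.sqrt n : ℂ)⁻¹ *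
    cexp (I * t * (u - Real.log n)) * Real.exp (-(u - Real.log n) ^ 2 / 2)

/-- its mean square -/
def Vp (u : ℝ) : ℝ :=
  ∑' n : ℕ, (ArithmeticFunction.vonMangoldt n) ^ 2 / n * Real.exp (-(u - Real.log n) ^ 2)

/-- package PP: mean square of the prime side -/
def S_PP : Prop := ∃ C T0 : ℝ, 0 < C ∧ 100 ≤ T0 ∧ Continuous Vp ∧
  (Continuous fun p : ℝ × ℝ => Pf p.1 p.2) ∧ (∀ u, 0 ≤ Vp u) ∧ (∀ u, 0 ≤ u → Vp u ≤ C * (1 + u)) ∧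
  ∀ T : ℝ, T0 ≤ T → ∀ u : ℝ, 0 ≤ u → u ≤ Real.log T / 2 →
    |(∫ t in (T + Real.log T)..(2 * T - Real.log T), ‖Pf u t‖ ^ 2) - T * Vp u| ≤ C * T

/-- package EN: the energy estimate (abstract) -/
def S_EN : Prop := ∀ C1 : ℝ, 1 ≤ C1 → ∃ C : ℝ, 0 < C ∧ ∀ T L : ℝ, 4 ≤ L → 8 * L ≤ T →
  ∀ (V P D : ℝ → ℝ → ℂ) (v r : ℝ → ℝ),
  (Continuous fun p : ℝ × ℝ => V p.1 p.2) → (Continuous fun p : ℝ × ℝ => P p.1 p.2) →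
  (Continuous fun p : ℝ × ℝ => D p.1 p.2) → Continuous v → Continuous r →
  (∀ u, |r u| ≤ 1) → (∀ u, |r u| * u ^ 2 ≤ 1) →
  (∀ u : ℝ, Integrable (fun t : ℝ => ‖V u t‖ ^ 2)) → (Continuous fun u : ℝ => ∫ t : ℝ, ‖V u t‖ ^ 2) →
  (∀ u, 0 ≤ u → u ≤ L / 2 → ∫ t in (Icc (T + L) (2 * T - L))ᶜ, ‖V u t‖ ^ 2 ≤ C1 * T) →
  (∀ u, 0 ≤ u → u ≤ L / 2 → ∀ t ∈ Icc (T + L) (2 * T - L),
    ‖V u t + ((1 / Real.sqrt (2 * Real.pi) : ℝ) : ℂ) * P u t + D u t‖ ≤ C1 * (Real.exp (-u) + 1 / L)) →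
  (∀ u, 0 ≤ u → u ≤ L / 2 → 0 ≤ v u ∧ v u ≤ C1 * (1 + u)) →
  (∀ u, 0 ≤ u → u ≤ L / 2 → |(∫ t in (T + L)..(2 * T - L), ‖P u t‖ ^ 2) - T * v u| ≤ C1 * T) →
  (∀ U, 1 ≤ U → U ≤ L / 2 →
    ∫ u in (0 : ℝ)..U, ∫ t in (T + L)..(2 * T - L), ‖D u t‖ ^ 2 ≤ C1 * U ^ 4 * T / L ^ 2) →
  |(∫ u in (0 : ℝ)..(L / 2), r u * ∫ t : ℝ, ‖V u t‖ ^ 2) -
    T / (2 * Real.pi) * ∫ u in (0 : ℝ)..(L / 2), r u * v u| ≤ C * T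

/-- package PR: primes (Mertens and the nonvanishing of zeta on the line 1) -/
def S_PR : Prop := ∃ C : ℝ, 0 < C ∧ ∀ x : ℝ, 3 ≤ x → ∀ h : ℝ, 0 ≤ h → h ≤ 1 →
  |(∑ p ∈ (Finset.Icc 1 ⌊x⌋₊).filter Nat.Prime, Real.cos (h * Real.log p) / p) +
    Real.log (max (1 / Real.log x) h)| ≤ C

/-- package VC: the cosine integrals of `Vp` (from `S_PR`) -/
def S_VC : Prop := ∃ C : ℝ, 0 < C ∧ ∀ L : ℝ, 4 ≤ L → ∀ h : ℝ, 0 ≤ h → h ≤ 1 →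
  |(∫ u in (1 : ℝ)..(L / 2), Vp u * Real.cos (u * h) / u ^ 2) +
    Real.sqrt Real.pi * Real.log (max (1 / L) h)| ≤ C

/-- package MT: the main term (from `S_R`, `S_VC` and the bound of `Vp` in `S_PP`) -/
def S_MT : Prop := ∃ C : ℝ, 0 < C ∧ ∀ L : ℝ, 4 ≤ L → ∀ h : ℝ, 1 / L ≤ h → h ≤ 1 →
  |(∫ u in (0 : ℝ)..(L / 2), rr h u * Vp u) - 1 / Real.sqrt Real.pi * Real.log (h * L)| ≤ C

/-- package HI: high frequencies -/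
def S_HI : Prop := ∃ C : ℝ, 0 < C ∧ ∀ (ι : Type) (S : Finset ι) (w x : ι → ℝ) (lam a b T L C1 : ℝ),
  4 ≤ L → 8 * L ≤ T → T ≤ a → a ≤ T + 1 → 2 * T - 1 ≤ b → b ≤ 2 * T → 0 ≤ lam → lam ≤ L → 1 ≤ C1 →
  (∀ i ∈ S, 0 ≤ w i) →
  (∑ i ∈ S, ∑ j ∈ S, w i * w j * Real.exp (-(L * (x i - x j)) ^ 2 / 16) ≤ C1 * (T * L)) →
  ∀ r : ℝ → ℝ, Continuous r → (∀ u, |r u| * u ^ 2 ≤ 1) →
  ∫ u in Ioi (L / 2), |r u| * ∫ t : ℝ, ‖Vf S w x lam a b u t‖ ^ 2 ≤ C * C1 * T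

/-- package PB: Gaussian pair sums are bounded by triangle pair sums -/
def S_PB : Prop := ∃ C : ℝ, 0 < C ∧ ∀ (ι : Type) (S : Finset ι) (w x : ι → ℝ) (L : ℝ), 0 < L →
  (∀ i ∈ S, 0 ≤ w i) →
  ∑ i ∈ S, ∑ j ∈ S, w i * w j * Real.exp (-(L * (x i - x j)) ^ 2 / 16) ≤
    C * ∑ i ∈ S, ∑ j ∈ S, w i * w j * max 0 (1 - |(x i - x j) * L / (2 * Real.pi)|)

/-- `n(t)`: number of points in `(0, t]` -/
def cnt {ι : Type} (F : ℝ → Finset ι) (m : ι → ℝ) (t : ℝ) : ℝ := ∑ i ∈ F t, m i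

/-- the data of packages NB and NG: points `x i` (`i ∈ Z`) with weights `m i ≥ 0`,
`F t` = the points in `(0, t]` -/
structure Pts {ι : Type} (Z : Set ι) (x m : ι → ℝ) (F : ℝ → Finset ι) (C1 T0 : ℝ) : Prop where
  hT0 : 10 ≤ T0
  nonneg : ∀ i, 0 ≤ m i
  low : cnt F m 10 ≤ C1
  mem : ∀ i t, i ∈ F t ↔ i ∈ Z ∧ 0 < x i ∧ x i ≤ t
  short : ∀ y : ℝ, 2 ≤ y → cnt F m (y + 1) - cnt F m y ≤ C1 * Real.log y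
  block : ∀ T : ℝ, T0 ≤ T →
    |cnt F m (2 * T) - cnt F m T - T * Real.log T / (2 * Real.pi)| ≤ C1 * T
  vari : ∀ T : ℝ, T0 ≤ T → ∀ h : ℝ, 1 / Real.log T ≤ h → h ≤ 1 →
    |1 / T * (∫ t in T..(2 * T), (cnt F m (t + h) - cnt F m t - h / (2 * Real.pi) * Real.log T) ^ 2) -
      1 / Real.pi ^ 2 * Real.log (h * Real.log T)| ≤ C1

/-- package NB: pair counts in a block, from the variance -/
def S_NB : Prop := ∀ C1 T0 : ℝ, ∃ C T1 : ℝ, 0 < C ∧ T0 ≤ T1 ∧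
  ∀ (Z : Set ℂ) (x m : ℂ → ℝ) (F : ℝ → Finset ℂ), Pts Z x m F C1 T0 →
  ∀ T : ℝ, T1 ≤ T → ∀ h : ℝ, 0 < h → h ≤ 1 →
    |(∑ i ∈ F (2 * T), ∑ j ∈ F (2 * T), m i * m j *
        (if T < x i ∧ T < x j ∧ 0 < x i - x j ∧ x i - x j ≤ h then 1 else 0)) -
      (Real.log T / (2 * Real.pi)) ^ 2 * T * h| ≤ C * (T * Real.log T)

/-- package NG: pair counts up to `T` (from `S_NB`) -/
def S_NG : Prop := ∀ C1 T0 : ℝ, ∃ C T1 : ℝ, 0 < C ∧ T0 ≤ T1 ∧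
  ∀ (Z : Set ℂ) (x m : ℂ → ℝ) (F : ℝ → Finset ℂ), Pts Z x m F C1 T0 →
  ∀ T : ℝ, T1 ≤ T → ∀ a : ℝ, 0 < a → a ≤ Real.log T / (2 * Real.pi) →
    |(∑ i ∈ F T, ∑ j ∈ F T, m i * m j *
        (if 0 < x i - x j ∧ x i - x j ≤ 2 * Real.pi * a / Real.log T then 1 else 0)) /
        (T * Real.log T / (2 * Real.pi)) - a| ≤ C

end

end Pool.Agent.U398.MV
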