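import Pool.Agent.U398.MV.Stm

set_option autoImplicit false

/-!
# Project MV2: the covariance of the argument function `S(t)` of zeta, unconditionally, with a
bounded error and at all shifts

Statements of the packages. Every `S_X` is a `Prop`; package `X` proves `theorem t_X : ... → S_X`.

THEOREM (unconditional). Let `S(t) = (1/π) arg ζ(1/2 + it)`. There are `C, T0` such that for all
`T ≥ T0` and `0 ≤ h ≤ T / (log T)²`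
`|(1/T) ∫_T^{2T} S(t) S(t+h) dt - (1/(2π²)) log |ζ(1 + 1/log T + ih)|| ≤ C`.
(`h = 0`: Selberg's second moment with error `O(1)` instead of `O(√(log log T))`; differences: the
number variance at all scales, up to the saturation regime of Berry.)
-/

namespace Pool.Agent.U398.MV

open MeasureTheory Filter Topology Set Complex

noncomputable section

/-- the value at `t` of the convolution of `f` with the measure `∑ w i δ_(x i) - lam 1_[a,b] dx` -/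
def Lf {ι : Type} (S : Finset ι) (w x : ι → ℝ) (lam a b : ℝ) (f : ℝ → ℝ) (t : ℝ) : ℝ :=
  (∑ i ∈ S, w i * f (t - x i)) - lam * ∫ y in a..b, f (t - y)

/-- `1_{x ≥ 0}` minus its convolution with the hat function `max 0 (1 - |x|)` -/
def gg (x : ℝ) : ℝ :=
  if 0 ≤ x then 1 / 2 * (max 0 (1 - x)) ^ 2 else -(1 / 2) * (max 0 (1 + x)) ^ 2

/-- the autocorrelation of `gg` -/
def rho (z : ℝ) : ℝ :=
  if |z| ≤ 1 then 1 / 10 - |z| / 2 + 2 / 3 * |z| ^ 2 - |z| ^ 3 / 3 + |z| ^ 4 / 12 - |z| ^ 5 / 40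
  else if |z| ≤ 2 then -(2 - |z|) ^ 5 / 120 else 0

/-- transform of `rho z * exp (z² / 4)` -/
def qq (u : ℝ) : ℝ :=
  1 / (2 * Real.pi) * ∫ z in (-2 : ℝ)..2, rho z * Real.exp (z ^ 2 / 4) * Real.cos (u * z)

/-- the shifted correlation of `V u` -/
def Cor (V : ℝ → ℝ → ℂ) (s u : ℝ) : ℝ :=
  (cexp (I * u * s) * ∫ t : ℝ, V u t * (starRingEnd ℂ) (V u (t + s))).re

/-- package RHO -/
def S_RHO : Prop := ∀ z : ℝ, ∫ t : ℝ, gg t * gg (t + z) = rho z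

/-- package RQ: the transform `qq` -/
def S_RQ : Prop := ∃ C : ℝ, 1 ≤ C ∧ Continuous qq ∧ Integrable qq ∧ (∀ u, qq (-u) = qq u) ∧
  (∀ u, |qq u| ≤ C) ∧ (∀ u, |qq u| * u ^ 2 ≤ C) ∧
  (∀ u, 1 ≤ u → |qq u - 1 / (2 * Real.pi * u ^ 2)| ≤ C / u ^ 3) ∧
  (∀ z, (∫ u : ℝ, qq u * Real.cos (u * z)) * Real.exp (-z ^ 2 / 4) = rho z)

/-- package IDS: the Plancherel identity with a shift (from `S_RHO`, `S_RQ`) -/
def S_IDS : Prop := ∀ (ι : Type) (S : Finset ι) (w x : ι → ℝ) (lam a b : ℝ), a ≤ b →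
  Integrable (fun t : ℝ => Lf S w x lam a b gg t ^ 2) ∧
  ∀ s : ℝ,
    (∀ u : ℝ, Cor (Vf S w x lam a b) s (-u) = Cor (Vf S w x lam a b) s u) ∧
    (∀ u : ℝ, |Cor (Vf S w x lam a b) s u| ≤ ∫ t : ℝ, ‖Vf S w x lam a b u t‖ ^ 2) ∧
    (Continuous fun u : ℝ => Cor (Vf S w x lam a b) s u) ∧
    Integrable (fun u : ℝ => qq u * Cor (Vf S w x lam a b) s u) ∧
    (∫ t : ℝ, Lf S w x lam a b gg t * Lf S w x lam a b gg (t + s)) =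
      1 / Real.sqrt Real.pi * ∫ u : ℝ, qq u * Cor (Vf S w x lam a b) s u

/-- package ENS: the energy estimate with a shift (abstract) -/
def S_ENS : Prop := ∀ C1 : ℝ, 1 ≤ C1 → ∃ C : ℝ, 0 < C ∧ ∀ T L s : ℝ, 4 ≤ L → 8 * L ≤ T →
  0 ≤ s → s ≤ T / L →
  ∀ (V P D : ℝ → ℝ → ℂ) (v vs r : ℝ → ℝ),
  (Continuous fun p : ℝ × ℝ => V p.1 p.2) → (Continuous fun p : ℝ × ℝ => P p.1 p.2) →
  (Continuous fun p : ℝ × ℝ => D p.1 p.2) → Continuous v → Continuous vs → Continuous r →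
  (∀ u, |r u| ≤ 1) → (∀ u, |r u| * u ^ 2 ≤ 1) →
  (∀ u : ℝ, Integrable (fun t : ℝ => ‖V u t‖ ^ 2)) → (Continuous fun u : ℝ => ∫ t : ℝ, ‖V u t‖ ^ 2) →
  (Continuous fun u : ℝ => Cor V s u) →
  (∀ u, 0 ≤ u → u ≤ L / 2 → ∫ t in (Icc (T + L) (2 * T - L))ᶜ, ‖V u t‖ ^ 2 ≤ C1 * T) →
  (∀ u, 0 ≤ u → u ≤ L / 2 → ∀ t ∈ Icc (T + L) (2 * T - L),
    ‖V u t + ((1 / Real.sqrt (2 * Real.pi) : ℝ) : ℂ) * P u t + D u t‖ ≤ C1 * (Real.exp (-u) + 1 / L)) →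
  (∀ u, 0 ≤ u → u ≤ L / 2 → 0 ≤ v u ∧ v u ≤ C1 * (1 + u)) →
  (∀ u, 0 ≤ u → u ≤ L / 2 → |(∫ t in (T + L)..(2 * T - L), ‖P u t‖ ^ 2) - T * v u| ≤ C1 * T) →
  (∀ u, 0 ≤ u → u ≤ L / 2 →
    |(cexp (I * u * s) * ∫ t in (T + L)..(2 * T - L - s), P u t * (starRingEnd ℂ) (P u (t + s))).re -
      T * vs u| ≤ C1 * T) →
  (∀ U, 1 ≤ U → U ≤ L / 2 →
    ∫ u in (0 : ℝ)..U, ∫ t in (T + L)..(2 * T - L), ‖D u t‖ ^ 2 ≤ C1 * U ^ 4 * T / L ^ 2) →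
  |(∫ u in (0 : ℝ)..(L / 2), r u * Cor V s u) -
    T / (2 * Real.pi) * ∫ u in (0 : ℝ)..(L / 2), r u * vs u| ≤ C * T

/-- the shifted prime sum -/
def Vps (s u : ℝ) : ℝ :=
  ∑' n : ℕ, (ArithmeticFunction.vonMangoldt n) ^ 2 / n * Real.exp (-(u - Real.log n) ^ 2) *
    Real.cos (s * Real.log n)

/-- package PPS: shifted mean value of the prime side -/
def S_PPS : Prop := ∃ C T0 : ℝ, 0 < C ∧ 100 ≤ T0 ∧ (∀ s, Continuous (Vps s)) ∧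
  (∀ s u, |Vps s u| ≤ Vp u) ∧
  ∀ T : ℝ, T0 ≤ T → ∀ u : ℝ, 0 ≤ u → u ≤ Real.log T / 2 → ∀ s : ℝ, 0 ≤ s → s ≤ T / Real.log T →
    |(cexp (I * u * s) * ∫ t in (T + Real.log T)..(2 * T - Real.log T - s),
      Pf u t * (starRingEnd ℂ) (Pf u (t + s))).re - T * Vps s u| ≤ C * T

/-- package PRS: primes -/
def S_PRS : Prop := ∃ C : ℝ, 0 < C ∧ ∀ x : ℝ, 3 ≤ x → ∀ s : ℝ, 0 ≤ s →
  |(∑ p ∈ (Finset.Icc 1 ⌊x⌋₊).filter Nat.Prime, Real.cos (s * Real.log p) / p) -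
    Real.log ‖riemannZeta (((1 + 1 / Real.log x : ℝ) : ℂ) + s * I)‖| ≤ C

/-- package VCS: the integrals of `Vps` (from `S_PRS` and the bounds of `Vp` in `S_PP`) -/
def S_VCS : Prop := ∃ C : ℝ, 0 < C ∧ ∀ L : ℝ, 4 ≤ L → ∀ s : ℝ, 0 ≤ s →
  |(∫ u in (1 : ℝ)..(L / 2), Vps s u / u ^ 2) -
    Real.sqrt Real.pi * Real.log ‖riemannZeta (((1 + 1 / L : ℝ) : ℂ) + s * I)‖| ≤ C

/-- package MTS: the main term (from `S_RQ`, `S_VCS`, `S_PP`, `S_PPS`) -/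
def S_MTS : Prop := ∃ C : ℝ, 0 < C ∧ ∀ L : ℝ, 4 ≤ L → ∀ s : ℝ, 0 ≤ s →
  |(∫ u in (0 : ℝ)..(L / 2), qq u * Vps s u) -
    1 / (2 * Real.sqrt Real.pi) * Real.log ‖riemannZeta (((1 + 1 / L : ℝ) : ℂ) + s * I)‖| ≤ C

/-- package AB: from the correlation of `A ≈ σ - σ * hat` to the correlation of `σ` (abstract) -/
def S_AB : Prop := ∀ C1 : ℝ, 1 ≤ C1 → ∃ C T0 : ℝ, 0 < C ∧ ∀ T : ℝ, T0 ≤ T →
  ∀ h : ℝ, 0 ≤ h → h ≤ T / (Real.log T) ^ 2 → ∀ (σ A : ℝ → ℝ) (m : ℝ),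
  AEStronglyMeasurable σ volume → IntegrableOn (fun t => σ t ^ 4) (Icc (T / 2) (3 * T)) →
  (∫ t in (T / 2)..(3 * T), σ t ^ 4) ≤ C1 * (T * Real.log T) →
  (∫ t in T..(2 * T), (∫ y in (t - 1 / 2)..(t + 1 / 2), σ y) ^ 2) ≤ C1 * T →
  (∀ᵐ t : ℝ, T + 3 ≤ t → t ≤ 2 * T - 3 →
    |σ t - (∫ y in (-1 : ℝ)..1, (1 - |y|) * σ (t - y)) - A t| ≤ C1 / T) →
  Measurable A → (∀ t, |A t| ≤ C1 * Real.log T) → (∀ t, t < T - 2 ∨ 2 * T + 2 < t → A t = 0) →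
  (∫ t : ℝ, A t ^ 2) ≤ C1 * (T * Real.log T) →
  |(∫ t : ℝ, A t * A (t + h)) - T * m| ≤ C1 * T →
  |(∫ t in T..(2 * T), σ t * σ (t + h)) - T * m| ≤ C * T

/-- `S(t) = (1/π) arg ζ(1/2 + it)`, by continuous variation along the segments from `2` to
`2 + it` and to `1/2 + it` -/
def pS (t : ℝ) : ℝ :=
  1 / Real.pi * ((∫ u in (0 : ℝ)..t, (logDeriv riemannZeta ((2 : ℂ) + u * I)).re) -
    ∫ x in (1 / 2 : ℝ)..2, (logDeriv riemannZeta ((x : ℂ) + t * I)).im)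

/-- package SB: moments of `S(t)` (heavy library `Pool.Agent.U761.SZ`: `piS`, `dets`, `SSB`) -/
def S_SB : Prop := AEStronglyMeasurable pS volume ∧ ∃ C T0 : ℝ, 0 < C ∧ 10 ≤ T0 ∧
  ∀ T : ℝ, T0 ≤ T → IntegrableOn (fun t => pS t ^ 4) (Icc (T / 2) (3 * T)) ∧
    (∫ t in (T / 2)..(3 * T), pS t ^ 4) ≤ C * (T * Real.log T) ∧
    (∫ t in T..(2 * T), (∫ y in (t - 1 / 2)..(t + 1 / 2), pS y) ^ 2) ≤ C * T

/-- package SC: `S - S * hat` is the local sum over the zeros (library `Pool.Agent.U761.SZ`: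
`count2`) -/
def S_SC : Prop := ∃ C T0 : ℝ, 0 < C ∧ 10 ≤ T0 ∧ ∀ T : ℝ, T0 ≤ T →
  ∀ᵐ t : ℝ, T + 1 ≤ t → t ≤ 2 * T - 1 →
    |pS t - (∫ y in (-1 : ℝ)..1, (1 - |y|) * pS (t - y)) -
      ∑ᶠ s ∈ {s : ℂ | riemannZeta s = 0 ∧ 0 < s.re ∧ s.re < 1 ∧ 0 < s.im},
        (analyticOrderNatAt riemannZeta s : ℝ) * gg (t - s.im)| ≤ C / T

/-- package TG: the gamma factor varies slowly (used in `S_SC`) -/
def S_TG : Prop := ∃ C : ℝ, 0 < C ∧ ∀ T : ℝ, 10 ≤ T → ∀ y y' : ℝ, T ≤ y → y ≤ 2 * T → T ≤ y' →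
  y' ≤ 2 * T →
  |(logDeriv Gammaℝ ((1 / 2 : ℂ) + y * I)).re - (logDeriv Gammaℝ ((1 / 2 : ℂ) + y' * I)).re| ≤
    C / T * |y - y'|

end

end Pool.Agent.U398.MV
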