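import Pool.Agent.U398.MV.Pt
import Pool.Agent.U460.MV.R
import Pool.Agent.U671.MV.ID
import Pool.Agent.U256.MV.OUT
import Pool.Agent.U139.MV.PP
import Pool.Agent.U747.MV.EN
import Pool.Agent.U780.MV.PR
import Pool.Agent.U94.MV.VC
import Pool.Agent.U338.MV.MT
import Pool.Agent.U114.MV.HI
import Pool.Agent.U780.MV.PB
import Pool.Agent.U501.MV.NB
import Pool.Agent.U256.MV.NG

set_option autoImplicit false

/-! # Project MV: assembly -/

namespace Pool.Agent.U398.MV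

open MeasureTheory Filter Topology Set Complex
open H370 (Zf mult mem_Zf good_zeta zset NN NN_eq)
open U398.NV (Fz Zz mz mem_Fz)

noncomputable section

theorem hMT : S_MT := Pool.Agent.U338.MV.MT.t_MT Pool.Agent.U460.MV.R.t_R
  (Pool.Agent.U94.MV.VC.t_VC Pool.Agent.U780.MV.PR.t_PR Pool.Agent.U139.MV.PP.t_PP)
  Pool.Agent.U139.MV.PP.t_PP

/-- the zeros of zeta form a system of points -/
theorem pts : ∃ C1 T0 : ℝ, Pts Zz xz mz Fz C1 T0 :=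
  pts_zeta Pool.Agent.U460.MV.R.t_R (Pool.Agent.U671.MV.ID.t_ID Pool.Agent.U460.MV.R.t_R)
    Pool.Agent.U256.MV.OUT.t_OUT Pool.Agent.U139.MV.PP.t_PP Pool.Agent.U747.MV.t_EN hMT
    Pool.Agent.U114.MV.HI.t_HI Pool.Agent.U780.MV.PB.t_PB

/-- the zeros with ordinate in `[-1, T]` -/
lemma Gz_fin (T : ℝ) : {s : ℂ | s ∈ Zz ∧ -1 ≤ s.im ∧ s.im ≤ T}.Finite := by
  have hcomp : IsCompact (Icc (0 : ℝ) 1 ×ℂ Icc (-1) T) := isCompact_Icc.reProdIm isCompact_Icc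
  refine (H370.finite_zeros_compact (F := riemannZeta) (fun s hs => ?_)
    (riemannZeta_ne_zero_of_one_le_re (by simp)) ?_ hcomp).subset ?_
  · have : DifferentiableOn ℂ riemannZeta ({1}ᶜ : Set ℂ) := fun z hz =>
      (differentiableAt_riemannZeta hz).differentiableWithinAt
    exact this.analyticAt (isOpen_compl_singleton.mem_nhds hs)
  · have h := riemannZeta_residue_one
    have h3 := h.eventually_ne (one_ne_zero : (1 : ℂ) ≠ 0)
    filter_upwards [h3] with s hs h0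
    rw [h0, mul_zero] at hs
    exact hs rfl
  · rintro s ⟨⟨a1, a2, a3⟩, a4, a5⟩
    exact ⟨⟨⟨a2.le, a3.le⟩, ⟨a4, a5⟩⟩, a1⟩

def Gz (T : ℝ) : Finset ℂ := (Gz_fin T).toFinset

lemma mem_Gz (s : ℂ) (T : ℝ) : s ∈ Gz T ↔ s ∈ Zz ∧ -1 ≤ s.im ∧ s.im ≤ T := by
  unfold Gz
  rw [Set.Finite.mem_toFinset]
  rfl

/-- pairs at distance at most `h` -/
def PSh (T h : ℝ) : Set (ℂ × ℂ) := {p : ℂ × ℂ | p.1 ∈ Zz ∧ p.2 ∈ Zz ∧ 0 < p.1.im ∧ p.1.im ≤ T ∧
  0 < p.1.im - p.2.im ∧ p.1.im - p.2.im ≤ h}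

lemma PSh_sum {T h : ℝ} (hT : 1 ≤ T) (hh : h ≤ 1) :
    |((∑ᶠ p ∈ PSh T h, analyticOrderNatAt riemannZeta p.1 * analyticOrderNatAt riemannZeta p.2 : ℕ) : ℝ) -
      ∑ i ∈ Fz T, ∑ j ∈ Fz T, mz i * mz j * (if 0 < xz i - xz j ∧ xz i - xz j ≤ h then 1 else 0)| ≤
      ∑ i ∈ Gz 1, ∑ j ∈ Gz 1, mz i * mz j := by
  classical
  set f : ℂ × ℂ → ℝ := fun p => mz p.1 * mz p.2 with hf
  have hf0 : ∀ p, 0 ≤ f p := fun p => mul_nonneg (mz_nonneg _) (mz_nonneg _)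
  set A := (Gz T ×ˢ Gz T).filter (fun p : ℂ × ℂ => 0 < p.1.im ∧ 0 < p.1.im - p.2.im ∧
    p.1.im - p.2.im ≤ h) with hA
  have e : PSh T h = ↑A := by
    ext p
    rw [Finset.mem_coe, hA, Finset.mem_filter, Finset.mem_product, mem_Gz, mem_Gz]
    unfold PSh
    simp only [Set.mem_ofPred_eq]
    constructor
    · rintro ⟨h1, h2, h3, h4, h5, h6⟩
      exact ⟨⟨⟨h1, by linarith, h4⟩, ⟨h2, by linarith, by linarith⟩⟩, h3, h5, h6⟩
    · rintro ⟨⟨⟨h1, h2, h3⟩, ⟨h4, h5, h6⟩⟩, h7, h8, h9⟩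
      exact ⟨h1, h4, h7, h3, h8, h9⟩
  have e1 : ((∑ᶠ p ∈ PSh T h, analyticOrderNatAt riemannZeta p.1 *
      analyticOrderNatAt riemannZeta p.2 : ℕ) : ℝ) = ∑ p ∈ A, f p := by
    rw [e, finsum_mem_coe_finset]
    push_cast
    rfl
  set B := (Fz T ×ˢ Fz T).filter (fun p : ℂ × ℂ => 0 < p.1.im - p.2.im ∧ p.1.im - p.2.im ≤ h) with hB
  have e2 : ∑ i ∈ Fz T, ∑ j ∈ Fz T, mz i * mz j * (if 0 < xz i - xz j ∧ xz i - xz j ≤ h then (1:ℝ) else 0) =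
      ∑ p ∈ B, f p := by
    rw [hB, Finset.sum_filter, Finset.sum_product]
    refine Finset.sum_congr rfl fun i _ => Finset.sum_congr rfl fun j _ => ?_
    unfold xz
    simp only [hf]
    split_ifs with h1
    · ring
    · simp
  have hBA : B ⊆ A := by
    intro p hp
    rw [hB, Finset.mem_filter, Finset.mem_product, mem_Fz, mem_Fz] at hp
    rw [hA, Finset.mem_filter, Finset.mem_product, mem_Gz, mem_Gz]
    obtain ⟨⟨⟨h1, h2, h3⟩, ⟨h4, h5, h6⟩⟩, h7, h8⟩ := hp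
    exact ⟨⟨⟨h1, by linarith, h3⟩, ⟨h4, by linarith, h6⟩⟩, h2, h7, h8⟩
  rw [e1, e2, ← Finset.sum_sdiff hBA, add_sub_cancel_right,
    abs_of_nonneg (Finset.sum_nonneg fun p _ => hf0 p), ← Finset.sum_product']
  apply Finset.sum_le_sum_of_subset_of_nonneg _ fun p _ _ => hf0 p
  intro p hp
  rw [Finset.mem_sdiff, hA, hB, Finset.mem_filter, Finset.mem_filter, Finset.mem_product,
    Finset.mem_product, mem_Gz, mem_Gz, mem_Fz, mem_Fz] at hp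
  obtain ⟨⟨⟨⟨h1, h2, h3⟩, ⟨h4, h5, h6⟩⟩, h7, h8, h9⟩, h10⟩ := hp
  have h11 : p.2.im ≤ 0 := by
    by_contra hcon
    push Not at hcon
    exact h10 ⟨⟨⟨h1, h7, h3⟩, ⟨h4, hcon, h6⟩⟩, h8, h9⟩
  rw [Finset.mem_product, mem_Gz, mem_Gz]
  exact ⟨⟨h1, h2, by linarith⟩, ⟨h4, h5, by linarith⟩⟩

lemma cnt_finsum (t : ℝ) : ((∑ᶠ s ∈ {s : ℂ | s ∈ Zz ∧ 0 < s.im ∧ s.im ≤ t},
    analyticOrderNatAt riemannZeta s : ℕ) : ℝ) = cnt Fz mz t := by
  have e : {s : ℂ | s ∈ Zz ∧ 0 < s.im ∧ s.im ≤ t} = ↑(Fz t) := by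
    ext s
    rw [Finset.mem_coe, mem_Fz]
    rfl
  rw [e, finsum_mem_coe_finset]
  unfold cnt
  push_cast
  rfl

/-- the final theorem -/
theorem final : ∃ C T0 : ℝ, 0 < C ∧ 10 ≤ T0 ∧ ∀ T : ℝ, T0 ≤ T →
    (∀ h : ℝ, 1 / Real.log T ≤ h → h ≤ 1 →
      |1 / T * (∫ t in T..(2 * T), (cnt Fz mz (t + h) - cnt Fz mz t - h / (2 * Real.pi) * Real.log T) ^ 2) -
        1 / Real.pi ^ 2 * Real.log (h * Real.log T)| ≤ C) ∧
    (∀ a : ℝ, 0 < a → a ≤ Real.log T / (2 * Real.pi) →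
      |((∑ᶠ p ∈ PSh T (2 * Real.pi * a / Real.log T), analyticOrderNatAt riemannZeta p.1 *
        analyticOrderNatAt riemannZeta p.2 : ℕ) : ℝ) / (T * Real.log T / (2 * Real.pi)) - a| ≤ C) := by
  obtain ⟨C1, T0, hp⟩ := pts
  obtain ⟨C, T1, hC, hT1, hng⟩ := Pool.Agent.U256.MV.NG.t_NG Pool.Agent.U501.MV.NB.t_NB C1 T0
  have hG0 : 0 ≤ ∑ i ∈ Gz 1, ∑ j ∈ Gz 1, mz i * mz j :=
    Finset.sum_nonneg fun i _ => Finset.sum_nonneg fun j _ => mul_nonneg (mz_nonneg _) (mz_nonneg _)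
  set G := ∑ i ∈ Gz 1, ∑ j ∈ Gz 1, mz i * mz j with hG
  refine ⟨|C1| + C + G, max T1 T0, by positivity, (hp.hT0).trans (le_max_right _ _),
    fun T hT => ⟨fun h h1 h2 => ?_, fun a ha1 ha2 => ?_⟩⟩
  · refine (hp.vari T ((le_max_right _ _).trans hT) h h1 h2).trans ?_
    linarith [le_abs_self C1]
  · have hT10 : 10 ≤ T := hp.hT0.trans ((le_max_right _ _).trans hT)
    have hpi := Real.pi_pos
    have hL1 : 1 ≤ Real.log T := by
      rw [Real.le_log_iff_exp_le (by linarith)]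
      linarith [Real.exp_one_lt_d9]
    have hL0 : 0 < Real.log T := by linarith
    have hh : 2 * Real.pi * a / Real.log T ≤ 1 := by
      rw [div_le_one hL0]
      rw [le_div_iff₀ (by positivity)] at ha2
      linarith
    have h3 := PSh_sum (T := T) (by linarith) hh
    have h4 := hng Zz xz mz Fz hp T ((le_max_left _ _).trans hT) a ha1 ha2
    set P : ℝ := ((∑ᶠ p ∈ PSh T (2 * Real.pi * a / Real.log T), analyticOrderNatAt riemannZeta p.1 *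
        analyticOrderNatAt riemannZeta p.2 : ℕ) : ℝ)
    set Q : ℝ := ∑ i ∈ Fz T, ∑ j ∈ Fz T, mz i * mz j * (if 0 < xz i - xz j ∧ xz i - xz j ≤
      2 * Real.pi * a / Real.log T then 1 else 0)
    set X : ℝ := T * Real.log T / (2 * Real.pi) with hX
    have hX1 : 1 ≤ X := by
      rw [hX, one_le_div (by positivity)]
      nlinarith [Real.pi_le_four]
    have h5 : |P / X - Q / X| ≤ G := by
      rw [← sub_div, abs_div, abs_of_pos (by linarith : 0 < X), div_le_iff₀ (by linarith)]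
      refine h3.trans ?_
      nlinarith
    calc |P / X - a| = |(P / X - Q / X) + (Q / X - a)| := by ring_nf
      _ ≤ G + C := (abs_add_le _ _).trans (add_le_add h5 h4)
      _ ≤ |C1| + C + G := by linarith [abs_nonneg C1]

end

end Pool.Agent.U398.MV
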