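import Pool.Agent.U398.MV.Inner

set_option autoImplicit false

/-! # Project MV: the off-line part in bands, and the pair bound -/

namespace Pool.Agent.U398.MV

open MeasureTheory Filter Topology Set Complex
open H370 (Zf mult mem_Zf good_zeta zset NN NN_eq)
open Pool.Agent.Y750.OM (DD JD JD_cut D_bound DD_cont DD_int JD_nonneg exists_cutoff NO NO_le NO_nonneg)

noncomputable section

lemma Zf_sub {T U1 U2 : ℝ} (hT : 1 ≤ T) (h1 : T ≤ U1) (h2 : U2 ≤ 2 * T) :
    Zf riemannZeta U1 U2 ⊆ Zf riemannZeta T (2 * T) := by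
  intro s hs
  rw [mem_Zf good_zeta (by linarith)] at hs ⊢
  obtain ⟨g1, g2, g3, g4, g5⟩ := hs
  exact ⟨g1, g2, by linarith, by linarith, g5⟩

lemma Dz_cont (U1 U2 L : ℝ) : Continuous fun p : ℝ × ℝ => Dz U1 U2 L p.1 p.2 := by
  have h1 := DD_cont (Zf riemannZeta U1 U2) (fun s => (mult riemannZeta s : ℝ)) L
  have h2 : Continuous fun p : ℝ × ℝ => ((p.1 / L, p.2) : ℝ × ℝ) := by fun_prop
  exact h1.comp h2

/-- crude bound for the number of zeros -/
lemma NN_crude2 : ∃ C : ℝ, 1 ≤ C ∧ ∀ T : ℝ, 10 ≤ T → (NN riemannZeta T (2 * T) : ℝ) ≤ C * (T * Real.log T) := by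
  obtain ⟨C2, hC2, hN⟩ := H370.NN_crude good_zeta
  refine ⟨max 1 C2, le_max_left _ _, fun T hT => ?_⟩
  have h1 := hN T (by linarith) T (2 * T) le_rfl le_rfl
  have h2 : 0 ≤ T * Real.log T := mul_nonneg (by linarith) (Real.log_nonneg (by linarith))
  refine h1.trans ?_
  exact mul_le_mul_of_nonneg_right (le_max_right _ _) h2

/-- THE BAND BOUND -/
theorem band : ∃ C T0 : ℝ, 0 < C ∧ 10 ≤ T0 ∧ ∀ T : ℝ, T0 ≤ T → ∀ U1 U2 : ℝ, T ≤ U1 → U2 ≤ 2 * T →
    ∀ U : ℝ, 1 ≤ U → U ≤ Real.log T / 2 →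
      ∫ u in (0 : ℝ)..U, ∫ t in (T + Real.log T)..(2 * T - Real.log T),
        ‖Dz U1 U2 (Real.log T) u t‖ ^ 2 ≤ C * U ^ 4 * T / (Real.log T) ^ 2 := by
  obtain ⟨g0, hg, hg0, hg1⟩ := exists_cutoff (rr := 5 / 4) (by norm_num)
  obtain ⟨C, θ, T0, hC, hθ, hθ1, hT0, hD⟩ := D_bound hg (rr := 5 / 4) (by norm_num) hg0
    (κ := 5 / 8) (by norm_num) (by norm_num)
  obtain ⟨K, hK, hN⟩ := NN_crude2
  refine ⟨C * K, max T0 (Real.exp 4), by positivity, hT0.trans (le_max_left _ _),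
    fun T hT U1 U2 hU1 hU2 U hU1' hUL => ?_⟩
  have hTT0 : T0 ≤ T := (le_max_left _ _).trans hT
  have hT10 : 10 ≤ T := hT0.trans hTT0
  have hTpos : 0 < T := by linarith
  set L := Real.log T with hL
  have hL4 : 4 ≤ L := by
    rw [hL, Real.le_log_iff_exp_le hTpos]
    exact (le_max_right _ _).trans hT
  have hL0 : 0 < L := by linarith
  have hlogT : L ≤ T := (Real.log_le_sub_one_of_pos hTpos).trans (by linarith)
  set δ : ℝ := U / L with hδ
  have hδ0 : 0 < δ := by positivity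
  have hδ1 : δ ≤ 1 / 2 := by
    rw [hδ, div_le_iff₀ hL0]; linarith
  have hδL : δ * L = U := by rw [hδ]; field_simp
  have hU1o : 1 ≤ U1 := by linarith
  have hS := Zf_sub (by linarith : (1:ℝ) ≤ T) hU1 hU2
  have h1 := hD T hTT0 δ hδ0 (by linarith) (by linarith) (by rw [← hL, hδL]; exact hU1')
    (Zf riemannZeta U1 U2) hS
  rw [← hL] at h1
  set S := Zf riemannZeta U1 U2 with hSdef
  set m : ℂ → ℝ := fun s => (mult riemannZeta s : ℝ) with hm
  have hX0 : 0 < T * L := by positivity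
  have h2 : NO T (2 * T) ^ θ * (T * L) ^ (1 - θ) ≤ K * (T * L) := by
    have h3 : NO T (2 * T) ≤ K * (T * L) := (NO_le (by linarith)).trans (hN T hT10)
    have h4 : NO T (2 * T) ^ θ ≤ (K * (T * L)) ^ θ :=
      Real.rpow_le_rpow (NO_nonneg _ _) h3 hθ.le
    have h5 : (K * (T * L)) ^ θ = K ^ θ * (T * L) ^ θ := Real.mul_rpow (by linarith) hX0.le
    have h6 : K ^ θ ≤ K := by
      calc K ^ θ ≤ K ^ (1 : ℝ) := Real.rpow_le_rpow_of_exponent_le hK hθ1.le
        _ = K := Real.rpow_one K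
    calc NO T (2 * T) ^ θ * (T * L) ^ (1 - θ) ≤ (K ^ θ * (T * L) ^ θ) * (T * L) ^ (1 - θ) := by
          rw [← h5]; gcongr
      _ = K ^ θ * ((T * L) ^ θ * (T * L) ^ (1 - θ)) := by ring
      _ = K ^ θ * (T * L) := by
          rw [← Real.rpow_add hX0]
          norm_num
      _ ≤ K * (T * L) := by gcongr
  set Bd : ℝ := C * δ ^ 4 * (NO T (2 * T) ^ θ * (T * L) ^ (1 - θ)) with hBd
  have hBd0 : 0 ≤ Bd := by
    have : 0 ≤ NO T (2 * T) ^ θ := Real.rpow_nonneg (NO_nonneg _ _) _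
    rw [hBd]; positivity
  obtain ⟨hi, hle⟩ := JD_cut hg.continuous (δ := δ) S m L (fun α => DD_int hU1o L α) hBd0 h1
  -- comparison
  have hcut : ∀ α ∈ Icc (0 : ℝ) δ, g0 (α / δ) ^ 2 * JD S m L α = JD S m L α := by
    intro α hα
    rw [hg1 (α / δ) (by
      rw [abs_of_nonneg (div_nonneg hα.1 hδ0.le), div_le_one hδ0]
      exact hα.2), one_pow, one_mul]
  have hJI : IntervalIntegrable (fun α => JD S m L α) volume 0 δ := by
    refine (hi.intervalIntegrable (a := 0) (b := δ)).congr ?_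
    intro α hα
    rw [uIoc_of_le hδ0.le] at hα
    exact hcut α ⟨hα.1.le, hα.2⟩
  have hJI2 : IntervalIntegrable (fun u => JD S m L (u / L)) volume 0 U := by
    have := IntervalIntegrable.comp_mul_right hJI (c := L⁻¹)
    rw [zero_div, div_inv_eq_mul, hδL] at this
    simpa only [div_eq_mul_inv] using this
  have hpar : Continuous (fun u : ℝ => ∫ t in (T + L)..(2 * T - L), ‖Dz U1 U2 L u t‖ ^ 2) := by
    apply intervalIntegral.continuous_parametric_intervalIntegral_of_continuous'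
    have h3 := ((Dz_cont U1 U2 L).norm.pow 2)
    exact h3
  have h3 : ∫ u in (0 : ℝ)..U, ∫ t in (T + L)..(2 * T - L), ‖Dz U1 U2 L u t‖ ^ 2 ≤
      ∫ u in (0 : ℝ)..U, JD S m L (u / L) := by
    apply intervalIntegral.integral_mono_on (by linarith) (hpar.intervalIntegrable _ _) hJI2
    intro u hu
    by_cases hab : T + L ≤ 2 * T - L
    · rw [intervalIntegral.integral_of_le hab]
      exact setIntegral_le_integral (DD_int hU1o L (u / L))
        (Eventually.of_forall fun t => by positivity)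
    · push Not at hab
      rw [intervalIntegral.integral_of_ge hab.le]
      have h4 : 0 ≤ ∫ t in Ioc (2 * T - L) (T + L), ‖Dz U1 U2 L u t‖ ^ 2 :=
        integral_nonneg fun t => by positivity
      have h5 := JD_nonneg S m L (u / L)
      linarith
  have h4 : ∫ u in (0 : ℝ)..U, JD S m L (u / L) = L * ∫ α in (0 : ℝ)..δ, JD S m L α := by
    rw [intervalIntegral.integral_comp_div (fun α => JD S m L α) hL0.ne', zero_div, smul_eq_mul]
  have h5 : ∫ α in (0 : ℝ)..δ, JD S m L α ≤ Bd := by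
    rw [intervalIntegral.integral_of_le hδ0.le]
    have h6 : ∫ α in Ioc 0 δ, JD S m L α = ∫ α in Ioc 0 δ, g0 (α / δ) ^ 2 * JD S m L α := by
      refine setIntegral_congr_fun measurableSet_Ioc fun α hα => ?_
      exact (hcut α ⟨hα.1.le, hα.2⟩).symm
    rw [h6]
    refine (setIntegral_le_integral hi (Eventually.of_forall fun α => ?_)).trans hle
    exact mul_nonneg (sq_nonneg _) (JD_nonneg _ _ _ _)
  calc ∫ u in (0 : ℝ)..U, ∫ t in (T + L)..(2 * T - L), ‖Dz U1 U2 L u t‖ ^ 2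
      ≤ L * Bd := by
        rw [h4] at h3
        exact h3.trans (by gcongr)
    _ ≤ L * (C * δ ^ 4 * (K * (T * L))) := by
        rw [hBd]; gcongr
    _ = C * K * U ^ 4 * T / L ^ 2 := by
        rw [hδ]; field_simp

/-- THE PAIR BOUND -/
theorem pairb (hPB : S_PB) : ∃ C T0 : ℝ, 1 ≤ C ∧ 10 ≤ T0 ∧ ∀ T : ℝ, T0 ≤ T → ∀ U1 U2 : ℝ, T ≤ U1 →
    U2 ≤ 2 * T →
    ∑ i ∈ Zf riemannZeta U1 U2, ∑ j ∈ Zf riemannZeta U1 U2, (mult riemannZeta i : ℝ) *
      (mult riemannZeta j : ℝ) * Real.exp (-(Real.log T * (i.im - j.im)) ^ 2 / 16) ≤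
      C * (T * Real.log T) := by
  obtain ⟨C1, hC1, hz⟩ := U398.NV.z_block
  obtain ⟨T1, hT1, hz1⟩ := hz 1 le_rfl
  obtain ⟨C2, hC2, hpb⟩ := hPB
  obtain ⟨K, hK, hN⟩ := NN_crude2
  refine ⟨max 1 (C2 * ((2 + C1) * K)), max T1 10, le_max_left _ _, le_max_right _ _,
    fun T hT U1 U2 hU1 hU2 => ?_⟩
  have hTT1 : T1 ≤ T := (le_max_left _ _).trans hT
  have hT10 : 10 ≤ T := (le_max_right _ _).trans hT
  have hL0 : 0 < Real.log T := Real.log_pos (by linarith)
  have h1 := hpb ℂ (Zf riemannZeta U1 U2) (fun s => (mult riemannZeta s : ℝ)) (fun s => s.im)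
    (Real.log T) hL0 (fun s _ => Nat.cast_nonneg _)
  have hS := Zf_sub (by linarith : (1:ℝ) ≤ T) hU1 hU2
  have hm : ∀ s, 0 ≤ U398.NV.mz s := fun s => Nat.cast_nonneg _
  have h2 : ∑ i ∈ Zf riemannZeta U1 U2, ∑ j ∈ Zf riemannZeta U1 U2, (mult riemannZeta i : ℝ) *
      (mult riemannZeta j : ℝ) * max 0 (1 - |(i.im - j.im) * Real.log T / (2 * Real.pi)|) ≤
      U398.NV.WS U398.NV.mz 1 (Real.log T) (Zf riemannZeta T (2 * T)) := by
    unfold U398.NV.WS
    have h3 : ∀ i j : ℂ, U398.NV.mz i * U398.NV.mz j *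
        U398.NV.tri 1 ((i.im - j.im) * Real.log T / (2 * Real.pi)) =
        (mult riemannZeta i : ℝ) * (mult riemannZeta j : ℝ) *
          max 0 (1 - |(i.im - j.im) * Real.log T / (2 * Real.pi)|) := by
      intro i j
      unfold U398.NV.mz U398.NV.tri
      rw [div_one]
    simp_rw [h3]
    refine (Finset.sum_le_sum fun i _ => Finset.sum_le_sum_of_subset_of_nonneg hS
      fun j _ _ => by positivity).trans ?_
    exact Finset.sum_le_sum_of_subset_of_nonneg hS fun i _ _ =>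
      Finset.sum_nonneg fun j _ => by positivity
  have h4 := (abs_le.1 (hz1 T hTT1)).2
  have h5 := U398.NV.EE_le (A := 1) le_rfl
  have h6 := hN T hT10
  have h7 : (0 : ℝ) ≤ NN riemannZeta T (2 * T) := Nat.cast_nonneg _
  have h8 : U398.NV.WS U398.NV.mz 1 (Real.log T) (Zf riemannZeta T (2 * T)) ≤
      (2 + C1) * (NN riemannZeta T (2 * T) : ℝ) := by
    have h9 : U398.NV.EE 1 * (NN riemannZeta T (2 * T) : ℝ) ≤ 2 * 1 * NN riemannZeta T (2 * T) :=
      mul_le_mul_of_nonneg_right h5 h7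
    rw [div_one] at h4
    linarith
  have hX0 : 0 ≤ T * Real.log T := by positivity
  calc _ ≤ C2 * ∑ i ∈ Zf riemannZeta U1 U2, ∑ j ∈ Zf riemannZeta U1 U2, (mult riemannZeta i : ℝ) *
      (mult riemannZeta j : ℝ) * max 0 (1 - |(i.im - j.im) * Real.log T / (2 * Real.pi)|) := h1
    _ ≤ C2 * ((2 + C1) * (K * (T * Real.log T))) := by
        gcongr
        refine h2.trans (h8.trans ?_)
        gcongr
    _ = (C2 * ((2 + C1) * K)) * (T * Real.log T) := by ring
    _ ≤ _ := mul_le_mul_of_nonneg_right (le_max_right _ _) hX0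

end

end Pool.Agent.U398.MV
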