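import Pool.Agent.U398.MV.Var

set_option autoImplicit false

/-! # Project MV: from the block to the counting function -/

namespace Pool.Agent.U398.MV

open MeasureTheory Filter Topology Set Complex
open H370 (Zf mult mem_Zf good_zeta zset NN NN_eq)
open U398.NV (Fz Zz mz mem_Fz)

noncomputable section

/-- local count up to `4 T` -/
lemma loc_count4 : ∃ C : ℝ, 1 ≤ C ∧ ∀ T : ℝ, 10 ≤ T → ∀ U1 U2 : ℝ, T ≤ U1 → U2 ≤ 4 * T → ∀ y : ℝ,
    ∑ i ∈ Zf riemannZeta U1 U2, wz i * (if |xz i - y| ≤ 1 then 1 else 0) ≤ C * Real.log T := by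
  classical
  obtain ⟨C, hC, h⟩ := H370.A2.near_count good_zeta
  refine ⟨max 1 (2 * C), le_max_left _ _, fun T hT U1 U2 hU1 hU2 y => ?_⟩
  have hL : 0 ≤ Real.log T := Real.log_nonneg (by linarith)
  have h1 := h T hT U1 U2 hU1 hU2 y
  have h2 := h T hT U1 U2 hU1 hU2 (y - 1)
  rw [Finset.sum_filter] at h1 h2
  have h3 : ∑ i ∈ Zf riemannZeta U1 U2, wz i * (if |xz i - y| ≤ 1 then 1 else 0) ≤
      (∑ s ∈ Zf riemannZeta U1 U2, if y - 1 < s.im ∧ s.im ≤ y + 1 then (mult riemannZeta s : ℝ) else 0) +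
      ∑ s ∈ Zf riemannZeta U1 U2, if y - 1 - 1 < s.im ∧ s.im ≤ y - 1 + 1 then (mult riemannZeta s : ℝ) else 0 := by
    rw [← Finset.sum_add_distrib]
    refine Finset.sum_le_sum fun s _ => ?_
    have hw : (0 : ℝ) ≤ (mult riemannZeta s : ℝ) := Nat.cast_nonneg _
    unfold wz xz
    by_cases h4 : |s.im - y| ≤ 1
    · rw [if_pos h4, mul_one]
      obtain ⟨h5, h6⟩ := abs_le.1 h4
      by_cases h7 : y - 1 < s.im
      · rw [if_pos ⟨h7, by linarith⟩]
        split_ifs <;> linarith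
      · rw [if_neg (fun h => h7 h.1), if_pos ⟨by linarith, by linarith⟩]
        linarith
    · rw [if_neg h4, mul_zero]
      split_ifs <;> linarith
  have h4 : 2 * C * Real.log T ≤ max 1 (2 * C) * Real.log T :=
    mul_le_mul_of_nonneg_right (le_max_right _ _) hL
  linarith

/-- the length of the window -/
lemma win_len {a b h t : ℝ} (hab : a ≤ b) (hh : 0 ≤ h) :
    ∫ y in a..b, (if t < y ∧ y ≤ t + h then (1 : ℝ) else 0) ≤ h ∧
    0 ≤ ∫ y in a..b, (if t < y ∧ y ≤ t + h then (1 : ℝ) else 0) := by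
  rw [intervalIntegral.integral_of_le hab]
  have e : (fun y : ℝ => if t < y ∧ y ≤ t + h then (1 : ℝ) else 0) = (Ioc t (t + h)).indicator 1 := by
    ext y
    by_cases hy : t < y ∧ y ≤ t + h
    · rw [if_pos hy, indicator_of_mem (show y ∈ Ioc t (t + h) from hy)]; rfl
    · rw [if_neg hy, indicator_of_notMem (show y ∉ Ioc t (t + h) from hy)]
  rw [e, integral_indicator_one measurableSet_Ioc, measureReal_restrict_apply measurableSet_Ioc]
  refine ⟨?_, measureReal_nonneg⟩
  refine (measureReal_mono inter_subset_left ?_).trans ?_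
  · rw [Real.volume_Ioc]; exact ENNReal.ofReal_ne_top
  · rw [Real.volume_real_Ioc_of_le (by linarith)]; linarith

lemma win_full {a b h t : ℝ} (ha : a ≤ t) (hh : 0 ≤ h) (hb : t + h ≤ b) :
    ∫ y in a..b, (if t < y ∧ y ≤ t + h then (1 : ℝ) else 0) = h := by
  rw [intervalIntegral.integral_of_le (by linarith)]
  have e : (fun y : ℝ => if t < y ∧ y ≤ t + h then (1 : ℝ) else 0) = (Ioc t (t + h)).indicator 1 := by
    ext y
    by_cases hy : t < y ∧ y ≤ t + h
    · rw [if_pos hy, indicator_of_mem (show y ∈ Ioc t (t + h) from hy)]; rfl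
    · rw [if_neg hy, indicator_of_notMem (show y ∉ Ioc t (t + h) from hy)]
  rw [e, integral_indicator_one measurableSet_Ioc, measureReal_restrict_apply measurableSet_Ioc]
  have : Ioc t (t + h) ∩ Ioc a b = Ioc t (t + h) :=
    inter_eq_left.2 (Ioc_subset_Ioc ha hb)
  rw [this, Real.volume_real_Ioc_of_le (by linarith)]
  ring

lemma win_zero {a b h t : ℝ} (hab : a ≤ b) (hd : t + h ≤ a ∨ b ≤ t) :
    ∫ y in a..b, (if t < y ∧ y ≤ t + h then (1 : ℝ) else 0) = 0 := by
  rw [intervalIntegral.integral_of_le hab]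
  have h1 : ∫ y in Ioc a b, (if t < y ∧ y ≤ t + h then (1 : ℝ) else 0) = ∫ y in Ioc a b, (0 : ℝ) := by
    refine setIntegral_congr_fun measurableSet_Ioc fun y hy => ?_
    show (if t < y ∧ y ≤ t + h then (1 : ℝ) else 0) = 0
    rw [if_neg]
    rintro ⟨h2, h3⟩
    rcases hd with h4 | h4
    · linarith [hy.1]
    · linarith [hy.2]
  rw [h1, integral_zero]

/-- bound for the windows -/
lemma Fb_bound : ∃ C : ℝ, 1 ≤ C ∧ ∀ T : ℝ, 10 ≤ T → ∀ U1 U2 : ℝ, T ≤ U1 → U1 ≤ U2 → U2 ≤ 4 * T →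
    ∀ h t : ℝ, 0 ≤ h → h ≤ 1 → |Fb U1 U2 (Real.log T) h t| ≤ C * Real.log T := by
  obtain ⟨C, hC, hl⟩ := loc_count4
  refine ⟨C + 1, by linarith, fun T hT U1 U2 hU1 h12 hU2 h t hh hh1 => ?_⟩
  have hL : 0 ≤ Real.log T := Real.log_nonneg (by linarith)
  obtain ⟨w1, w2⟩ := win_len (a := U1) (b := U2) (h := h) (t := t) h12 hh
  have h1 := hl T hT U1 U2 hU1 hU2 (t + h)
  unfold Fb Ff
  set A := ∑ i ∈ Zf riemannZeta U1 U2, wz i * (if t < xz i ∧ xz i ≤ t + h then (1:ℝ) else 0) with hA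
  set B := ∫ y in U1..U2, (if t < y ∧ y ≤ t + h then (1 : ℝ) else 0) with hB
  have hA0 : 0 ≤ A := Finset.sum_nonneg fun i _ => mul_nonneg (wz_nonneg i) (by split_ifs <;> norm_num)
  have hA1 : A ≤ C * Real.log T := by
    refine (Finset.sum_le_sum fun i _ => ?_).trans h1
    apply mul_le_mul_of_nonneg_left _ (wz_nonneg i)
    by_cases h2 : t < xz i ∧ xz i ≤ t + h
    · rw [if_pos h2, if_pos]
      rw [abs_le]; constructor <;> linarith [h2.1, h2.2]
    · rw [if_neg h2]; split_ifs <;> norm_num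
  have h2 : Real.log T / (2 * Real.pi) * B ≤ Real.log T := by
    have h3 : Real.log T / (2 * Real.pi) ≤ Real.log T := by
      rw [div_le_iff₀ (by positivity)]
      nlinarith [Real.pi_gt_three]
    calc Real.log T / (2 * Real.pi) * B ≤ Real.log T * 1 :=
          mul_le_mul h3 (by linarith) w2 hL
      _ = _ := mul_one _
  have h3 : 0 ≤ Real.log T / (2 * Real.pi) * B := by positivity
  rw [abs_le]
  constructor <;> nlinarith

/-- the counting function in a window -/
lemma cnt_diff {A B t h : ℝ} (hA : 1 ≤ A) (hAt : A ≤ t) (hh : 0 ≤ h) (hB : t + h ≤ B) :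
    cnt Fz mz (t + h) - cnt Fz mz t =
      ∑ i ∈ Zf riemannZeta A B, wz i * (if t < xz i ∧ xz i ≤ t + h then (1:ℝ) else 0) := by
  classical
  have hsub : Fz t ⊆ Fz (t + h) := by
    intro s hs
    rw [mem_Fz] at hs ⊢
    exact ⟨hs.1, hs.2.1, by linarith [hs.2.2]⟩
  unfold cnt
  rw [← Finset.sum_sdiff hsub, add_sub_cancel_right]
  have e : Fz (t + h) \ Fz t = (Zf riemannZeta A B).filter (fun s => t < xz s ∧ xz s ≤ t + h) := by
    ext s
    rw [Finset.mem_sdiff, Finset.mem_filter, mem_Fz, mem_Fz, mem_Zf good_zeta hA]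
    unfold Zz xz
    simp only [Set.mem_ofPred_eq]
    constructor
    · rintro ⟨⟨⟨h1, h2, h3⟩, h4, h5⟩, h6⟩
      have h7 : t < s.im := by
        by_contra hcon
        push Not at hcon
        exact h6 ⟨⟨h1, h2, h3⟩, h4, hcon⟩
      exact ⟨⟨h2, h3, by linarith, by linarith, h1⟩, h7, h5⟩
    · rintro ⟨⟨h2, h3, h4, h5, h1⟩, h6, h7⟩
      exact ⟨⟨⟨h1, h2, h3⟩, by linarith, h7⟩, fun h => by linarith [h.2.2]⟩
  rw [e, Finset.sum_filter]
  refine Finset.sum_congr rfl fun s _ => ?_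
  by_cases h1 : t < xz s ∧ xz s ≤ t + h
  · rw [if_pos h1, if_pos h1, mul_one]; rfl
  · rw [if_neg h1, if_neg h1, mul_zero]

/-- the window of the block is the count -/
lemma Fb_eq {U1 U2 L h t : ℝ} (hU : 1 ≤ U1) (h1 : U1 ≤ t) (hh : 0 ≤ h) (h2 : t + h ≤ U2) :
    Fb U1 U2 L h t = cnt Fz mz (t + h) - cnt Fz mz t - h / (2 * Real.pi) * L := by
  unfold Fb Ff
  rw [cnt_diff hU h1 hh h2, win_full h1 hh h2]
  ring

lemma Fb_zero {U1 U2 L h t : ℝ} (hU : 1 ≤ U1) (h12 : U1 ≤ U2) (hd : t + h ≤ U1 ∨ U2 ≤ t) :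
    Fb U1 U2 L h t = 0 := by
  unfold Fb Ff
  rw [win_zero h12 hd, mul_zero, sub_zero]
  refine Finset.sum_eq_zero fun i hi => ?_
  rw [mem_Zf good_zeta hU] at hi
  rw [if_neg, mul_zero]
  rintro ⟨h2, h3⟩
  unfold xz at h2 h3
  rcases hd with h4 | h4
  · linarith [hi.2.2.1]
  · linarith [hi.2.2.2.1]

lemma log_sq {T : ℝ} (hT : 1 ≤ T) : Real.log T ^ 2 ≤ 2 * T := by
  have h0 : 0 ≤ Real.log T := Real.log_nonneg hT
  have h := Real.pow_div_factorial_le_exp (Real.log T) h0 2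
  rw [Real.exp_log (by linarith)] at h
  norm_num [Nat.factorial] at h
  linarith

/-- THE VARIANCE -/
theorem variance (hR : S_R) (hID : S_ID) (hOUT : S_OUT) (hPP : S_PP) (hEN : S_EN) (hMT : S_MT)
    (hHI : S_HI) (hPB : S_PB) :
    ∃ C T0 : ℝ, 0 < C ∧ 10 ≤ T0 ∧ ∀ T : ℝ, T0 ≤ T → ∀ h : ℝ, 1 / Real.log T ≤ h → h ≤ 1 →
    |1 / T * (∫ t in T..(2 * T), (cnt Fz mz (t + h) - cnt Fz mz t - h / (2 * Real.pi) * Real.log T) ^ 2) -
      1 / Real.pi ^ 2 * Real.log (h * Real.log T)| ≤ C := by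
  obtain ⟨C, T0, hC, hT0, hmain⟩ := energy hR hID hOUT hPP hEN hMT hHI hPB
  obtain ⟨K, hK, hKb⟩ := Fb_bound
  refine ⟨C + 10 * K ^ 2, T0, by positivity, by linarith, fun T hT h hh1 hh2 => ?_⟩
  obtain ⟨U1, U2, hU1, hU1', hU2', hU2, hE⟩ := hmain T hT
  obtain ⟨hI1, hI2⟩ := hE h hh1 hh2
  have hT256 : 256 ≤ T := hT0.trans hT
  have hTpos : 0 < T := by linarith
  set L := Real.log T with hL
  have hL0 : 0 < L := Real.log_pos (by linarith)
  have hh0 : 0 < h := lt_of_lt_of_le (by positivity) hh1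
  have hL2 : L ^ 2 ≤ 2 * T := log_sq (by linarith)
  -- the second function
  have hI3 : Integrable (fun t => Fb T (4 * T) L h t ^ 2) :=
    ((hID ℂ (Zf riemannZeta T (4 * T)) wz xz (L / (2 * Real.pi)) T (4 * T) (by linarith)).2.2.2.2
      h hh0 hh2).2.1
  have e1 : ∫ t in T..(2 * T), (cnt Fz mz (t + h) - cnt Fz mz t - h / (2 * Real.pi) * L) ^ 2 =
      ∫ t, (Ioc T (2 * T)).indicator (fun t => Fb T (4 * T) L h t ^ 2) t := by
    rw [integral_indicator measurableSet_Ioc, intervalIntegral.integral_of_le (by linarith)]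
    refine setIntegral_congr_fun measurableSet_Ioc fun t ht => ?_
    rw [Fb_eq (by linarith) ht.1.le hh0.le (by linarith [ht.2])]
  set M : ℝ := (K * L) ^ 2 with hM
  have hM0 : 0 ≤ M := sq_nonneg _
  set g : ℝ → ℝ := fun t => (Icc (T - 1) (T + 1)).indicator (fun _ => M) t +
    (Icc (2 * T - 2) (2 * T + 1)).indicator (fun _ => M) t with hg
  have hg1 : Integrable ((Icc (T - 1) (T + 1)).indicator fun _ : ℝ => M) := by
    rw [integrable_indicator_iff measurableSet_Icc]
    exact integrableOn_const (by rw [Real.volume_Icc]; exact ENNReal.ofReal_ne_top)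
  have hg2 : Integrable ((Icc (2 * T - 2) (2 * T + 1)).indicator fun _ : ℝ => M) := by
    rw [integrable_indicator_iff measurableSet_Icc]
    exact integrableOn_const (by rw [Real.volume_Icc]; exact ENNReal.ofReal_ne_top)
  have hgI : ∫ t, g t = 5 * M := by
    rw [hg, integral_add hg1 hg2, integral_indicator_const _ measurableSet_Icc,
      integral_indicator_const _ measurableSet_Icc, Real.volume_real_Icc_of_le (by linarith),
      Real.volume_real_Icc_of_le (by linarith)]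
    simp only [smul_eq_mul]
    ring
  have hb1 : ∀ t, Fb U1 U2 L h t ^ 2 ≤ M := fun t => by
    rw [hM, ← sq_abs]
    exact pow_le_pow_left₀ (abs_nonneg _)
      (hKb T (by linarith) U1 U2 hU1 (by linarith) (by linarith) h t hh0.le hh2) 2
  have hb2 : ∀ t, Fb T (4 * T) L h t ^ 2 ≤ M := fun t => by
    rw [hM, ← sq_abs]
    exact pow_le_pow_left₀ (abs_nonneg _)
      (hKb T (by linarith) T (4 * T) le_rfl (by linarith) le_rfl h t hh0.le hh2) 2
  have hpt : ∀ t, |Fb U1 U2 L h t ^ 2 - (Ioc T (2 * T)).indicator (fun t => Fb T (4 * T) L h t ^ 2) t| ≤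
      g t := by
    intro t
    have hi0 : 0 ≤ (Ioc T (2 * T)).indicator (fun t => Fb T (4 * T) L h t ^ 2) t :=
      indicator_nonneg (fun t _ => sq_nonneg _) t
    have hi1 : (Ioc T (2 * T)).indicator (fun t => Fb T (4 * T) L h t ^ 2) t ≤ M := by
      by_cases ht : t ∈ Ioc T (2 * T)
      · rw [indicator_of_mem ht]; exact hb2 t
      · rw [indicator_of_notMem ht]; exact hM0
    have hga : 0 ≤ (Icc (T - 1) (T + 1)).indicator (fun _ : ℝ => M) t :=
      indicator_nonneg (fun _ _ => hM0) t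
    have hgb : 0 ≤ (Icc (2 * T - 2) (2 * T + 1)).indicator (fun _ : ℝ => M) t :=
      indicator_nonneg (fun _ _ => hM0) t
    have hbd : |Fb U1 U2 L h t ^ 2 - (Ioc T (2 * T)).indicator (fun t => Fb T (4 * T) L h t ^ 2) t| ≤ M := by
      rw [abs_le]
      constructor
      · linarith [sq_nonneg (Fb U1 U2 L h t)]
      · linarith [hb1 t]
    by_cases h1 : t ∈ Icc (T - 1) (T + 1)
    · rw [hg]
      simp only
      rw [indicator_of_mem h1]
      linarith
    by_cases h2 : t ∈ Icc (2 * T - 2) (2 * T + 1)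
    · rw [hg]
      simp only
      rw [indicator_of_mem h2]
      linarith
    have hz : Fb U1 U2 L h t ^ 2 - (Ioc T (2 * T)).indicator (fun t => Fb T (4 * T) L h t ^ 2) t = 0 := by
      rw [mem_Icc, not_and_or, not_le, not_le] at h1 h2
      rcases h1 with h1 | h1
      · rw [Fb_zero (by linarith) (by linarith) (Or.inl (by linarith)),
          indicator_of_notMem (fun h => by linarith [h.1])]
        ring
      · rcases h2 with h2 | h2
        · rw [indicator_of_mem (show t ∈ Ioc T (2 * T) from ⟨by linarith, by linarith⟩),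
            Fb_eq (by linarith) (by linarith) hh0.le (by linarith),
            Fb_eq (by linarith) (by linarith) hh0.le (by linarith)]
          ring
        · rw [Fb_zero (by linarith) (by linarith) (Or.inr (by linarith)),
            indicator_of_notMem (fun h => by linarith [h.2])]
          ring
    rw [hz, abs_zero, hg]
    simp only
    linarith
  have hdiff : |(∫ t, Fb U1 U2 L h t ^ 2) - ∫ t, (Ioc T (2 * T)).indicator
      (fun t => Fb T (4 * T) L h t ^ 2) t| ≤ 5 * M := by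
    rw [← integral_sub hI1 (hI3.indicator measurableSet_Ioc), ← hgI, ← Real.norm_eq_abs]
    exact norm_integral_le_of_norm_le (hg1.add hg2) (Eventually.of_forall fun t => hpt t)
  rw [e1]
  set J1 := ∫ t, Fb U1 U2 L h t ^ 2
  set J2 := ∫ t, (Ioc T (2 * T)).indicator (fun t => Fb T (4 * T) L h t ^ 2) t
  set lg := Real.log (h * L)
  have hMT : 5 * M ≤ 10 * K ^ 2 * T := by
    rw [hM, mul_pow]
    nlinarith [sq_nonneg K]
  have h5 : |J2 - T / Real.pi ^ 2 * lg| ≤ (C + 10 * K ^ 2) * T := by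
    obtain ⟨a1, a2⟩ := abs_le.1 hI2
    obtain ⟨b1, b2⟩ := abs_le.1 hdiff
    rw [abs_le]
    constructor <;> nlinarith
  have e2 : 1 / T * J2 - 1 / Real.pi ^ 2 * lg = 1 / T * (J2 - T / Real.pi ^ 2 * lg) := by
    field_simp
  rw [e2, abs_mul, abs_of_pos (by positivity : 0 < 1 / T)]
  calc 1 / T * |_| ≤ 1 / T * ((C + 10 * K ^ 2) * T) := by gcongr
    _ = C + 10 * K ^ 2 := by field_simp

end

end Pool.Agent.U398.MV
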