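import Pool.Agent.U398.MV.Cmp
import Pool.Agent.U398.MV.Stm2

set_option autoImplicit false

/-! # Project MV2: the covariance of the local functional of the zeros -/

namespace Pool.Agent.U398.MV

open MeasureTheory Filter Topology Set Complex
open H370 (Zf mult mem_Zf good_zeta zset NN NN_eq)

noncomputable section

/-- the local functional of the zeros of the block -/
def Lz (U1 U2 L t : ℝ) : ℝ := Lf (Zf riemannZeta U1 U2) wz xz (L / (2 * Real.pi)) U1 U2 gg t

lemma Cor_zero (V : ℝ → ℝ → ℂ) (u : ℝ) : Cor V 0 u = ∫ t : ℝ, ‖V u t‖ ^ 2 := by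
  unfold Cor
  have h1 : ∀ t : ℝ, V u t * (starRingEnd ℂ) (V u (t + 0)) = ((‖V u t‖ ^ 2 : ℝ) : ℂ) := by
    intro t
    rw [add_zero, Complex.mul_conj, Complex.normSq_eq_norm_sq]
  simp_rw [h1]
  rw [integral_complex_ofReal, Complex.ofReal_zero, mul_zero, Complex.exp_zero, one_mul, Complex.ofReal_re]

/-- THE COVARIANCE OF THE LOCAL FUNCTIONAL -/
theorem covA (hRQ : S_RQ) (hIDS : S_IDS) (hID : S_ID) (hOUT : S_OUT) (hPP : S_PP) (hPPS : S_PPS)
    (hENS : S_ENS) (hMTS : S_MTS) (hHI : S_HI) (hPB : S_PB) :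
    ∃ C T0 : ℝ, 0 < C ∧ 256 ≤ T0 ∧ ∀ T : ℝ, T0 ≤ T →
    ∃ U1 U2 : ℝ, T ≤ U1 ∧ U1 ≤ T + 1 ∧ 2 * T - 1 ≤ U2 ∧ U2 ≤ 2 * T ∧
      Integrable (fun t => Lz U1 U2 (Real.log T) t ^ 2) ∧
      ∀ s : ℝ, 0 ≤ s → s ≤ T / Real.log T →
        |(∫ t : ℝ, Lz U1 U2 (Real.log T) t * Lz U1 U2 (Real.log T) (t + s)) -
          T * (1 / (2 * Real.pi ^ 2) *
            Real.log ‖riemannZeta (((1 + 1 / Real.log T : ℝ) : ℂ) + s * I)‖)| ≤ C * T := by
  obtain ⟨CR, hCR, hrc, hri, hre, hrb, hrd, -, -⟩ := hRQ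
  obtain ⟨CO, hCO, hOUT⟩ := hOUT
  obtain ⟨CP, TP, hCP, hTP, hVc, hPc, hV0, hVb, hPP⟩ := hPP
  obtain ⟨CQ, TQ, hCQ, hTQ, hVsc, hVsb, hPPS⟩ := hPPS
  obtain ⟨CM, hCM, hMT⟩ := hMTS
  obtain ⟨CH, hCH, hHI⟩ := hHI
  obtain ⟨CB, TB, hCB, hTB, hpair⟩ := pairb hPB
  obtain ⟨CI, TI, hCI, hTI, hin⟩ := inner
  obtain ⟨CD, TD, hCD, hTD, hband⟩ := band
  obtain ⟨CL, hCL, hloc⟩ := loc_count
  have hCR0 : 0 < CR := by linarith
  set C1 : ℝ := 1 + 6 * (CO * CL ^ 2) + CI + CP + CD + CQ with hC1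
  have h6 : 0 ≤ 6 * (CO * CL ^ 2) := by positivity
  have hC11 : 1 ≤ C1 := by rw [hC1]; linarith
  obtain ⟨CE, hCE, hEN⟩ := hENS C1 hC11
  refine ⟨2 * (CR * CE + CM + CR * (CH * CB)), max (max (max TP TB) (max TI TD)) (max 256 TQ),
    by positivity, (le_max_left _ _).trans (le_max_right _ _), fun T hT => ?_⟩
  have hT256 : 256 ≤ T := ((le_max_left _ _).trans (le_max_right _ _)).trans hT
  have hTTQ : TQ ≤ T := ((le_max_right _ _).trans (le_max_right _ _)).trans hT
  have hT1 : max (max TP TB) (max TI TD) ≤ T := (le_max_left _ _).trans hT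
  have hTTP : TP ≤ T := ((le_max_left _ _).trans (le_max_left _ _)).trans hT1
  have hTTB : TB ≤ T := ((le_max_right _ _).trans (le_max_left _ _)).trans hT1
  have hTTI : TI ≤ T := ((le_max_left _ _).trans (le_max_right _ _)).trans hT1
  have hTTD : TD ≤ T := ((le_max_right _ _).trans (le_max_right _ _)).trans hT1
  have hT10 : 10 ≤ T := by linarith
  have hTpos : 0 < T := by linarith
  obtain ⟨U1, U2, hU1, hU1', hU2', hU2, hmain⟩ := hin T hTTI
  set L := Real.log T with hL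
  have hL4 : 4 ≤ L := by
    rw [hL, Real.le_log_iff_exp_le hTpos]
    have : Real.exp 4 ≤ 256 := by
      have h1 : Real.exp 4 = Real.exp 1 ^ 4 := by rw [← Real.exp_nat_mul]; norm_num
      rw [h1]
      have h2 := Real.exp_one_lt_d9
      have h3 : Real.exp 1 ^ 4 ≤ 3 ^ 4 := by gcongr; linarith
      linarith
    linarith
  have hL0 : 0 < L := by linarith
  have h8L : 8 * L ≤ T := log_small hT256
  have hL3 : L ^ 3 ≤ 6 * T := log_cube (by linarith)
  have hpi := Real.pi_pos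
  have hpi3 := Real.pi_gt_three
  have hab : U1 ≤ U2 := by linarith
  set lam : ℝ := L / (2 * Real.pi) with hlam
  have hlam0 : 0 ≤ lam := by positivity
  have hlamL : lam ≤ L := by
    rw [hlam, div_le_iff₀ (by positivity)]
    nlinarith
  obtain ⟨hVi, hEc, hEe, hVcont, -⟩ := hID ℂ (Zf riemannZeta U1 U2) wz xz lam U1 U2 hab
  obtain ⟨hI2, hIs⟩ := hIDS ℂ (Zf riemannZeta U1 U2) wz xz lam U1 U2 hab
  refine ⟨U1, U2, hU1, hU1', hU2', hU2, hI2, fun s hs0 hsT => ?_⟩
  obtain ⟨hCe, hCb, hCc, hI1, hI3⟩ := hIs s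
  have hVV : ∀ u t : ℝ, Vf (Zf riemannZeta U1 U2) wz xz lam U1 U2 u t = Vz U1 U2 L u t := fun u t => rfl
  have hVV' : Vf (Zf riemannZeta U1 U2) wz xz lam U1 U2 = Vz U1 U2 L := rfl
  simp_rw [hVV] at hVi hEc hEe hVcont hCb
  rw [hVV'] at hCc hI1 hI3
  simp_rw [hVV'] at hCe hCb
  set E : ℝ → ℝ := fun u => Cor (Vz U1 U2 L) s u with hE
  set E0 : ℝ → ℝ := fun u => ∫ t : ℝ, ‖Vz U1 U2 L u t‖ ^ 2 with hE0d
  have hE0 : ∀ u, 0 ≤ E0 u := fun u => integral_nonneg fun t => by positivity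
  -- the scaled kernel
  set r : ℝ → ℝ := fun u => qq u / CR with hr
  have hrr : ∀ u, qq u = CR * r u := fun u => by rw [hr]; simp only; field_simp
  have hrcont : Continuous r := hrc.div_const _
  have hr1 : ∀ u, |r u| ≤ 1 := by
    intro u
    rw [hr]
    simp only
    rw [abs_div, abs_of_pos hCR0, div_le_one hCR0]
    exact hrb u
  have hr2 : ∀ u, |r u| * u ^ 2 ≤ 1 := by
    intro u
    rw [hr]
    simp only
    rw [abs_div, abs_of_pos hCR0, div_mul_eq_mul_div, div_le_one hCR0]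
    exact hrd u
  -- the local counts
  have hcount : ∀ y : ℝ, ∑ i ∈ Zf riemannZeta U1 U2, wz i * (if |xz i - y| ≤ 1 then 1 else 0) ≤
      CL * L := fun y => hloc T hT10 U1 U2 hU1 hU2 y
  have hmem : ∀ i ∈ Zf riemannZeta U1 U2, 0 ≤ wz i ∧ U1 ≤ xz i ∧ xz i ≤ U2 := by
    intro i hi
    rw [mem_Zf good_zeta (by linarith)] at hi
    obtain ⟨g1, g2, g3, g4, g5⟩ := hi
    exact ⟨wz_nonneg i, g3.le, g4⟩
  -- package ENS
  have hen := hEN T L s hL4 h8L hs0 hsT (Vz U1 U2 L) Pf (Dz U1 U2 L) Vp (Vps s) r hVcont hPc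
    (Dz_cont U1 U2 L) hVc (hVsc s) hrcont hr1 hr2 hVi hEc hCc
    (by
      intro u hu0 huL
      have h1 := hOUT ℂ (Zf riemannZeta U1 U2) wz xz lam U1 U2 T L CL (by linarith) (by linarith)
        hU1 hU1' hU2' hU2 hlam0 hlamL hCL hmem hcount u
      simp_rw [hVV] at h1
      refine h1.trans ?_
      calc CO * CL ^ 2 * L ^ 3 ≤ CO * CL ^ 2 * (6 * T) := by gcongr
        _ = (6 * (CO * CL ^ 2)) * T := by ring
        _ ≤ C1 * T := by
          apply mul_le_mul_of_nonneg_right _ hTpos.le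
          rw [hC1]; linarith)
    (by
      intro u hu0 huL t ht
      refine (hmain u t hu0 huL ht.1 ht.2).trans ?_
      apply mul_le_mul_of_nonneg_right
      · rw [hC1]; linarith
      · have := Real.exp_pos (-u)
        positivity)
    (by
      intro u hu0 huL
      refine ⟨hV0 u, (hVb u hu0).trans ?_⟩
      apply mul_le_mul_of_nonneg_right
      · rw [hC1]; linarith
      · linarith)
    (by
      intro u hu0 huL
      refine (hPP T hTTP u hu0 huL).trans ?_
      apply mul_le_mul_of_nonneg_right _ hTpos.le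
      rw [hC1]; linarith)
    (by
      intro u hu0 huL
      refine (hPPS T hTTQ u hu0 huL s hs0 hsT).trans ?_
      apply mul_le_mul_of_nonneg_right _ hTpos.le
      rw [hC1]; linarith)
    (by
      intro U hUa hUb
      refine (hband T hTTD U1 U2 hU1 hU2 U hUa hUb).trans ?_
      have h1 : CD ≤ C1 := by rw [hC1]; linarith
      gcongr)
  -- package HI
  have hhi := hHI ℂ (Zf riemannZeta U1 U2) wz xz lam U1 U2 T L CB hL4 h8L hU1 hU1' hU2' hU2
    hlam0 hlamL hCB (fun i _ => wz_nonneg i) (hpair T hTTB U1 U2 hU1 hU2) r hrcont hr2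
  simp_rw [hVV] at hhi
  -- package MTS
  have hmt := hMT L hL4 s hs0
  -- the whole integral
  have hsplit : ∫ u : ℝ, qq u * E u = 2 * ((∫ u in (0 : ℝ)..(L / 2), qq u * E u) +
      ∫ u in Ioi (L / 2), qq u * E u) := by
    have h1 : ∫ u : ℝ, qq u * E u = ∫ u : ℝ, (fun v => qq v * E v) |u| := by
      refine integral_congr_ae (Eventually.of_forall fun u => ?_)
      simp only
      rcases abs_choice u with h2 | h2
      · rw [h2]
      · rw [h2, hre u]
        congr 1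
        exact (hCe u).symm
    rw [h1, integral_comp_abs (f := fun v => qq v * E v)]
    congr 1
    exact (intervalIntegral.integral_interval_add_Ioi hI1.integrableOn hI1.integrableOn).symm
  have hA : (∫ u in (0 : ℝ)..(L / 2), qq u * E u) = CR * ∫ u in (0 : ℝ)..(L / 2), r u * E u := by
    rw [← intervalIntegral.integral_const_mul]
    refine intervalIntegral.integral_congr fun u _ => ?_
    rw [hrr u, mul_assoc]
  have hA2 : (∫ u in (0 : ℝ)..(L / 2), qq u * Vps s u) = CR * ∫ u in (0 : ℝ)..(L / 2), r u * Vps s u := by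
    rw [← intervalIntegral.integral_const_mul]
    refine intervalIntegral.integral_congr fun u _ => ?_
    rw [hrr u, mul_assoc]
  -- the energy is integrable against the kernel
  have hI0 : Integrable (fun u => qq u * E0 u) := by
    have h1 := (hIs 0).2.2.2.1
    rw [hVV'] at h1
    refine h1.congr (Eventually.of_forall fun u => ?_)
    simp only
    rw [Cor_zero]
  have hB : |∫ u in Ioi (L / 2), qq u * E u| ≤ CR * (CH * CB * T) := by
    have h1 : |∫ u in Ioi (L / 2), qq u * E u| ≤ ∫ u in Ioi (L / 2), CR * (|r u| * E0 u) := by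
      rw [← Real.norm_eq_abs]
      refine norm_integral_le_of_norm_le ?_ (Eventually.of_forall fun u => ?_)
      · refine (hI0.norm.integrableOn (s := Ioi (L / 2))).congr (Eventually.of_forall fun u => ?_)
        simp only
        rw [Real.norm_eq_abs, abs_mul, abs_of_nonneg (hE0 u), hrr u, abs_mul, abs_of_pos hCR0,
          mul_assoc]
      · rw [Real.norm_eq_abs, abs_mul, hrr u, abs_mul, abs_of_pos hCR0, mul_assoc]
        exact mul_le_mul_of_nonneg_left (mul_le_mul_of_nonneg_left (hCb u) (abs_nonneg _)) hCR0.le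
    refine h1.trans ?_
    rw [integral_const_mul]
    exact mul_le_mul_of_nonneg_left hhi hCR0.le
  -- conclusion
  have hFb : (∫ t : ℝ, Lz U1 U2 L t * Lz U1 U2 L (t + s)) =
      1 / Real.sqrt Real.pi * ∫ u : ℝ, qq u * E u := hI3
  rw [hFb, hsplit]
  set I1 := ∫ u in (0 : ℝ)..(L / 2), qq u * E u with hI1d
  set I2 := ∫ u in Ioi (L / 2), qq u * E u with hI2d
  set I3 := ∫ u in (0 : ℝ)..(L / 2), qq u * Vps s u with hI3d
  have hen' : |I1 - T / (2 * Real.pi) * I3| ≤ CR * CE * T := by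
    rw [hA, hA2]
    have e : CR * (∫ u in (0 : ℝ)..(L / 2), r u * E u) - T / (2 * Real.pi) *
        (CR * ∫ u in (0 : ℝ)..(L / 2), r u * Vps s u) = CR * ((∫ u in (0 : ℝ)..(L / 2), r u * E u) -
        T / (2 * Real.pi) * ∫ u in (0 : ℝ)..(L / 2), r u * Vps s u) := by ring
    rw [e, abs_mul, abs_of_pos hCR0, mul_assoc]
    exact mul_le_mul_of_nonneg_left hen hCR0.le
  have hs1 : 1 ≤ Real.sqrt Real.pi := by
    apply Real.le_sqrt_of_sq_le; linarith
  have hs0' : 0 < Real.sqrt Real.pi := by linarith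
  have hss : Real.sqrt Real.pi ^ 2 = Real.pi := Real.sq_sqrt hpi.le
  set lg := Real.log ‖riemannZeta (((1 + 1 / L : ℝ) : ℂ) + s * I)‖ with hlg
  have e1 : 1 / Real.sqrt Real.pi * (2 * (I1 + I2)) - T * (1 / (2 * Real.pi ^ 2) * lg) =
      2 / Real.sqrt Real.pi * ((I1 - T / (2 * Real.pi) * I3) +
        T / (2 * Real.pi) * (I3 - 1 / (2 * Real.sqrt Real.pi) * lg) + I2) := by
    have e2 : T * (1 / (2 * Real.pi ^ 2) * lg) = 2 / Real.sqrt Real.pi * (T / (2 * Real.pi) *
        (1 / (2 * Real.sqrt Real.pi) * lg)) := by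
      have e3 : ∀ q : ℝ, 0 < q → q ^ 2 = Real.pi → T * (1 / (2 * Real.pi ^ 2) * lg) =
          2 / q * (T / (2 * Real.pi) * (1 / (2 * q) * lg)) := by
        intro q hq hq2
        have : 2 / q * (T / (2 * Real.pi) * (1 / (2 * q) * lg)) = T / (2 * (q ^ 2 * Real.pi)) * lg := by
          field_simp
        rw [this, hq2]
        ring
      exact e3 _ hs0' hss
    rw [e2]
    ring
  rw [e1, abs_mul, abs_of_pos (by positivity : 0 < 2 / Real.sqrt Real.pi)]
  have h2s : 2 / Real.sqrt Real.pi ≤ 2 := by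
    rw [div_le_iff₀ hs0']; linarith
  have hTpi : T / (2 * Real.pi) ≤ T := by
    rw [div_le_iff₀ (by positivity)]; nlinarith
  have hsum : |(I1 - T / (2 * Real.pi) * I3) +
        T / (2 * Real.pi) * (I3 - 1 / (2 * Real.sqrt Real.pi) * lg) + I2| ≤
      CR * CE * T + T * CM + CR * (CH * CB * T) := by
    refine (abs_add_le _ _).trans (add_le_add ((abs_add_le _ _).trans (add_le_add hen' ?_)) hB)
    rw [abs_mul, abs_of_nonneg (by positivity)]
    exact mul_le_mul hTpi hmt (abs_nonneg _) hTpos.le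
  calc 2 / Real.sqrt Real.pi * |_| ≤ 2 * (CR * CE * T + T * CM + CR * (CH * CB * T)) :=
        mul_le_mul h2s hsum (abs_nonneg _) (by norm_num)
    _ = 2 * (CR * CE + CM + CR * (CH * CB)) * T := by ring

end

end Pool.Agent.U398.MV
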