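import Pool.Agent.U398.MV.CovA

set_option autoImplicit false

/-! # Project MV2: from the local functional to `S(t)` -/

namespace Pool.Agent.U398.MV

open MeasureTheory Filter Topology Set Complex
open H370 (Zf mult mem_Zf good_zeta zset NN NN_eq)

noncomputable section

lemma gg_abs (x : ℝ) : |gg x| ≤ 1 / 2 := by
  unfold gg
  split_ifs with h
  · have h1 : 0 ≤ max 0 (1 - x) := le_max_left _ _
    have h2 : max 0 (1 - x) ≤ 1 := max_le (by norm_num) (by linarith)
    rw [abs_of_nonneg (by positivity)]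
    nlinarith
  · push Not at h
    have h1 : 0 ≤ max 0 (1 + x) := le_max_left _ _
    have h2 : max 0 (1 + x) ≤ 1 := max_le (by norm_num) (by linarith)
    rw [abs_mul, abs_neg, abs_of_nonneg (by positivity : (0:ℝ) ≤ 1 / 2), abs_of_nonneg (by positivity)]
    nlinarith

lemma gg_zero {x : ℝ} (h : 1 ≤ |x|) : gg x = 0 := by
  unfold gg
  split_ifs with h0
  · rw [abs_of_nonneg h0] at h
    rw [max_eq_left (by linarith)]; ring
  · push Not at h0
    rw [abs_of_neg h0] at h
    rw [max_eq_left (by linarith)]; ring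

lemma gg_meas : Measurable gg := by
  unfold gg
  refine Measurable.ite measurableSet_Ici ?_ ?_
  · fun_prop
  · fun_prop

lemma gg_int : Integrable gg := by
  refine ((integrable_indicator_iff (s := Icc (-1 : ℝ) 1) (f := fun _ => (1 / 2 : ℝ)) measurableSet_Icc).2
    (integrableOn_const (by rw [Real.volume_Icc]; exact ENNReal.ofReal_ne_top))).mono'
    gg_meas.aestronglyMeasurable (Eventually.of_forall fun x => ?_)
  rw [Real.norm_eq_abs]
  by_cases hx : x ∈ Icc (-1 : ℝ) 1
  · rw [indicator_of_mem hx]; exact gg_abs x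
  · rw [indicator_of_notMem hx, gg_zero, abs_zero]
    rw [mem_Icc, not_and_or, not_le, not_le] at hx
    rcases hx with hx | hx
    · rw [abs_of_neg (by linarith)]; linarith
    · rw [abs_of_pos (by linarith)]; exact hx.le

lemma gg_odd {x : ℝ} (hx : x ≠ 0) : gg (-x) = -gg x := by
  unfold gg
  rcases lt_or_gt_of_ne hx with h | h
  · rw [if_pos (by linarith), if_neg (by linarith)]
    rw [sub_neg_eq_add]; ring
  · rw [if_neg (by linarith), if_pos (by linarith)]
    rw [← sub_eq_add_neg]; ring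

lemma gg_ii (a b : ℝ) : IntervalIntegrable gg volume a b := gg_int.intervalIntegrable

lemma gg_mass {c d : ℝ} (hc : c ≤ -1) (hd : 1 ≤ d) : ∫ x in c..d, gg x = 0 := by
  have h1 : ∫ x in (-1 : ℝ)..1, gg x = 0 := by
    have e1 : ∫ x in (-1 : ℝ)..1, gg (-x) = ∫ x in (-1 : ℝ)..1, gg x := by
      rw [intervalIntegral.integral_comp_neg (fun x => gg x)]; norm_num
    have e2 : ∫ x in (-1 : ℝ)..1, gg (-x) = ∫ x in (-1 : ℝ)..1, -gg x := by
      refine intervalIntegral.integral_congr_ae ?_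
      have h0 : ∀ᵐ x : ℝ, x ≠ 0 := by
        rw [ae_iff]; simp
      filter_upwards [h0] with x hx _
      exact gg_odd hx
    rw [intervalIntegral.integral_neg] at e2
    linarith
  have h2 : ∫ x in c..(-1 : ℝ), gg x = 0 := by
    rw [intervalIntegral.integral_congr (g := fun _ => (0 : ℝ)), intervalIntegral.integral_zero]
    intro x hx
    rw [uIcc_of_le hc] at hx
    exact gg_zero (by rw [abs_of_nonpos (by linarith [hx.2])]; linarith [hx.2])
  have h3 : ∫ x in (1 : ℝ)..d, gg x = 0 := by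
    rw [intervalIntegral.integral_congr (g := fun _ => (0 : ℝ)), intervalIntegral.integral_zero]
    intro x hx
    rw [uIcc_of_le hd] at hx
    exact gg_zero (by rw [abs_of_nonneg (by linarith [hx.1])]; exact hx.1)
  rw [← intervalIntegral.integral_add_adjacent_intervals (gg_ii c (-1)) (gg_ii (-1) d),
    ← intervalIntegral.integral_add_adjacent_intervals (gg_ii (-1) 1) (gg_ii 1 d), h1, h2, h3]
  ring

lemma gg_sub (a b t : ℝ) : ∫ y in a..b, gg (t - y) = ∫ v in (t - b)..(t - a), gg v := by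
  rw [intervalIntegral.integral_comp_sub_left (fun v => gg v)]

lemma gg_prim_cont : Continuous fun x : ℝ => ∫ v in (0 : ℝ)..x, gg v :=
  intervalIntegral.continuous_primitive (fun a b => gg_ii a b) 0

lemma Lz_meas (U1 U2 L : ℝ) : Measurable (Lz U1 U2 L) := by
  unfold Lz Lf
  refine Measurable.sub ?_ ?_
  · refine Finset.measurable_fun_sum _ fun i _ => ?_
    exact measurable_const.mul (gg_meas.comp (measurable_id.sub_const _))
  · refine measurable_const.mul ?_
    have h1 : (fun t : ℝ => ∫ y in U1..U2, gg (t - y)) =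
        fun t : ℝ => (∫ v in (0 : ℝ)..(t - U1), gg v) - ∫ v in (0 : ℝ)..(t - U2), gg v := by
      funext t
      rw [gg_sub, intervalIntegral.integral_interval_sub_left (gg_ii _ _) (gg_ii _ _)]
    rw [h1]
    have c1 := gg_prim_cont.comp (continuous_id.sub (continuous_const (y := U1)))
    have c2 := gg_prim_cont.comp (continuous_id.sub (continuous_const (y := U2)))
    exact (c1.sub c2).measurable

lemma gg_int_abs (a b t : ℝ) (hab : a ≤ b) : |∫ y in a..b, gg (t - y)| ≤ 1 := by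
  have h1 : |∫ y in a..b, gg (t - y)| ≤ ∫ y in a..b, |gg (t - y)| :=
    intervalIntegral.abs_integral_le_integral_abs hab
  refine h1.trans ?_
  rw [intervalIntegral.integral_comp_sub_left (fun v => |gg v|),
    intervalIntegral.integral_of_le (by linarith)]
  have h2 : ∫ v in Ioc (t - b) (t - a), |gg v| ≤ ∫ v, |gg v| :=
    setIntegral_le_integral gg_int.norm (Eventually.of_forall fun v => abs_nonneg _)
  refine h2.trans ?_
  have h3 : ∫ v, |gg v| ≤ ∫ v, (Icc (-1 : ℝ) 1).indicator (fun _ => (1 / 2 : ℝ)) v := by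
    apply integral_mono gg_int.norm ((integrable_indicator_iff measurableSet_Icc).2
      (integrableOn_const (by rw [Real.volume_Icc]; exact ENNReal.ofReal_ne_top)))
    intro x
    by_cases hx : x ∈ Icc (-1 : ℝ) 1
    · rw [indicator_of_mem hx]; exact gg_abs x
    · show ‖gg x‖ ≤ _
      rw [indicator_of_notMem hx, gg_zero, norm_zero]
      rw [mem_Icc, not_and_or, not_le, not_le] at hx
      rcases hx with hx | hx
      · rw [abs_of_neg (by linarith)]; linarith
      · rw [abs_of_pos (by linarith)]; exact hx.le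
  refine h3.trans ?_
  rw [integral_indicator_const _ measurableSet_Icc, Real.volume_real_Icc_of_le (by norm_num)]
  norm_num

lemma Lz_bound : ∃ C : ℝ, 1 ≤ C ∧ ∀ T : ℝ, 10 ≤ T → ∀ U1 U2 : ℝ, T ≤ U1 → U1 ≤ U2 → U2 ≤ 2 * T →
    ∀ t : ℝ, |Lz U1 U2 (Real.log T) t| ≤ C * Real.log T := by
  obtain ⟨C, hC, hl⟩ := loc_count
  refine ⟨C + 1, by linarith, fun T hT U1 U2 hU1 h12 hU2 t => ?_⟩
  have hL : 0 ≤ Real.log T := Real.log_nonneg (by linarith)
  have h1 := hl T hT U1 U2 hU1 hU2 t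
  unfold Lz Lf
  refine (abs_sub _ _).trans ?_
  have h2 : |∑ i ∈ Zf riemannZeta U1 U2, wz i * gg (t - xz i)| ≤ C * Real.log T := by
    refine (Finset.abs_sum_le_sum_abs _ _).trans ((Finset.sum_le_sum fun i _ => ?_).trans h1)
    rw [abs_mul, abs_of_nonneg (wz_nonneg i)]
    apply mul_le_mul_of_nonneg_left _ (wz_nonneg i)
    by_cases h3 : |xz i - t| ≤ 1
    · rw [if_pos h3]
      have := gg_abs (t - xz i)
      linarith
    · rw [if_neg h3, gg_zero, abs_zero]
      rw [abs_sub_comm]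
      linarith [not_le.1 h3]
  have h3 : |Real.log T / (2 * Real.pi) * ∫ y in U1..U2, gg (t - y)| ≤ Real.log T := by
    rw [abs_mul, abs_of_nonneg (by positivity)]
    have h4 : Real.log T / (2 * Real.pi) ≤ Real.log T := by
      rw [div_le_iff₀ (by positivity)]
      nlinarith [Real.pi_gt_three]
    calc _ ≤ Real.log T * 1 := mul_le_mul h4 (gg_int_abs _ _ _ h12) (abs_nonneg _) hL
      _ = _ := mul_one _
  linarith

lemma Lz_zero {T U1 U2 L t : ℝ} (hT : 1 ≤ T) (hU1 : T ≤ U1) (h12 : U1 ≤ U2) (hU2 : U2 ≤ 2 * T)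
    (ht : t < T - 2 ∨ 2 * T + 2 < t) : Lz U1 U2 L t = 0 := by
  unfold Lz Lf
  have h1 : ∀ y : ℝ, U1 ≤ y → y ≤ U2 → gg (t - y) = 0 := by
    intro y h1 h2
    apply gg_zero
    rcases ht with h | h
    · rw [abs_of_neg (by linarith)]; linarith
    · rw [abs_of_pos (by linarith)]; linarith
  have h2 : ∑ i ∈ Zf riemannZeta U1 U2, wz i * gg (t - xz i) = 0 := by
    refine Finset.sum_eq_zero fun i hi => ?_
    rw [mem_Zf good_zeta (by linarith)] at hi
    obtain ⟨g1, g2, g3, g4, g5⟩ := hi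
    rw [h1 (xz i) g3.le g4, mul_zero]
  have h3 : ∫ y in U1..U2, gg (t - y) = 0 := by
    rw [intervalIntegral.integral_congr (g := fun _ => (0 : ℝ)), intervalIntegral.integral_zero]
    intro y hy
    rw [uIcc_of_le h12] at hy
    exact h1 y hy.1 hy.2
  rw [h2, h3]; ring

lemma Lz_eq {T U1 U2 L t : ℝ} (hT : 1 ≤ T) (hU1 : T ≤ U1) (hU1' : U1 ≤ T + 1) (hU2' : 2 * T - 1 ≤ U2)
    (h1 : T + 3 ≤ t) (h2 : t ≤ 2 * T - 3) : Lz U1 U2 L t =
      ∑ᶠ s ∈ {s : ℂ | riemannZeta s = 0 ∧ 0 < s.re ∧ s.re < 1 ∧ 0 < s.im},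
        (analyticOrderNatAt riemannZeta s : ℝ) * gg (t - s.im) := by
  unfold Lz Lf
  rw [gg_sub, gg_mass (by linarith) (by linarith), mul_zero, sub_zero]
  symm
  apply finsum_mem_eq_sum_of_inter_support_eq
  ext s
  simp only [mem_inter_iff, Set.mem_ofPred_eq, Finset.mem_coe, Function.mem_support]
  rw [mem_Zf good_zeta (by linarith)]
  constructor
  · rintro ⟨⟨g1, g2, g3, g4⟩, g5⟩
    have h3 : |t - s.im| < 1 := by
      by_contra hcon
      push Not at hcon
      exact g5 (by rw [gg_zero hcon, mul_zero])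
    obtain ⟨h4, h5⟩ := abs_lt.1 h3
    exact ⟨⟨g2, g3, by linarith, by linarith, g1⟩, g5⟩
  · rintro ⟨⟨g1, g2, g3, g4, g5⟩, g6⟩
    exact ⟨⟨g5, g1, g2, by linarith⟩, g6⟩

/-- crude bound near the pole -/
lemma zeta_pole : ∃ T0 : ℝ, 10 ≤ T0 ∧ ∀ T : ℝ, T0 ≤ T →
    Real.log ‖riemannZeta (((1 + 1 / Real.log T : ℝ) : ℂ) + (0 : ℝ) * I)‖ ≤ 2 * Real.log T := by
  have h := riemannZeta_residue_one
  have h1 : ∀ᶠ s in 𝓝[≠] (1 : ℂ), ‖(s - 1) * riemannZeta s‖ < 2 := by
    have h2 := h.norm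
    rw [norm_one] at h2
    exact h2.eventually (gt_mem_nhds (by norm_num))
  have h3 : Tendsto (fun T : ℝ => (((1 + 1 / Real.log T : ℝ) : ℂ) + (0 : ℝ) * I)) atTop (𝓝[≠] (1 : ℂ)) := by
    rw [tendsto_nhdsWithin_iff]
    constructor
    · have h4 : Tendsto (fun T : ℝ => (1 + 1 / Real.log T : ℝ)) atTop (𝓝 (1 + 0)) := by
        apply tendsto_const_nhds.add
        exact (tendsto_const_nhds (x := (1:ℝ))).div_atTop Real.tendsto_log_atTop
      rw [add_zero] at h4
      have h5 := (Complex.continuous_ofReal.tendsto 1).comp h4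
      rw [Complex.ofReal_one] at h5
      refine h5.congr fun T => ?_
      simp
    · filter_upwards [eventually_gt_atTop (10 : ℝ)] with T hT
      have hL : 0 < Real.log T := Real.log_pos (by linarith)
      rw [mem_compl_iff, mem_singleton_iff]
      intro he
      have h6 := congrArg Complex.re he
      have h7 : ((((1 + 1 / Real.log T : ℝ) : ℂ) + (0 : ℝ) * I)).re = 1 + 1 / Real.log T := by
        rw [Complex.add_re, Complex.ofReal_re, Complex.ofReal_zero, zero_mul, Complex.zero_re, add_zero]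
      rw [h7, Complex.one_re] at h6
      have h8 : 0 < 1 / Real.log T := by positivity
      linarith
  have h6 := h3.eventually h1
  obtain ⟨T0, hT0⟩ := eventually_atTop.1 h6
  refine ⟨max T0 10, le_max_right _ _, fun T hT => ?_⟩
  have h7 := hT0 T ((le_max_left _ _).trans hT)
  have hT10 : 10 ≤ T := (le_max_right _ _).trans hT
  have hL : 0 < Real.log T := Real.log_pos (by linarith)
  set z := riemannZeta (((1 + 1 / Real.log T : ℝ) : ℂ) + (0 : ℝ) * I) with hz
  have h8 : (((1 + 1 / Real.log T : ℝ) : ℂ) + (0 : ℝ) * I - 1) = ((1 / Real.log T : ℝ) : ℂ) := by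
    push_cast; ring
  rw [h8, norm_mul, Complex.norm_real, Real.norm_of_nonneg (by positivity)] at h7
  have h9 : ‖z‖ ≤ 2 * Real.log T := by
    have h10 : ‖z‖ = Real.log T * (1 / Real.log T * ‖z‖) := by field_simp
    rw [h10]
    nlinarith
  rcases eq_or_lt_of_le (norm_nonneg z) with h0 | h0
  · rw [← h0, Real.log_zero]; positivity
  · exact (Real.log_le_log h0 h9).trans ((Real.log_le_sub_one_of_pos (by positivity)).trans (by linarith))

/-- THE COVARIANCE OF `S(t)` -/
theorem cov (hRQ : S_RQ) (hIDS : S_IDS) (hID : S_ID) (hOUT : S_OUT) (hPP : S_PP) (hPPS : S_PPS)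
    (hENS : S_ENS) (hMTS : S_MTS) (hHI : S_HI) (hPB : S_PB) (hAB : S_AB) (hSB : S_SB) (hSC : S_SC) :
    ∃ C T0 : ℝ, 0 < C ∧ 10 ≤ T0 ∧ ∀ T : ℝ, T0 ≤ T → ∀ h : ℝ, 0 ≤ h → h ≤ T / (Real.log T) ^ 2 →
      |1 / T * (∫ t in T..(2 * T), pS t * pS (t + h)) - 1 / (2 * Real.pi ^ 2) *
        Real.log ‖riemannZeta (((1 + 1 / Real.log T : ℝ) : ℂ) + h * I)‖| ≤ C := by
  obtain ⟨CA, TA, hCA, hTA, hcovA⟩ := covA hRQ hIDS hID hOUT hPP hPPS hENS hMTS hHI hPB
  obtain ⟨K, hK, hKb⟩ := Lz_bound
  obtain ⟨hmeas, CS, TS, hCS, hTS, hSB⟩ := hSB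
  obtain ⟨CC, TC, hCC, hTC, hSC⟩ := hSC
  obtain ⟨TZ, hTZ, hZ⟩ := zeta_pole
  set C1 : ℝ := 1 + CA + K + CS + CC with hC1
  obtain ⟨C, T0, hC, hAB⟩ := hAB C1 (by rw [hC1]; linarith)
  refine ⟨C, max (max (max TA TS) (max TC TZ)) T0, hC, ?_, fun T hT h hh0 hhT => ?_⟩
  · exact hTS.trans (((le_max_right _ _).trans (le_max_left _ _)).trans (le_max_left _ _))
  have hT1 : max (max TA TS) (max TC TZ) ≤ T := (le_max_left _ _).trans hT
  have hTTA : TA ≤ T := ((le_max_left _ _).trans (le_max_left _ _)).trans hT1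
  have hTTS : TS ≤ T := ((le_max_right _ _).trans (le_max_left _ _)).trans hT1
  have hTTC : TC ≤ T := ((le_max_left _ _).trans (le_max_right _ _)).trans hT1
  have hTTZ : TZ ≤ T := ((le_max_right _ _).trans (le_max_right _ _)).trans hT1
  have hT256 : 256 ≤ T := hTA.trans hTTA
  have hTpos : 0 < T := by linarith
  obtain ⟨U1, U2, hU1, hU1', hU2', hU2, hI, hcv⟩ := hcovA T hTTA
  obtain ⟨hS4i, hS4, hSl⟩ := hSB T hTTS
  set L := Real.log T with hL
  have hL1 : 1 ≤ L := by
    rw [hL, Real.le_log_iff_exp_le hTpos]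
    linarith [Real.exp_one_lt_d9]
  have hL0 : 0 < L := by linarith
  have h0 := hcv 0 le_rfl (by positivity)
  have hTL : 0 ≤ T / L := by positivity
  have hhT' : h ≤ T / L := by
    refine hhT.trans ?_
    apply div_le_div_of_nonneg_left hTpos.le hL0
    nlinarith
  have hh := hcv h hh0 hhT'
  have hpi3 := Real.pi_gt_three
  have hA2 : (∫ t : ℝ, Lz U1 U2 L t ^ 2) ≤ C1 * (T * L) := by
    have e1 : ∀ t : ℝ, Lz U1 U2 L t ^ 2 = Lz U1 U2 L t * Lz U1 U2 L (t + 0) := by
      intro t; rw [add_zero, sq]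
    simp_rw [e1]
    have h1 := (abs_le.1 h0).2
    have h2 := hZ T hTTZ
    rw [← hL] at h2
    set lg := Real.log ‖riemannZeta (((1 + 1 / L : ℝ) : ℂ) + (0 : ℝ) * I)‖
    have h3 : 1 / (2 * Real.pi ^ 2) * lg ≤ L := by
      have h4 : 0 < 2 * Real.pi ^ 2 := by positivity
      rw [one_div, inv_mul_le_iff₀ h4]
      have h9 : 9 ≤ Real.pi ^ 2 := by nlinarith
      have h10 : 2 * 9 * L ≤ 2 * Real.pi ^ 2 * L := by
        apply mul_le_mul_of_nonneg_right _ hL0.le
        linarith
      have h11 : 2 * Real.log T = 2 * L := rfl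
      linarith
    have h4 : T * (1 / (2 * Real.pi ^ 2) * lg) ≤ T * L := mul_le_mul_of_nonneg_left h3 hTpos.le
    have h5 : CA * T ≤ CA * (T * L) := by
      apply mul_le_mul_of_nonneg_left _ hCA.le
      nlinarith
    have h6 : (1 + CA) * (T * L) ≤ C1 * (T * L) := by
      apply mul_le_mul_of_nonneg_right _ (by positivity)
      rw [hC1]; linarith
    nlinarith
  have hfin := hAB T ((le_max_right _ _).trans hT) h hh0 hhT pS (Lz U1 U2 L)
    (1 / (2 * Real.pi ^ 2) * Real.log ‖riemannZeta (((1 + 1 / L : ℝ) : ℂ) + h * I)‖)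
    hmeas hS4i
    (hS4.trans (by
      apply mul_le_mul_of_nonneg_right _ (by positivity)
      rw [hC1]; linarith))
    (hSl.trans (by
      apply mul_le_mul_of_nonneg_right _ (by positivity)
      rw [hC1]; linarith))
    (by
      filter_upwards [hSC T hTTC] with t ht h1 h2
      rw [Lz_eq (by linarith) hU1 hU1' hU2' h1 h2]
      refine (ht (by linarith) (by linarith)).trans ?_
      apply div_le_div_of_nonneg_right _ hTpos.le
      rw [hC1]; linarith)
    (Lz_meas U1 U2 L)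
    (fun t => (hKb T (by linarith) U1 U2 hU1 (by linarith) hU2 t).trans (by
      apply mul_le_mul_of_nonneg_right _ hL0.le
      rw [hC1]; linarith))
    (fun t ht => Lz_zero (by linarith) hU1 (by linarith) hU2 ht)
    hA2
    (hh.trans (by
      apply mul_le_mul_of_nonneg_right _ hTpos.le
      rw [hC1]; linarith))
  set lg := 1 / (2 * Real.pi ^ 2) * Real.log ‖riemannZeta (((1 + 1 / L : ℝ) : ℂ) + h * I)‖
  set J := ∫ t in T..(2 * T), pS t * pS (t + h)
  have e2 : 1 / T * J - lg = 1 / T * (J - T * lg) := by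
    field_simp
  rw [e2, abs_mul, abs_of_pos (by positivity : 0 < 1 / T)]
  calc 1 / T * |J - T * lg| ≤ 1 / T * (C * T) := by gcongr
    _ = C := by field_simp

end

end Pool.Agent.U398.MV
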