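import Pool.Agent.U398.MV.Stm3

set_option autoImplicit false

/-! # Project MV3: two more packages (PW, TR) -/

namespace Pool.Agent.U398.MV

open MeasureTheory Filter Topology Set Complex

noncomputable section

/-- package PW: the local transform of the derivative of the prime sum. PROOF.
`Pp X y = -(1/π) ∑ p^{-1/2} sin (y log p)`, `deriv (Pp X) y = -(1/(2π)) ∑ (log p / √p) (e^{iy log p} + e^{-iy log p})`. By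
`gauss_whole` (file `Pool.Agent.U398.MV.Inner`) the integral over `ℝ` is `-(1/√(2π)) ∑ (log p / √p) (e^{i(u - log p)t} e^{-(u - log p)²/2} +
e^{i(u + log p)t} e^{-(u + log p)²/2})`; the first half is `-(1/√(2π)) (Pf - Pq)`, the second half is `≤ C e^{-u²/2} ≤ C' e^{-u}`; the tails:
`gauss_tail` (same file), `≤ 4 e^{-(L-1)²/4}` each, times `∑ log p/√p ≤ X²`. -/
def S_PW : Prop := ∃ C T0 : ℝ, 0 < C ∧ 100 ≤ T0 ∧ ∀ T : ℝ, T0 ≤ T → ∀ X : ℕ,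
  (X : ℝ) ≤ T ^ (1 / 8 : ℝ) → ∀ a b : ℝ, T ≤ a → a ≤ T + 1 → 2 * T - 1 ≤ b → b ≤ 2 * T →
  ∀ u t : ℝ, 0 ≤ u → u ≤ Real.log T / 2 → t ∈ Icc (T + Real.log T) (2 * T - Real.log T) →
    ‖Wg (deriv (Pp X)) a b u t + ((1 / Real.sqrt (2 * Real.pi) : ℝ) : ℂ) * (Pf u t - Pq X u t)‖ ≤
      C * (Real.exp (-u) + 1 / Real.log T)

/-- package TR (from `S_SP`): powers of prime polynomials are in the class `Trig`. PROOF. `lam q = log q.1 - log q.2`,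
`K = C (1 + Vq)^k ≥ 1` with `C ≥ 1` the constant of `S_SP`. `X^{2k+1} ≤ T^{1/16}` if `(2k+1) δ ≤ 1/16`, so `|lam| ≤ L/8`; separation: coprime pairs
`q ≠ q'` have `q.1 q'.2 ≠ q'.1 q.2`, both `≤ T^{1/8}`, and `|log (x/y)| ≥ 1/max(x,y)` for distinct positive integers. For `Pp X` use `k = 0`, `α = 1` and
the factor `1/π`. -/
def S_TR : Prop := ∀ k : ℕ, ∃ δ₀ C : ℝ, 0 < δ₀ ∧ δ₀ ≤ 1 / 16 ∧ 1 ≤ C ∧ ∀ δ : ℝ, 0 < δ → δ ≤ δ₀ →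
  ∃ T0 : ℝ, ∀ T : ℝ, T0 ≤ T → ∀ α : ℕ → ℂ, (∀ p, ‖α p‖ ≤ 1) →
  (∃ (Λ : Finset (ℕ × ℕ)) (lam : ℕ × ℕ → ℝ) (g : ℕ × ℕ → ℂ),
    Trig T (C * (1 + Vq ⌊T ^ δ⌋₊ α) ^ k) Λ lam g (fun t => (Ap ⌊T ^ δ⌋₊ α t).im ^ (2 * k + 1))) ∧
  ∃ (Λ : Finset (ℕ × ℕ)) (lam : ℕ × ℕ → ℝ) (g : ℕ × ℕ → ℂ), Trig T C Λ lam g (Pp ⌊T ^ δ⌋₊)

end

end Pool.Agent.U398.MV
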