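import Pool.Agent.U398.MV.CovB
import Pool.Agent.U398.MV.Stm3b
import Pool.Agent.U256.MV.OUT

set_option autoImplicit false

/-! # Project MV3: the cross energy of the zeros against a trigonometric polynomial -/

namespace Pool.Agent.U398.MV

open MeasureTheory Filter Topology Set Complex
open H370 (Zf mult mem_Zf good_zeta zset NN NN_eq)

noncomputable section

lemma ev_log4 : ∃ T0 : ℝ, 256 ≤ T0 ∧ ∀ T : ℝ, T0 ≤ T → Real.log T ^ 4 ≤ T := by
  have h := (Real.isLittleO_pow_log_id_atTop (n := 4)).bound (by norm_num : (0 : ℝ) < 1)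
  obtain ⟨T0, hT0⟩ := eventually_atTop.1 h
  refine ⟨max T0 256, le_max_right _ _, fun T hT => ?_⟩
  have h1 := hT0 T ((le_max_left _ _).trans hT)
  have hT2 : 256 ≤ T := (le_max_right _ _).trans hT
  rw [one_mul, id, Real.norm_of_nonneg (by positivity), Real.norm_of_nonneg (by linarith)] at h1
  exact h1

lemma ev_floor {δ : ℝ} (hδ : 0 < δ) : ∃ T0 : ℝ, 256 ≤ T0 ∧ ∀ T : ℝ, T0 ≤ T →
    2 ≤ ⌊T ^ δ⌋₊ ∧ δ / 2 * Real.log T ≤ Real.log (⌊T ^ δ⌋₊ : ℝ) := by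
  have h := tendsto_rpow_atTop (half_pos hδ)
  obtain ⟨T0, hT0⟩ := eventually_atTop.1 (h.eventually_ge_atTop 2)
  refine ⟨max T0 256, le_max_right _ _, fun T hT => ?_⟩
  have h1 := hT0 T ((le_max_left _ _).trans hT)
  have hT2 : 256 ≤ T := (le_max_right _ _).trans hT
  have hTp : 0 < T := by linarith
  have h2 : T ^ δ = T ^ (δ / 2) * T ^ (δ / 2) := by
    rw [← Real.rpow_add hTp]; ring_nf
  have h3 : T ^ δ < ⌊T ^ δ⌋₊ + 1 := Nat.lt_floor_add_one _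
  have h4 : T ^ (δ / 2) ≤ (⌊T ^ δ⌋₊ : ℝ) := by nlinarith
  constructor
  · have h5 : (2 : ℝ) ≤ (⌊T ^ δ⌋₊ : ℝ) := h1.trans h4
    exact_mod_cast h5
  · rw [← Real.log_rpow hTp]
    exact Real.log_le_log (by positivity) h4

/-- the pointwise bound of the local transform -/
lemma Vz_bound : ∃ C : ℝ, 1 ≤ C ∧ ∀ T : ℝ, 256 ≤ T → ∀ U1 U2 : ℝ, T ≤ U1 → U1 ≤ U2 → U2 ≤ 2 * T →
    ∀ u t : ℝ, ‖Vz U1 U2 (Real.log T) u t‖ ≤ C * Real.log T := by
  obtain ⟨CL, hCL, hloc⟩ := loc_count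
  set K : ℝ := Real.exp (1 / 4) * Real.sqrt (Real.pi / (1 / 8)) / 2 +
      Real.sqrt (Real.pi / (1 / 4)) with hK
  have hK0 : 0 ≤ K := by positivity
  refine ⟨1 + K * CL, by nlinarith [mul_nonneg hK0 (by linarith : (0:ℝ) ≤ CL)], fun T hT U1 U2 hU1 h12 hU2 u t => ?_⟩
  have hTp : 0 < T := by linarith
  have hL1 : 1 ≤ Real.log T := by
    rw [Real.le_log_iff_exp_le hTp]
    linarith [Real.exp_one_lt_d9]
  have hpi3 := Real.pi_gt_three
  have hlam0 : 0 ≤ Real.log T / (2 * Real.pi) := by positivity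
  have hlamL : Real.log T / (2 * Real.pi) ≤ Real.log T := by
    rw [div_le_iff₀ (by positivity)]
    nlinarith
  have hmem : ∀ i ∈ Zf riemannZeta U1 U2, 0 ≤ wz i ∧ U1 ≤ xz i ∧ xz i ≤ U2 := by
    intro i hi
    rw [mem_Zf good_zeta (by linarith)] at hi
    obtain ⟨g1, g2, g3, g4, g5⟩ := hi
    exact ⟨wz_nonneg i, g3.le, g4⟩
  have h1 := Pool.Agent.U256.MV.OUT.point_bound (Zf riemannZeta U1 U2) wz xz (Real.log T / (2 * Real.pi)) U1 U2
    (Real.log T) CL h12 hL1 hlam0 hlamL hCL hmem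
    (fun y => hloc T (by linarith) U1 U2 hU1 hU2 y) u t 0 le_rfl (fun y _ => abs_nonneg _)
  have h2 : ‖Vz U1 U2 (Real.log T) u t‖ ≤ K * (CL * Real.log T) * Real.exp (-(1 / 4) * 0 ^ 2) := h1
  rw [show (-(1 / 4 : ℝ)) * 0 ^ 2 = 0 by norm_num, Real.exp_zero, mul_one] at h2
  nlinarith

end

end Pool.Agent.U398.MV
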