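import Pool.Agent.U398.MV.CrxA

set_option autoImplicit false

/-! # Project MV3: the local transform of `S - P` -/

namespace Pool.Agent.U398.MV

open MeasureTheory Filter Topology Set Complex
open H370 (Zf mult mem_Zf good_zeta zset NN NN_eq)

noncomputable section

lemma norm_sub_sq_le (x y : ℂ) : ‖x - y‖ ^ 2 ≤ 2 * ‖x‖ ^ 2 + 2 * ‖y‖ ^ 2 := by
  have h1 := norm_sub_le x y
  have h2 := norm_nonneg (x - y)
  nlinarith [sq_nonneg (‖x‖ - ‖y‖), norm_nonneg x, norm_nonneg y]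

/-- the local transform of the zeros minus the prime sum -/
def Wx (X : ℕ) (U1 U2 L u t : ℝ) : ℂ := Vz U1 U2 L u t - Wg (deriv (Pp X)) U1 U2 u t

lemma Wx_cont (X : ℕ) (U1 U2 L : ℝ) (hV : Continuous fun p : ℝ × ℝ => Vz U1 U2 L p.1 p.2)
    (hP : Continuous fun p : ℝ × ℝ => Wg (deriv (Pp X)) U1 U2 p.1 p.2) :
    Continuous fun p : ℝ × ℝ => Wx X U1 U2 L p.1 p.2 := by
  unfold Wx
  exact hV.sub hP

lemma Wx_sq (X : ℕ) (U1 U2 L u t : ℝ) : ‖Wx X U1 U2 L u t‖ ^ 2 ≤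
    2 * ‖Vz U1 U2 L u t‖ ^ 2 + 2 * ‖Wg (deriv (Pp X)) U1 U2 u t‖ ^ 2 := norm_sub_sq_le _ _

lemma Wx_def (X : ℕ) (U1 U2 L u t : ℝ) : Wx X U1 U2 L u t =
    Vz U1 U2 L u t - Wg (deriv (Pp X)) U1 U2 u t := rfl

attribute [irreducible] Wx

lemma Wx_int (X : ℕ) (U1 U2 L : ℝ) (hc : Continuous fun p : ℝ × ℝ => Wx X U1 U2 L p.1 p.2)
    (hV : ∀ u, Integrable fun t => ‖Vz U1 U2 L u t‖ ^ 2)
    (hP : ∀ u, Integrable fun t => ‖Wg (deriv (Pp X)) U1 U2 u t‖ ^ 2) (u : ℝ) :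
    Integrable fun t => ‖Wx X U1 U2 L u t‖ ^ 2 := by
  have hcu : Continuous fun t : ℝ => Wx X U1 U2 L u t := by
    have h1 : Continuous fun t : ℝ => ((u, t) : ℝ × ℝ) := by fun_prop
    have h2 := hc.comp h1
    simp only [Function.comp_def] at h2
    exact h2
  refine (((hV u).const_mul 2).add ((hP u).const_mul 2)).mono' (hcu.norm.pow 2).aestronglyMeasurable ?_
  refine Eventually.of_forall fun t => ?_
  rw [Real.norm_of_nonneg (by positivity)]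
  exact Wx_sq X U1 U2 L u t

lemma Wx_set (X : ℕ) (U1 U2 L : ℝ) (s : Set ℝ) (hc : Continuous fun p : ℝ × ℝ => Wx X U1 U2 L p.1 p.2)
    (hV : ∀ u, Integrable fun t => ‖Vz U1 U2 L u t‖ ^ 2)
    (hP : ∀ u, Integrable fun t => ‖Wg (deriv (Pp X)) U1 U2 u t‖ ^ 2) (u : ℝ) :
    ∫ t in s, ‖Wx X U1 U2 L u t‖ ^ 2 ≤ 2 * (∫ t in s, ‖Vz U1 U2 L u t‖ ^ 2) +
      2 * ∫ t in s, ‖Wg (deriv (Pp X)) U1 U2 u t‖ ^ 2 := by
  have h3 : ∫ t in s, ‖Wx X U1 U2 L u t‖ ^ 2 ≤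
      ∫ t in s, (2 * ‖Vz U1 U2 L u t‖ ^ 2 + 2 * ‖Wg (deriv (Pp X)) U1 U2 u t‖ ^ 2) :=
    integral_mono (Wx_int X U1 U2 L hc hV hP u).integrableOn
      (((hV u).const_mul 2).add ((hP u).const_mul 2)).integrableOn (fun t => Wx_sq X U1 U2 L u t)
  rwa [integral_add ((hV u).const_mul 2).integrableOn ((hP u).const_mul 2).integrableOn,
    integral_const_mul, integral_const_mul] at h3

/-- outside the interior -/
theorem Wx_out (hID : S_ID) (hOUT : S_OUT) (hVG : S_VG) (CP : ℝ) :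
    ∃ C T0 : ℝ, 1 ≤ C ∧ 256 ≤ T0 ∧ ∀ T : ℝ, T0 ≤ T → ∀ X : ℕ,
    (∃ (Λ : Finset (ℕ × ℕ)) (lam : ℕ × ℕ → ℝ) (g : ℕ × ℕ → ℂ), Trig T CP Λ lam g (Pp X)) →
    ∀ U1 U2 : ℝ, T ≤ U1 → U1 ≤ T + 1 → 2 * T - 1 ≤ U2 → U2 ≤ 2 * T →
    Continuous (deriv (Pp X)) ∧
    (Continuous fun p : ℝ × ℝ => Wx X U1 U2 (Real.log T) p.1 p.2) ∧
    (∀ u, Integrable fun t => ‖Wx X U1 U2 (Real.log T) u t‖ ^ 2) ∧
    (∀ u, 0 ≤ u → ∫ t in (Icc (T + Real.log T) (2 * T - Real.log T))ᶜ, ‖Wx X U1 U2 (Real.log T) u t‖ ^ 2 ≤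
      C * T) ∧
    (∀ u, 0 ≤ u → ∫ t in (T + Real.log T)..(2 * T - Real.log T), ‖Wx X U1 U2 (Real.log T) u t‖ ^ 2 ≤
      C * T * Real.log T ^ 4) := by
  obtain ⟨CO, hCO, hOUT⟩ := hOUT
  obtain ⟨CV, TV, hCV, hTV, hVG⟩ := hVG
  obtain ⟨CL, hCL, hloc⟩ := loc_count
  obtain ⟨CZ, hCZ, hVz⟩ := Vz_bound
  refine ⟨1 + 12 * (CO * CL ^ 2) + 2 * CV + 2 * CZ ^ 2 + 4 * (CV * CP ^ 2), max 256 TV, ?_, le_max_left _ _,
    fun T hT X hTrigP U1 U2 hU1 hU1' hU2' hU2 => ?_⟩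
  · have h6 : 0 ≤ CO * CL ^ 2 := by positivity
    have h7 : 0 ≤ CV * CP ^ 2 := by positivity
    nlinarith [sq_nonneg CZ]
  have hT256 : 256 ≤ T := (le_max_left _ _).trans hT
  have hTTV : TV ≤ T := (le_max_right _ _).trans hT
  have hT10 : 10 ≤ T := by linarith
  have hTpos : 0 < T := by linarith
  have hT1 : 1 ≤ T := by linarith
  have hL1 : 1 ≤ Real.log T := by
    rw [Real.le_log_iff_exp_le hTpos]
    linarith [Real.exp_one_lt_d9]
  have h8L : 8 * Real.log T ≤ T := log_small hT256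
  have hL3 : Real.log T ^ 3 ≤ 6 * T := log_cube (by linarith)
  have hpi3 := Real.pi_gt_three
  have hab : U1 ≤ U2 := by linarith
  have hThalf : T ^ (1 / 2 : ℝ) ≤ T := by
    calc T ^ (1 / 2 : ℝ) ≤ T ^ (1 : ℝ) := Real.rpow_le_rpow_of_exponent_le hT1 (by norm_num)
      _ = T := Real.rpow_one T
  have hlam0 : 0 ≤ Real.log T / (2 * Real.pi) := by positivity
  have hlamL : Real.log T / (2 * Real.pi) ≤ Real.log T := by
    rw [div_le_iff₀ (by positivity)]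
    nlinarith
  obtain ⟨hVi, -, -, hVcont, -⟩ := hID ℂ (Zf riemannZeta U1 U2) wz xz (Real.log T / (2 * Real.pi)) U1 U2 hab
  have hVi' : ∀ u, Integrable fun t => ‖Vz U1 U2 (Real.log T) u t‖ ^ 2 := hVi
  have hVc' : Continuous fun p : ℝ × ℝ => Vz U1 U2 (Real.log T) p.1 p.2 := hVcont
  obtain ⟨ΛP, lamP, gP, hP⟩ := hTrigP
  obtain ⟨hPd, -, hPc, hPi, hPa, hPb, hPo, -, -, -, -⟩ :=
    hVG T hTTV (ℕ × ℕ) CP ΛP lamP gP (Pp X) hP U1 U2 hU1 hU1' hU2' hU2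
  have hc := Wx_cont X U1 U2 (Real.log T) hVc' hPc
  have hmem : ∀ i ∈ Zf riemannZeta U1 U2, 0 ≤ wz i ∧ U1 ≤ xz i ∧ xz i ≤ U2 := by
    intro i hi
    rw [mem_Zf good_zeta (by linarith)] at hi
    obtain ⟨g1, g2, g3, g4, g5⟩ := hi
    exact ⟨wz_nonneg i, g3.le, g4⟩
  have h6 : 0 ≤ CO * CL ^ 2 := by positivity
  have h7 : 0 ≤ CV * CP ^ 2 := by positivity
  have h8 : 0 ≤ CZ ^ 2 := by positivity
  refine ⟨hPd.continuous_deriv (by norm_num), hc, Wx_int X U1 U2 _ hc hVi' hPi, fun u hu0 => ?_,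
    fun u hu0 => ?_⟩
  · have h1 := hOUT ℂ (Zf riemannZeta U1 U2) wz xz (Real.log T / (2 * Real.pi)) U1 U2 T (Real.log T) CL hL1
      (by linarith) hU1 hU1' hU2' hU2 hlam0 hlamL hCL hmem (fun y => hloc T hT10 U1 U2 hU1 hU2 y) u
    have h1' : ∫ t in (Icc (T + Real.log T) (2 * T - Real.log T))ᶜ, ‖Vz U1 U2 (Real.log T) u t‖ ^ 2 ≤
      CO * CL ^ 2 * Real.log T ^ 3 := h1
    have h2 := hPo u
    have h3 := Wx_set X U1 U2 (Real.log T) (Icc (T + Real.log T) (2 * T - Real.log T))ᶜ hc hVi' hPi u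
    have h4 : CO * CL ^ 2 * Real.log T ^ 3 ≤ CO * CL ^ 2 * (6 * T) := by gcongr
    have h5 : CV * T ^ (1 / 2 : ℝ) ≤ CV * T := mul_le_mul_of_nonneg_left hThalf hCV.le
    have h9 : 0 ≤ T * (1 + 2 * CZ ^ 2 + 4 * (CV * CP ^ 2)) := by positivity
    nlinarith
  · have hJle : T + Real.log T ≤ 2 * T - Real.log T := by linarith
    have h3 := Wx_set X U1 U2 (Real.log T) (Ioc (T + Real.log T) (2 * T - Real.log T)) hc hVi' hPi u
    rw [← intervalIntegral.integral_of_le hJle, ← intervalIntegral.integral_of_le hJle,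
      ← intervalIntegral.integral_of_le hJle] at h3
    have hL2 : Real.log T ^ 2 ≤ Real.log T ^ 4 := pow_le_pow_right₀ hL1 (by norm_num)
    have hL14 : Real.log T ≤ Real.log T ^ 4 := by
      calc Real.log T = Real.log T ^ 1 := (pow_one _).symm
        _ ≤ _ := pow_le_pow_right₀ hL1 (by norm_num)
    have hL04 : 1 ≤ Real.log T ^ 4 := one_le_pow₀ hL1
    have h10 : ∫ t in (T + Real.log T)..(2 * T - Real.log T), ‖Vz U1 U2 (Real.log T) u t‖ ^ 2 ≤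
        T * (CZ ^ 2 * Real.log T ^ 2) := by
      have h11 : ∫ t in (T + Real.log T)..(2 * T - Real.log T), ‖Vz U1 U2 (Real.log T) u t‖ ^ 2 ≤
          ∫ t in (T + Real.log T)..(2 * T - Real.log T), CZ ^ 2 * Real.log T ^ 2 := by
        refine intervalIntegral.integral_mono_on hJle (hVi' u).intervalIntegrable
          intervalIntegrable_const fun t _ => ?_
        have h12 := hVz T hT256 U1 U2 hU1 hab hU2 u t
        rw [← mul_pow]
        exact pow_le_pow_left₀ (norm_nonneg _) h12 2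
      refine h11.trans ?_
      rw [intervalIntegral.integral_const, smul_eq_mul]
      apply mul_le_mul_of_nonneg_right _ (by positivity)
      linarith
    have h13 : ∫ t in (T + Real.log T)..(2 * T - Real.log T), ‖Wg (deriv (Pp X)) U1 U2 u t‖ ^ 2 ≤
        (CV + 2 * (CV * CP ^ 2)) * (T * Real.log T ^ 4) := by
      have hTL : 1 ≤ T * Real.log T ^ 4 := by nlinarith
      by_cases h14 : u ≤ Real.log T / 2
      · have h15 := hPa u hu0 h14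
        have h16 : T * (1 + u) ≤ 2 * (T * Real.log T ^ 4) := by nlinarith
        calc _ ≤ CV * CP ^ 2 * T * (1 + u) := h15
          _ = (CV * CP ^ 2) * (T * (1 + u)) := by ring
          _ ≤ (CV * CP ^ 2) * (2 * (T * Real.log T ^ 4)) := mul_le_mul_of_nonneg_left h16 h7
          _ ≤ _ := by nlinarith [mul_nonneg hCV.le (by linarith : 0 ≤ T * Real.log T ^ 4)]
      · have h15 := hPb u (by linarith)
        calc _ ≤ CV := h15
          _ ≤ CV * (T * Real.log T ^ 4) := by nlinarith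
          _ ≤ _ := by nlinarith [mul_nonneg h7 (by linarith : 0 ≤ T * Real.log T ^ 4)]
    have h17 : T * (CZ ^ 2 * Real.log T ^ 2) ≤ CZ ^ 2 * (T * Real.log T ^ 4) := by
      calc T * (CZ ^ 2 * Real.log T ^ 2) ≤ T * (CZ ^ 2 * Real.log T ^ 4) := by gcongr
        _ = _ := by ring
    have h18 : 0 ≤ T * Real.log T ^ 4 := by positivity
    calc _ ≤ 2 * (CZ ^ 2 * (T * Real.log T ^ 4)) + 2 * ((CV + 2 * (CV * CP ^ 2)) * (T * Real.log T ^ 4)) := by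
          linarith
      _ = (2 * CZ ^ 2 + 2 * CV + 4 * (CV * CP ^ 2)) * (T * Real.log T ^ 4) := by ring
      _ ≤ (1 + 12 * (CO * CL ^ 2) + 2 * CV + 2 * CZ ^ 2 + 4 * (CV * CP ^ 2)) * (T * Real.log T ^ 4) := by
          apply mul_le_mul_of_nonneg_right _ h18
          linarith
      _ = _ := by ring

end

end Pool.Agent.U398.MV
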