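import Pool.Agent.U398.MV.CrxB

set_option autoImplicit false

/-! # Project MV3: the cross energy of the zeros against a trigonometric polynomial -/

namespace Pool.Agent.U398.MV

open MeasureTheory Filter Topology Set Complex
open H370 (Zf mult mem_Zf good_zeta zset NN NN_eq)

noncomputable section

/-- the cross term of the Plancherel formula -/
def Ex (X : ℕ) (G : ℝ → ℝ) (U1 U2 L u : ℝ) : ℝ :=
  (∫ t : ℝ, Wx X U1 U2 L u t * (starRingEnd ℂ) (Wg (deriv G) U1 U2 u t)).re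

lemma idb_use (hIDB : S_IDB) (X : ℕ) (G : ℝ → ℝ) (U1 U2 L : ℝ) (h12 : U1 ≤ U2)
    (hP : Continuous (deriv (Pp X))) (hG : Continuous (deriv G)) :
    (∀ u : ℝ, Ex X G U1 U2 L (-u) = Ex X G U1 U2 L u) ∧
    Integrable (fun u : ℝ => qq u * Ex X G U1 U2 L u) ∧
    (∫ t : ℝ, (Lz U1 U2 L t - ∫ y in U1..U2, deriv (Pp X) y * gg (t - y)) *
      (∫ y in U1..U2, deriv G y * gg (t - y))) =
      1 / Real.sqrt Real.pi * ∫ u : ℝ, qq u * Ex X G U1 U2 L u := by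
  obtain ⟨h1, h2, h3⟩ := hIDB ℂ (Zf riemannZeta U1 U2) wz xz (L / (2 * Real.pi)) U1 U2
    (deriv (Pp X)) (deriv G) h12 hP hG
  have e : ∀ u t : ℝ, Wx X U1 U2 L u t = Vf (Zf riemannZeta U1 U2) wz xz (L / (2 * Real.pi)) U1 U2 u t -
      Wg (deriv (Pp X)) U1 U2 u t := fun u t => Wx_def X U1 U2 L u t
  unfold Ex
  simp_rw [e]
  exact ⟨h1, h2, h3⟩

lemma int_even (CR : ℝ) (q r E : ℝ → ℝ) (hq : ∀ u, q (-u) = q u) (hE : ∀ u, E (-u) = E u)
    (hr : ∀ u, q u = CR * r u) : ∫ u : ℝ, q u * E u = 2 * (CR * ∫ u in Ioi (0 : ℝ), r u * E u) := by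
  have h1 : ∫ u : ℝ, q u * E u = ∫ u : ℝ, (fun v => q v * E v) |u| := by
    refine integral_congr_ae (Eventually.of_forall fun u => ?_)
    simp only
    rcases abs_choice u with h2 | h2
    · rw [h2]
    · rw [h2, hq u, hE u]
  rw [h1, integral_comp_abs (f := fun v => q v * E v)]
  congr 1
  rw [← integral_const_mul]
  refine integral_congr_ae (Eventually.of_forall fun u => ?_)
  simp only
  rw [hr u, mul_assoc]

/-- THE CROSS ENERGY -/
theorem crossA (hRQ : S_RQ) (hIDB : S_IDB) (hID : S_ID) (hOUT : S_OUT) (hPPX : S_PPX) (hVG : S_VG)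
    (hCE : S_CE) (hPW : S_PW) (δ CP : ℝ) (hδ : 0 < δ) :
    ∃ C T0 : ℝ, 0 < C ∧ 256 ≤ T0 ∧ ∀ T : ℝ, T0 ≤ T → ∃ U1 U2 : ℝ, T ≤ U1 ∧ U1 ≤ T + 1 ∧
      2 * T - 1 ≤ U2 ∧ U2 ≤ 2 * T ∧ ∀ X : ℕ, 2 ≤ X → δ / 2 * Real.log T ≤ Real.log X →
      (X : ℝ) ≤ T ^ (1 / 8 : ℝ) →
      (∃ (Λ : Finset (ℕ × ℕ)) (lam : ℕ × ℕ → ℝ) (g : ℕ × ℕ → ℂ), Trig T CP Λ lam g (Pp X)) →
      ∀ (K : ℝ) (Λ : Finset (ℕ × ℕ)) (lam : ℕ × ℕ → ℝ) (g : ℕ × ℕ → ℂ) (G : ℝ → ℝ),
        Trig T K Λ lam g G →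
        |∫ t : ℝ, (Lz U1 U2 (Real.log T) t - ∫ y in U1..U2, deriv (Pp X) y * gg (t - y)) *
          (∫ y in U1..U2, deriv G y * gg (t - y))| ≤ C * K * T := by
  obtain ⟨CB, TB, hCB, hTB, hWout⟩ := Wx_out hID hOUT hVG CP
  obtain ⟨CR, hCR, hrc, hri, hre, hrb, hrd, -, -⟩ := hRQ
  obtain ⟨CX, TX, hCX, hTX, hXc, hPPX⟩ := hPPX
  obtain ⟨CV, TV, hCV, hTV, hVG⟩ := hVG
  obtain ⟨CW, TW, hCW, hTW, hPW⟩ := hPW
  obtain ⟨CI, TI, hCI, hTI, hin⟩ := inner
  obtain ⟨CD, TD, hCD, hTD, hband⟩ := band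
  obtain ⟨T4, hT4, hlog4⟩ := ev_log4
  have hCR0 : 0 < CR := by linarith
  obtain ⟨C1, hC1⟩ : ∃ C1 : ℝ, C1 = 1 + CB + CV + CI + CW + CD + CX := ⟨_, rfl⟩
  have hC11 : 1 ≤ C1 := by rw [hC1]; linarith
  obtain ⟨CE, hCE0, hCEN⟩ := hCE C1 (δ / 4) hC11 (by positivity)
  refine ⟨2 * (CR * CE), max (max (max TX TV) (max TW TI)) (max (max TD T4) TB), by positivity, ?_,
    fun T hT => ?_⟩
  · exact hT4.trans (((le_max_right _ _).trans (le_max_left _ _)).trans (le_max_right _ _))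
  have hTa : max (max TX TV) (max TW TI) ≤ T := (le_max_left _ _).trans hT
  have hTb : max (max TD T4) TB ≤ T := (le_max_right _ _).trans hT
  have hTTX : TX ≤ T := ((le_max_left _ _).trans (le_max_left _ _)).trans hTa
  have hTTV : TV ≤ T := ((le_max_right _ _).trans (le_max_left _ _)).trans hTa
  have hTTW : TW ≤ T := ((le_max_left _ _).trans (le_max_right _ _)).trans hTa
  have hTTI : TI ≤ T := ((le_max_right _ _).trans (le_max_right _ _)).trans hTa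
  have hTTD : TD ≤ T := ((le_max_left _ _).trans (le_max_left _ _)).trans hTb
  have hTT4 : T4 ≤ T := ((le_max_right _ _).trans (le_max_left _ _)).trans hTb
  have hTTB : TB ≤ T := (le_max_right _ _).trans hTb
  have hT256 : 256 ≤ T := hT4.trans hTT4
  have hTpos : 0 < T := by linarith
  have hT1 : 1 ≤ T := by linarith
  obtain ⟨U1, U2, hU1, hU1', hU2', hU2, hmain⟩ := hin T hTTI
  refine ⟨U1, U2, hU1, hU1', hU2', hU2, fun X hX2 hXlog hX8 hTrigP K Λ lam g G hG => ?_⟩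
  have hL4 : 4 ≤ Real.log T := by
    rw [Real.le_log_iff_exp_le hTpos]
    have : Real.exp 4 ≤ 256 := by
      have h1 : Real.exp 4 = Real.exp 1 ^ 4 := by rw [← Real.exp_nat_mul]; norm_num
      rw [h1]
      have h2 := Real.exp_one_lt_d9
      have h3 : Real.exp 1 ^ 4 ≤ 3 ^ 4 := by gcongr; linarith
      linarith
    linarith
  have hLT4 : Real.log T ^ 4 ≤ T := hlog4 T hTT4
  have hpi := Real.pi_pos
  have hpi3 := Real.pi_gt_three
  have hab : U1 ≤ U2 := by linarith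
  have hThalf : T ^ (1 / 2 : ℝ) ≤ T := by
    calc T ^ (1 / 2 : ℝ) ≤ T ^ (1 : ℝ) := Real.rpow_le_rpow_of_exponent_le hT1 (by norm_num)
      _ = T := Real.rpow_one T
  obtain ⟨hPdc, hWc, hWi, hWo, hWJ⟩ := hWout T hTTB X hTrigP U1 U2 hU1 hU1' hU2' hU2
  have hK1 : 1 ≤ K := hG.hK
  obtain ⟨hGd, -, hGc, hGi, hGa, hGb, hGo, -, -, -, -⟩ :=
    hVG T hTTV (ℕ × ℕ) K Λ lam g G hG U1 U2 hU1 hU1' hU2' hU2
  have hGdc : Continuous (deriv G) := hGd.continuous_deriv (by norm_num)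
  obtain ⟨hIe, hIi, hI⟩ := idb_use hIDB X G U1 U2 (Real.log T) hab hPdc hGdc
  -- the scaled kernel
  obtain ⟨r, hr⟩ : ∃ r : ℝ → ℝ, r = fun u => qq u / CR := ⟨_, rfl⟩
  have hrr : ∀ u, qq u = CR * r u := fun u => by rw [hr]; simp only; field_simp
  have hrcont : Continuous r := by rw [hr]; exact hrc.div_const _
  have hr1 : ∀ u, |r u| ≤ 1 := by
    intro u
    rw [hr]
    simp only
    rw [abs_div, abs_of_pos hCR0, div_le_one hCR0]
    exact hrb u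
  have hr2 : ∀ u, |r u| * u ^ 2 ≤ 1 := by
    intro u
    rw [hr]
    simp only
    rw [abs_div, abs_of_pos hCR0, div_mul_eq_mul_div, div_le_one hCR0]
    exact hrd u
  have q1 : ∀ u, 0 ≤ u → ∫ t in (Icc (T + Real.log T) (2 * T - Real.log T))ᶜ,
      ‖Wx X U1 U2 (Real.log T) u t‖ ^ 2 ≤ C1 * T := by
    intro u hu0
    refine (hWo u hu0).trans (mul_le_mul_of_nonneg_right ?_ hTpos.le)
    rw [hC1]; linarith
  have q2 : ∀ u, 0 ≤ u → ∫ t in (Icc (T + Real.log T) (2 * T - Real.log T))ᶜ,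
      ‖Wg (deriv G) U1 U2 u t‖ ^ 2 ≤ C1 * T := by
    intro u hu0
    refine (hGo u).trans ?_
    have h5 : CV * T ^ (1 / 2 : ℝ) ≤ CV * T := mul_le_mul_of_nonneg_left hThalf hCV.le
    refine h5.trans (mul_le_mul_of_nonneg_right ?_ hTpos.le)
    rw [hC1]; linarith
  have q3 : ∀ u, 0 ≤ u → ∫ t in (T + Real.log T)..(2 * T - Real.log T),
      ‖Wx X U1 U2 (Real.log T) u t‖ ^ 2 ≤ C1 * T * Real.log T ^ 4 := by
    intro u hu0
    refine (hWJ u hu0).trans ?_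
    have h1 : CB ≤ C1 := by rw [hC1]; linarith
    gcongr
  have q4 : ∀ u, Real.log T / 2 ≤ u → ∫ t in (T + Real.log T)..(2 * T - Real.log T),
      ‖Wg (deriv G) U1 U2 u t‖ ^ 2 ≤ C1 := by
    intro u hu
    refine (hGb u hu).trans ?_
    rw [hC1]; linarith
  have q5 : ∀ u, 0 ≤ u → u ≤ Real.log T / 2 → ∫ t in (T + Real.log T)..(2 * T - Real.log T),
      ‖Wg (deriv G) U1 U2 u t‖ ^ 2 ≤ C1 * K ^ 2 * T * (1 + u) := by
    intro u hu0 huL
    refine (hGa u hu0 huL).trans ?_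
    have h1 : CV ≤ C1 := by rw [hC1]; linarith
    gcongr
  have q6 : ∀ u, 0 ≤ u → u ≤ Real.log T / 2 → ∀ t ∈ Icc (T + Real.log T) (2 * T - Real.log T),
      ‖Wx X U1 U2 (Real.log T) u t + ((1 / Real.sqrt (2 * Real.pi) : ℝ) : ℂ) * Pq X u t +
        Dz U1 U2 (Real.log T) u t‖ ≤ C1 * (Real.exp (-u) + 1 / Real.log T) := by
    intro u hu0 huL t ht
    have h1 := hmain u t hu0 huL ht.1 ht.2
    have h2 := hPW T hTTW X hX8 U1 U2 hU1 hU1' hU2' hU2 u t hu0 huL ht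
    have h3 : Wx X U1 U2 (Real.log T) u t + ((1 / Real.sqrt (2 * Real.pi) : ℝ) : ℂ) * Pq X u t +
        Dz U1 U2 (Real.log T) u t =
        (Vz U1 U2 (Real.log T) u t + ((1 / Real.sqrt (2 * Real.pi) : ℝ) : ℂ) * Pf u t +
          Dz U1 U2 (Real.log T) u t) -
        (Wg (deriv (Pp X)) U1 U2 u t + ((1 / Real.sqrt (2 * Real.pi) : ℝ) : ℂ) *
          (Pf u t - Pq X u t)) := by
      rw [Wx_def]
      ring
    rw [h3]
    refine (norm_sub_le _ _).trans ((add_le_add h1 h2).trans ?_)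
    rw [← add_mul]
    apply mul_le_mul_of_nonneg_right
    · rw [hC1]; linarith
    · have := Real.exp_pos (-u)
      positivity
  have q7 : ∀ u, 0 ≤ u → u ≤ Real.log T / 2 → ∫ t in (T + Real.log T)..(2 * T - Real.log T),
      ‖Pq X u t‖ ^ 2 ≤ C1 * T * (1 + if u ≤ δ / 4 * Real.log T then 0 else u) := by
    intro u hu0 huL
    refine (hPPX T hTTX X hX2 u hu0 huL).trans ?_
    have h0 : CX ≤ C1 := by rw [hC1]; linarith
    have h1 : CX * T ≤ C1 * T := mul_le_mul_of_nonneg_right h0 hTpos.le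
    by_cases h2 : u ≤ δ / 4 * Real.log T
    · rw [if_pos h2, if_pos (by linarith : u ≤ Real.log X / 2), add_zero, mul_one, mul_one]
      exact h1
    · rw [if_neg h2]
      have h3 : (if u ≤ Real.log X / 2 then 0 else u) ≤ u := by
        split_ifs
        · exact hu0
        · exact le_rfl
      have h4 : 0 ≤ CX * T := by positivity
      calc CX * T * (1 + if u ≤ Real.log X / 2 then 0 else u) ≤ CX * T * (1 + u) :=
            mul_le_mul_of_nonneg_left (by linarith) h4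
        _ ≤ C1 * T * (1 + u) := mul_le_mul_of_nonneg_right h1 (by linarith)
  have q8 : ∀ U, 1 ≤ U → U ≤ Real.log T / 2 → ∫ u in (0 : ℝ)..U,
      ∫ t in (T + Real.log T)..(2 * T - Real.log T), ‖Dz U1 U2 (Real.log T) u t‖ ^ 2 ≤
        C1 * U ^ 4 * T / Real.log T ^ 2 := by
    intro U hUa hUb
    refine (hband T hTTD U1 U2 hU1 hU2 U hUa hUb).trans ?_
    have h1 : CD ≤ C1 := by rw [hC1]; linarith
    gcongr
  have q9 : Integrable (fun u : ℝ => r u * (∫ t : ℝ, Wx X U1 U2 (Real.log T) u t *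
      (starRingEnd ℂ) (Wg (deriv G) U1 U2 u t)).re) := by
    refine (hIi.div_const CR).congr (Eventually.of_forall fun u => ?_)
    simp only [hr, Ex]
    ring
  have hce := hCEN T (Real.log T) K hL4 hLT4 hK1 (Wx X U1 U2 (Real.log T)) (Wg (deriv G) U1 U2)
    (Pq X) (Dz U1 U2 (Real.log T)) r hWc hGc (hXc X) (Dz_cont U1 U2 (Real.log T)) hrcont hr1 hr2 hWi hGi
    q1 q2 q3 q4 q5 q6 q7 q8 q9
  have hce' : |∫ u in Ioi (0 : ℝ), r u * Ex X G U1 U2 (Real.log T) u| ≤ CE * K * T := hce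
  rw [hI, int_even CR qq r (Ex X G U1 U2 (Real.log T)) hre hIe hrr]
  have hs1 : 1 ≤ Real.sqrt Real.pi := by
    apply Real.le_sqrt_of_sq_le; linarith
  have hs0' : 0 < Real.sqrt Real.pi := by linarith
  rw [abs_mul, abs_of_pos (by positivity : 0 < 1 / Real.sqrt Real.pi), abs_mul, abs_mul, abs_of_pos hCR0,
    abs_of_pos (by norm_num : (0:ℝ) < 2)]
  have h9 : 1 / Real.sqrt Real.pi ≤ 1 := by
    rw [div_le_one hs0']; exact hs1
  calc 1 / Real.sqrt Real.pi * (2 * (CR * |∫ u in Ioi (0 : ℝ), r u * Ex X G U1 U2 (Real.log T) u|)) ≤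
      1 * (2 * (CR * (CE * K * T))) := by
        apply mul_le_mul h9 _ (by positivity) (by norm_num)
        gcongr
    _ = 2 * (CR * CE) * K * T := by ring

end

end Pool.Agent.U398.MV
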