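import Pool.Agent.U398.MV.CrxC
import Pool.Agent.U858.MV3.Stm

set_option autoImplicit false

/-! # Project MV3: the cross theorem -/

namespace Pool.Agent.U398.MV

open MeasureTheory Filter Topology Set Complex
open H370 (Zf mult mem_Zf good_zeta zset NN NN_eq)
open Pool.Agent.U858.MV3 (S_EM2)

noncomputable section

lemma meas_gg {f : ℝ → ℝ} (hf : Continuous f) {a b : ℝ} (hab : a ≤ b) :
    Measurable fun t : ℝ => ∫ y in a..b, f y * gg (t - y) := by
  have h1 : StronglyMeasurable (Function.uncurry fun (t y : ℝ) => f y * gg (t - y)) := by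
    apply Measurable.stronglyMeasurable
    exact (hf.measurable.comp measurable_snd).mul (gg_meas.comp (measurable_fst.sub measurable_snd))
  have h2 := h1.integral_prod_right (ν := (volume : Measure ℝ).restrict (Ioc a b))
  have e : (fun t : ℝ => ∫ y in a..b, f y * gg (t - y)) =
      fun t : ℝ => ∫ y in Ioc a b, f y * gg (t - y) := by
    funext t
    rw [intervalIntegral.integral_of_le hab]
  rw [e]
  exact h2.measurable

/-- the linear part: short averages -/
lemma short_avg {σ P : ℝ → ℝ} {T c1 c2 : ℝ} (hT : 10 ≤ T)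
    (hσ : IntegrableOn σ (Icc (T / 2) (3 * T))) (hP : Continuous P)
    (h1 : (∫ t in T..(2 * T), (∫ y in (t - 1 / 2)..(t + 1 / 2), σ y) ^ 2) ≤ c1)
    (h2 : (∫ t in T..(2 * T), (∫ y in (t - 1 / 2)..(t + 1 / 2), P y) ^ 2) ≤ c2) :
    (∫ t in T..(2 * T), (∫ y in (t - 1 / 2)..(t + 1 / 2), (σ y - P y)) ^ 2) ≤ 2 * c1 + 2 * c2 := by
  have hii : ∀ t ∈ Icc T (2 * T), IntervalIntegrable σ volume (t - 1 / 2) (t + 1 / 2) := by
    intro t ht
    rw [intervalIntegrable_iff_integrableOn_Icc_of_le (by linarith)]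
    exact hσ.mono_set (Icc_subset_Icc (by linarith [ht.1]) (by linarith [ht.2]))
  -- continuity of the averages
  have hF : ContinuousOn (fun t : ℝ => ∫ y in (t - 1 / 2)..(t + 1 / 2), σ y) (Icc T (2 * T)) := by
    have hprim : ContinuousOn (fun x : ℝ => ∫ y in (T / 2)..x, σ y) (Icc (T / 2) (3 * T)) := by
      have h := intervalIntegral.continuousOn_primitive_interval (a := T / 2) (b := 3 * T) (f := σ)
        (μ := volume) (by rwa [uIcc_of_le (by linarith)])
      rwa [uIcc_of_le (by linarith)] at h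
    have e : ∀ t ∈ Icc T (2 * T), (∫ y in (t - 1 / 2)..(t + 1 / 2), σ y) =
        (∫ y in (T / 2)..(t + 1 / 2), σ y) - ∫ y in (T / 2)..(t - 1 / 2), σ y := by
      intro t ht
      rw [intervalIntegral.integral_interval_sub_left]
      · rw [intervalIntegrable_iff_integrableOn_Icc_of_le (by linarith [ht.1])]
        exact hσ.mono_set (Icc_subset_Icc le_rfl (by linarith [ht.2]))
      · rw [intervalIntegrable_iff_integrableOn_Icc_of_le (by linarith [ht.1])]
        exact hσ.mono_set (Icc_subset_Icc le_rfl (by linarith [ht.2]))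
    refine ContinuousOn.congr ?_ e
    refine ContinuousOn.sub ?_ ?_
    · refine hprim.comp (by fun_prop) fun t ht => ?_
      exact ⟨by linarith [ht.1], by linarith [ht.2]⟩
    · refine hprim.comp (by fun_prop) fun t ht => ?_
      exact ⟨by linarith [ht.1], by linarith [ht.2]⟩
  have hG : Continuous (fun t : ℝ => ∫ y in (t - 1 / 2)..(t + 1 / 2), P y) := by
    have e : (fun t : ℝ => ∫ y in (t - 1 / 2)..(t + 1 / 2), P y) =
        fun t : ℝ => (∫ y in (0 : ℝ)..(t + 1 / 2), P y) - ∫ y in (0 : ℝ)..(t - 1 / 2), P y := by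
      funext t
      rw [intervalIntegral.integral_interval_sub_left (hP.intervalIntegrable _ _) (hP.intervalIntegrable _ _)]
    rw [e]
    have hc := intervalIntegral.continuous_primitive (fun a b => hP.intervalIntegrable (μ := volume) a b) 0
    exact (hc.comp (by fun_prop)).sub (hc.comp (by fun_prop))
  have hle : T ≤ 2 * T := by linarith
  have i1 : IntervalIntegrable (fun t : ℝ => (∫ y in (t - 1 / 2)..(t + 1 / 2), σ y) ^ 2) volume T (2 * T) := by
    apply ContinuousOn.intervalIntegrable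
    rw [uIcc_of_le hle]
    exact hF.pow 2
  have i2 : IntervalIntegrable (fun t : ℝ => (∫ y in (t - 1 / 2)..(t + 1 / 2), P y) ^ 2) volume T (2 * T) :=
    (hG.pow 2).intervalIntegrable _ _
  have hsub : ∀ t ∈ Icc T (2 * T), (∫ y in (t - 1 / 2)..(t + 1 / 2), (σ y - P y)) =
      (∫ y in (t - 1 / 2)..(t + 1 / 2), σ y) - ∫ y in (t - 1 / 2)..(t + 1 / 2), P y := by
    intro t ht
    exact intervalIntegral.integral_sub (hii t ht) (hP.intervalIntegrable _ _)
  have i3 : IntervalIntegrable (fun t : ℝ => (∫ y in (t - 1 / 2)..(t + 1 / 2), (σ y - P y)) ^ 2) volume T (2 * T) := by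
    apply ContinuousOn.intervalIntegrable
    rw [uIcc_of_le hle]
    refine ContinuousOn.congr ((hF.sub hG.continuousOn).pow 2) fun t ht => ?_
    simp only [Pi.sub_apply, Pi.pow_apply]
    rw [hsub t ht]
  have h3 : (∫ t in T..(2 * T), (∫ y in (t - 1 / 2)..(t + 1 / 2), (σ y - P y)) ^ 2) ≤
      ∫ t in T..(2 * T), (2 * (∫ y in (t - 1 / 2)..(t + 1 / 2), σ y) ^ 2 +
        2 * (∫ y in (t - 1 / 2)..(t + 1 / 2), P y) ^ 2) := by
    refine intervalIntegral.integral_mono_on hle i3 ((i1.const_mul 2).add (i2.const_mul 2)) fun t ht => ?_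
    rw [hsub t ht]
    nlinarith [sq_nonneg ((∫ y in (t - 1 / 2)..(t + 1 / 2), σ y) + ∫ y in (t - 1 / 2)..(t + 1 / 2), P y)]
  rw [intervalIntegral.integral_add (i1.const_mul 2) (i2.const_mul 2),
    intervalIntegral.integral_const_mul, intervalIntegral.integral_const_mul] at h3
  linarith

lemma int_of_four {σ : ℝ → ℝ} {a b : ℝ} (hm : AEStronglyMeasurable σ volume)
    (h : IntegrableOn (fun t => σ t ^ 4) (Icc a b)) : IntegrableOn σ (Icc a b) := by
  have hone : IntegrableOn (fun _ : ℝ => (1 : ℝ)) (Icc a b) := by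
    rw [integrableOn_const_iff]
    right
    exact measure_Icc_lt_top
  refine Integrable.mono' (h.add hone) hm.restrict (Eventually.of_forall fun t => ?_)
  simp only [Pi.add_apply]
  rw [Real.norm_eq_abs, abs_le]
  constructor <;> nlinarith [sq_nonneg (σ t ^ 2 - 1 / 2), sq_nonneg (σ t + 1), sq_nonneg (σ t - 1),
    sq_nonneg (σ t)]

end

end Pool.Agent.U398.MV
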