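import Pool.Agent.U398.MV.CrxD

set_option autoImplicit false

/-! # Project MV3: the cross theorem -/

namespace Pool.Agent.U398.MV

open MeasureTheory Filter Topology Set Complex
open H370 (Zf mult mem_Zf good_zeta zset NN NN_eq)
open Pool.Agent.U858.MV3 (S_EM2)

noncomputable section

/-- THE CROSS THEOREM -/
theorem crx (hRQ : S_RQ) (hIDB : S_IDB) (hID : S_ID) (hOUT : S_OUT) (hPPX : S_PPX) (hVG : S_VG)
    (hCE : S_CE) (hPW : S_PW) (hTR : S_TR) (hABB : S_ABB) (hEM : S_EM2) (hSB : S_SB) (hSC : S_SC) :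
    S_CRX := by
  intro k
  obtain ⟨δR, CR, hδR, hδR16, hCR, hTR⟩ := hTR k
  obtain ⟨-, hEM⟩ := hEM
  obtain ⟨δE, hδE, hEM⟩ := hEM 4 0
  refine ⟨min δE δR, lt_min hδE hδR, fun δ hδ hδm => ?_⟩
  obtain ⟨CE, TE, hCE0, hTE, hEM⟩ := hEM δ hδ (hδm.trans (min_le_left _ _))
  obtain ⟨TR, hTR⟩ := hTR δ hδ (hδm.trans (min_le_right _ _))
  have hδ16 : δ ≤ 1 / 16 := (hδm.trans (min_le_right _ _)).trans hδR16
  obtain ⟨TF, hTF, hfl⟩ := ev_floor hδ
  obtain ⟨CA, TA, hCA, hTA, hcross⟩ := crossA hRQ hIDB hID hOUT hPPX hVG hCE hPW δ CR hδ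
  obtain ⟨CV, TV, hCV, hTV, hVG⟩ := hVG
  obtain ⟨hmeas, CS, TS, hCS, hTS, hSB⟩ := hSB
  obtain ⟨CC, TC, hCC, hTC, hSC⟩ := hSC
  obtain ⟨CK, hCK, hKb⟩ := Lz_bound
  obtain ⟨C1, hC1⟩ : ∃ C1 : ℝ, C1 = 1 + CE + (2 * CS + 2 * (CV * CR ^ 2)) + CC + (8 * CK + CV) + CA := ⟨_, rfl⟩
  have hCVR : 0 ≤ CV * CR ^ 2 := by positivity
  have hC11 : 1 ≤ C1 := by rw [hC1]; nlinarith
  obtain ⟨C, T0, hC, hABB⟩ := hABB C1 hC11
  refine ⟨C * CR, max (max (max TE TR) (max TF TA)) (max (max TV TS) (max TC T0)), by positivity, ?_,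
    fun T hT α hα => ?_⟩
  · exact hTE.trans (((le_max_left _ _).trans (le_max_left _ _)).trans (le_max_left _ _))
  have hTa : max (max TE TR) (max TF TA) ≤ T := (le_max_left _ _).trans hT
  have hTb : max (max TV TS) (max TC T0) ≤ T := (le_max_right _ _).trans hT
  have hTTE : TE ≤ T := ((le_max_left _ _).trans (le_max_left _ _)).trans hTa
  have hTTR : TR ≤ T := ((le_max_right _ _).trans (le_max_left _ _)).trans hTa
  have hTTF : TF ≤ T := ((le_max_left _ _).trans (le_max_right _ _)).trans hTa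
  have hTTA : TA ≤ T := ((le_max_right _ _).trans (le_max_right _ _)).trans hTa
  have hTTV : TV ≤ T := ((le_max_left _ _).trans (le_max_left _ _)).trans hTb
  have hTTS : TS ≤ T := ((le_max_right _ _).trans (le_max_left _ _)).trans hTb
  have hTTC : TC ≤ T := ((le_max_left _ _).trans (le_max_right _ _)).trans hTb
  have hTT0 : T0 ≤ T := ((le_max_right _ _).trans (le_max_right _ _)).trans hTb
  have hT256 : 256 ≤ T := hTA.trans hTTA
  have hTpos : 0 < T := by linarith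
  have hT1 : 1 ≤ T := by linarith
  obtain ⟨hX2, hXlog⟩ := hfl T hTTF
  obtain ⟨X, hX⟩ : ∃ X : ℕ, X = ⌊T ^ δ⌋₊ := ⟨_, rfl⟩
  obtain ⟨⟨Λ, lam, g, hG⟩, ΛP, lamP, gP, hP⟩ := hTR T hTTR α hα
  have hX8 : (X : ℝ) ≤ T ^ (1 / 8 : ℝ) := by
    rw [hX]
    exact (Nat.floor_le (by positivity)).trans (Real.rpow_le_rpow_of_exponent_le hT1 (by linarith))
  obtain ⟨hEMi, hEMb⟩ := hEM T hTTE α hα
  rw [← hX] at hX2 hXlog hG hP hEMi hEMb ⊢
  obtain ⟨U1, U2, hU1, hU1', hU2', hU2, hcr⟩ := hcross T hTTA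
  obtain ⟨K, hK⟩ : ∃ K : ℝ, K = CR * (1 + Vq X α) ^ k := ⟨_, rfl⟩
  rw [← hK] at hG
  have hK1 : 1 ≤ K := hG.hK
  obtain ⟨G, hGdef⟩ : ∃ G : ℝ → ℝ, G = fun t => (Ap X α t).im ^ (2 * k + 1) := ⟨_, rfl⟩
  rw [← hGdef] at hG
  have hcr' := hcr X hX2 hXlog hX8 ⟨ΛP, lamP, gP, hP⟩ K Λ lam g G hG
  obtain ⟨hPd, hPb, -, -, -, -, -, hPs, hPe, hPg, hP0⟩ :=
    hVG T hTTV (ℕ × ℕ) CR ΛP lamP gP (Pp X) hP U1 U2 hU1 hU1' hU2' hU2
  obtain ⟨hGd, hGb, -, -, -, -, -, hGs, hGe, hGg, hG0⟩ :=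
    hVG T hTTV (ℕ × ℕ) K Λ lam g G hG U1 U2 hU1 hU1' hU2' hU2
  have hPc : Continuous (Pp X) := hPd.continuous
  have hGc : Continuous G := hGd.continuous
  have hPdc : Continuous (deriv (Pp X)) := hPd.continuous_deriv (by norm_num)
  have hGdc : Continuous (deriv G) := hGd.continuous_deriv (by norm_num)
  obtain ⟨hS4i, hS4, hSl⟩ := hSB T hTTS
  have hab : U1 ≤ U2 := by linarith
  have hSint : IntegrableOn pS (Icc (T / 2) (3 * T)) := int_of_four hmeas hS4i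
  -- the fourth moment
  have e4 : ∀ t, |pS t - Pp X t| ^ 4 * ‖Ap X α t‖ ^ (2 * 0) = (pS t - Pp X t) ^ 4 := by
    intro t
    rw [mul_zero, pow_zero, mul_one, ← abs_pow, abs_of_nonneg (by positivity)]
  simp_rw [e4] at hEMi hEMb
  rw [pow_zero, mul_one] at hEMb
  have hEMo : IntegrableOn (fun t => (pS t - Pp X t) ^ 4) (Icc (T / 2) (4 * T)) := by
    rwa [intervalIntegrable_iff_integrableOn_Icc_of_le (by linarith)] at hEMi
  have p1 : IntegrableOn (fun t => (pS t - Pp X t) ^ 4) (Icc (T / 2) (3 * T)) :=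
    hEMo.mono_set (Icc_subset_Icc le_rfl (by linarith))
  have p2 : (∫ t in (T / 2)..(3 * T), (pS t - Pp X t) ^ 4) ≤ C1 * T := by
    have h1 : (∫ t in (T / 2)..(3 * T), (pS t - Pp X t) ^ 4) ≤ ∫ t in (T / 2)..(4 * T), (pS t - Pp X t) ^ 4 :=
      intervalIntegral.integral_mono_interval le_rfl (by linarith) (by linarith)
        (Eventually.of_forall fun t => by positivity) hEMi
    refine h1.trans (hEMb.trans (mul_le_mul_of_nonneg_right ?_ hTpos.le))
    rw [hC1]; nlinarith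
  have p3 : (∫ t in T..(2 * T), (∫ y in (t - 1 / 2)..(t + 1 / 2), (pS y - Pp X y)) ^ 2) ≤ C1 * T := by
    refine (short_avg (by linarith) hSint hPc hSl hPs).trans ?_
    have h1 : 2 * (CS * T) + 2 * (CV * CR ^ 2 * T) = (2 * CS + 2 * (CV * CR ^ 2)) * T := by ring
    rw [h1]
    apply mul_le_mul_of_nonneg_right _ hTpos.le
    rw [hC1]; linarith
  have p4 : ∀ᵐ t : ℝ, T + 3 ≤ t → t ≤ 2 * T - 3 →
      |(pS t - Pp X t) - (∫ y in (-1 : ℝ)..1, (1 - |y|) * (pS (t - y) - Pp X (t - y))) -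
        (Lz U1 U2 (Real.log T) t - ∫ y in U1..U2, deriv (Pp X) y * gg (t - y))| ≤ C1 / T := by
    filter_upwards [hSC T hTTC] with t ht h1 h2
    have h3 := ht (by linarith) (by linarith)
    have h4 := hPe t (by linarith) (by linarith)
    have i1 : IntervalIntegrable (fun y => (1 - |y|) * pS (t - y)) volume (-1) 1 := by
      have h5 : IntervalIntegrable (fun y => pS (t - y)) volume (-1) 1 := by
        have h6 : IntervalIntegrable pS volume (t - 1) (t + 1) := by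
          rw [intervalIntegrable_iff_integrableOn_Icc_of_le (by linarith)]
          exact hSint.mono_set (Icc_subset_Icc (by linarith) (by linarith))
        have h7 := h6.comp_sub_left t
        have e1 : t - (t - 1) = 1 := by ring
        have e2 : t - (t + 1) = -1 := by ring
        rw [e1, e2] at h7
        exact h7.symm
      exact h5.continuousOn_mul (by fun_prop)
    have i2 : IntervalIntegrable (fun y => (1 - |y|) * Pp X (t - y)) volume (-1) 1 := by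
      apply Continuous.intervalIntegrable
      have : Continuous fun y : ℝ => Pp X (t - y) := hPc.comp (by fun_prop)
      fun_prop
    have e5 : (∫ y in (-1 : ℝ)..1, (1 - |y|) * (pS (t - y) - Pp X (t - y))) =
        (∫ y in (-1 : ℝ)..1, (1 - |y|) * pS (t - y)) - ∫ y in (-1 : ℝ)..1, (1 - |y|) * Pp X (t - y) := by
      rw [← intervalIntegral.integral_sub i1 i2]
      refine intervalIntegral.integral_congr fun y _ => ?_
      ring
    rw [e5, h4]
    have e6 : pS t - Pp X t - ((∫ y in (-1 : ℝ)..1, (1 - |y|) * pS (t - y)) -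
        ∫ y in (-1 : ℝ)..1, (1 - |y|) * Pp X (t - y)) - (Lz U1 U2 (Real.log T) t -
        (Pp X t - ∫ y in (-1 : ℝ)..1, (1 - |y|) * Pp X (t - y))) =
        pS t - (∫ y in (-1 : ℝ)..1, (1 - |y|) * pS (t - y)) - Lz U1 U2 (Real.log T) t := by ring
    rw [e6, Lz_eq hT1 hU1 hU1' hU2' h1 h2]
    refine h3.trans ?_
    apply div_le_div_of_nonneg_right _ hTpos.le
    rw [hC1]; nlinarith
  have p5 : Measurable fun t => Lz U1 U2 (Real.log T) t - ∫ y in U1..U2, deriv (Pp X) y * gg (t - y) :=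
    (Lz_meas U1 U2 (Real.log T)).sub (meas_gg hPdc hab)
  have hlog8 : Real.log T ≤ 8 * T ^ (1 / 8 : ℝ) := by
    have h := Real.log_le_rpow_div hTpos.le (by norm_num : (0 : ℝ) < 1 / 8)
    linarith
  have hT8 : 0 ≤ T ^ (1 / 8 : ℝ) := by positivity
  have p6 : ∀ t, |Lz U1 U2 (Real.log T) t - ∫ y in U1..U2, deriv (Pp X) y * gg (t - y)| ≤
      C1 * T ^ (1 / 8 : ℝ) := by
    intro t
    have h1 := hKb T (by linarith) U1 U2 hU1 hab hU2 t
    have h2 := hPg t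
    refine (abs_sub _ _).trans ((add_le_add h1 h2).trans ?_)
    have h3 : CK * Real.log T ≤ CK * (8 * T ^ (1 / 8 : ℝ)) :=
      mul_le_mul_of_nonneg_left hlog8 (by linarith)
    have h4 : (8 * CK + CV) * T ^ (1 / 8 : ℝ) ≤ C1 * T ^ (1 / 8 : ℝ) := by
      apply mul_le_mul_of_nonneg_right _ hT8
      rw [hC1]; nlinarith
    linarith
  have p7 : ∀ t, t < T - 2 ∨ 2 * T + 2 < t →
      Lz U1 U2 (Real.log T) t - (∫ y in U1..U2, deriv (Pp X) y * gg (t - y)) = 0 := by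
    intro t ht
    rw [Lz_zero hT1 hU1 hab hU2 ht, hP0 t ht, sub_zero]
  have p8 : (∫ t in T..(2 * T), (∫ y in (t - 1 / 2)..(t + 1 / 2), G y) ^ 2) ≤ C1 * K ^ 2 * T := by
    refine hGs.trans ?_
    have h1 : CV ≤ C1 := by rw [hC1]; nlinarith
    gcongr
  have p9 : ∀ t, T + 3 ≤ t → t ≤ 2 * T - 3 → (∫ y in U1..U2, deriv G y * gg (t - y)) =
      G t - ∫ y in (-1 : ℝ)..1, (1 - |y|) * G (t - y) := fun t h1 h2 =>
    hGe t (by linarith) (by linarith)
  have p10 : Measurable fun t => ∫ y in U1..U2, deriv G y * gg (t - y) := meas_gg hGdc hab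
  have p11 : ∀ t, |∫ y in U1..U2, deriv G y * gg (t - y)| ≤ C1 * T ^ (1 / 8 : ℝ) := by
    intro t
    refine (hGg t).trans ?_
    apply mul_le_mul_of_nonneg_right _ hT8
    rw [hC1]; nlinarith
  have p12 : |∫ t : ℝ, (Lz U1 U2 (Real.log T) t - ∫ y in U1..U2, deriv (Pp X) y * gg (t - y)) *
      (∫ y in U1..U2, deriv G y * gg (t - y))| ≤ C1 * K * T := by
    refine hcr'.trans ?_
    have h1 : CA ≤ C1 := by rw [hC1]; nlinarith
    gcongr
  have hfin := hABB T hTT0 K hK1 (fun t => pS t - Pp X t)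
    (fun t => Lz U1 U2 (Real.log T) t - ∫ y in U1..U2, deriv (Pp X) y * gg (t - y)) G
    (fun t => ∫ y in U1..U2, deriv G y * gg (t - y)) (hmeas.sub hPc.aestronglyMeasurable) p1 p2 p3 p4 p5 p6
    p7 hGc hGb p8 p9 p10 p11 hG0 p12
  have hfin' : |∫ t in T..(2 * T), (pS t - Pp X t) * (Ap X α t).im ^ (2 * k + 1)| ≤ C * K * T := by
    rw [hGdef] at hfin
    exact hfin
  refine hfin'.trans (le_of_eq ?_)
  rw [hK]; ring

end

end Pool.Agent.U398.MV
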