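import Mathlib

set_option autoImplicit false

/-! # The integral of the sine kernel determinant over a large box -/

namespace Pool.Agent.U398.MV

open MeasureTheory Filter Topology Set

noncomputable section

/-- the sine kernel -/
def sK (x : ℝ) : ℝ := if x = 0 then 1 else Real.sin (Real.pi * x) / (Real.pi * x)

theorem sK_eq (x : ℝ) : sK x = Real.sinc (Real.pi * x) := by
  unfold sK Real.sinc
  by_cases h : x = 0
  · simp [h]
  · simp [h, Real.pi_ne_zero]

theorem sK_cont : Continuous sK := by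
  have : sK = fun x => Real.sinc (Real.pi * x) := funext sK_eq
  rw [this]
  exact Real.continuous_sinc.comp (continuous_const.mul continuous_id)

theorem sK_zero : sK 0 = 1 := by simp [sK]

theorem sK_abs (x : ℝ) : |sK x| ≤ 1 := by
  rw [sK_eq]; exact Real.abs_sinc_le_one _

theorem sK_sq (x : ℝ) : sK x ^ 2 ≤ 2 * (1 + x ^ 2)⁻¹ := by
  have h0 : 0 < 1 + x ^ 2 := by positivity
  rw [← div_eq_mul_inv, le_div_iff₀ h0]
  have h1 : sK x ^ 2 ≤ 1 := by
    have := sK_abs x
    rw [← sq_abs]; exact pow_le_one₀ (abs_nonneg _) this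
  have h2 : sK x ^ 2 * x ^ 2 ≤ 1 := by
    unfold sK
    split_ifs with h
    · simp [h]
    · have hs : Real.sin (Real.pi * x) ^ 2 ≤ 1 := Real.sin_sq_le_one _
      have hp : (1:ℝ) ≤ Real.pi ^ 2 := by nlinarith [Real.pi_gt_three]
      have hx : 0 < x ^ 2 := by positivity
      have e : (Real.sin (Real.pi * x) / (Real.pi * x)) ^ 2 * x ^ 2 =
          Real.sin (Real.pi * x) ^ 2 / Real.pi ^ 2 := by
        field_simp
      rw [e, div_le_one (by positivity)]
      linarith
  nlinarith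

/-- the matrix of the problem, `u` extended by `0` -/
def sM {m : ℕ} (u : Fin m → ℝ) : Matrix (Fin (m + 1)) (Fin (m + 1)) ℝ :=
  Matrix.of fun i j => sK ((Fin.snoc u 0 : Fin (m + 1) → ℝ) i - (Fin.snoc u 0 : Fin (m + 1) → ℝ) j)

theorem lint_le {n : ℕ} (i : Fin (n + 1)) (α β : Fin (n + 1) → ℝ) (A : ℝ)
    (h : ∀ i, -A ≤ α i ∧ α i ≤ β i ∧ β i ≤ A) (c : (Fin n → ℝ) → ℝ) (hc : Measurable c) :
    ∫⁻ u in Icc α β, ENNReal.ofReal (2 * (1 + (u i - c (fun j => u (i.succAbove j))) ^ 2)⁻¹) ≤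
      ENNReal.ofReal (2 * Real.pi * (2 * A) ^ n) := by
  classical
  have hA : 0 ≤ A := by
    have := h i; linarith
  set μ : Fin (n + 1) → Measure ℝ := fun j => volume.restrict (Icc (α j) (β j)) with hμ
  have e1 : (volume.restrict (Icc α β) : Measure (Fin (n + 1) → ℝ)) = Measure.pi μ := by
    rw [← Set.pi_univ_Icc, volume_pi, Measure.restrict_pi_pi]
  have mp := measurePreserving_piFinSuccAbove μ i
  rw [e1]
  have e2 : ∫⁻ u, ENNReal.ofReal (2 * (1 + (u i - c (fun j => u (i.succAbove j))) ^ 2)⁻¹) ∂(Measure.pi μ) =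
      ∫⁻ p, ENNReal.ofReal (2 * (1 + (p.1 - c p.2) ^ 2)⁻¹) ∂((μ i).prod (Measure.pi fun j => μ (i.succAbove j))) := by
    rw [← mp.lintegral_comp]
    · rfl
    · fun_prop
  rw [e2, lintegral_prod_symm]
  · have h3 : ∀ y : Fin n → ℝ, ∫⁻ x, ENNReal.ofReal (2 * (1 + (x - c y) ^ 2)⁻¹) ∂(μ i) ≤
        ENNReal.ofReal (2 * Real.pi) := by
      intro y
      calc ∫⁻ x, ENNReal.ofReal (2 * (1 + (x - c y) ^ 2)⁻¹) ∂(μ i)
          ≤ ∫⁻ x, ENNReal.ofReal (2 * (1 + (x - c y) ^ 2)⁻¹) := lintegral_mono' Measure.restrict_le_self le_rfl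
        _ = ∫⁻ x, ENNReal.ofReal (2 * (1 + x ^ 2)⁻¹) :=
            lintegral_sub_right_eq_self (fun x => ENNReal.ofReal (2 * (1 + x ^ 2)⁻¹)) (c y)
        _ = ENNReal.ofReal (∫ x : ℝ, 2 * (1 + x ^ 2)⁻¹) := by
            rw [ofReal_integral_eq_lintegral_ofReal]
            · exact integrable_inv_one_add_sq.const_mul 2
            · exact ae_of_all _ fun x => by positivity
        _ = ENNReal.ofReal (2 * Real.pi) := by
            rw [integral_const_mul, integral_univ_inv_one_add_sq]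
    refine (lintegral_mono h3).trans ?_
    rw [lintegral_const, ENNReal.ofReal_mul (p := 2 * Real.pi) (by positivity)]
    suffices hP : (Measure.pi fun j => μ (i.succAbove j)) univ ≤ ENNReal.ofReal ((2 * A) ^ n) by
      exact mul_le_mul' le_rfl hP
    rw [Measure.pi_univ]
    have : ∀ j : Fin n, μ (i.succAbove j) univ ≤ ENNReal.ofReal (2 * A) := by
      intro j
      simp only [hμ, Measure.restrict_apply_univ, Real.volume_Icc]
      apply ENNReal.ofReal_le_ofReal
      have := h (i.succAbove j); linarith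
    calc ∏ j : Fin n, μ (i.succAbove j) univ ≤ ∏ _j : Fin n, ENNReal.ofReal (2 * A) :=
          Finset.prod_le_prod' fun j _ => this j
      _ = ENNReal.ofReal ((2 * A) ^ n) := by
          rw [Finset.prod_const, Finset.card_univ, Fintype.card_fin, ENNReal.ofReal_pow (by positivity)]
  · fun_prop

theorem int_le {n : ℕ} (i : Fin (n + 1)) (α β : Fin (n + 1) → ℝ) (A : ℝ)
    (h : ∀ i, -A ≤ α i ∧ α i ≤ β i ∧ β i ≤ A) (c : (Fin n → ℝ) → ℝ) (hc : Continuous c) :
    ∫ u in Icc α β, (2 * (1 + (u i - c (fun j => u (i.succAbove j))) ^ 2)⁻¹) ≤ 2 * Real.pi * (2 * A) ^ n := by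
  have hA : 0 ≤ A := by
    have := h i; linarith
  rw [integral_eq_lintegral_of_nonneg_ae (ae_of_all _ fun u => by positivity)]
  · refine ENNReal.toReal_le_of_le_ofReal (by positivity) (lint_le i α β A h c hc.measurable)
  · apply Measurable.aestronglyMeasurable
    have := hc.measurable
    fun_prop

/-- the sum which bounds the determinant minus one -/
def sB {m : ℕ} (u : Fin m → ℝ) : ℝ := ∑ i : Fin (m + 1), ∑ j : Fin (m + 1),
  if i = j then 0 else 2 * (1 + ((Fin.snoc u 0 : Fin (m + 1) → ℝ) i - (Fin.snoc u 0 : Fin (m + 1) → ℝ) j) ^ 2)⁻¹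

theorem pair_le {m : ℕ} (v : Fin (m + 1) → ℝ) (i j : Fin (m + 1)) (hij : i ≠ j) :
    2 * (1 + (v i - v j) ^ 2)⁻¹ ≤ ∑ i : Fin (m + 1), ∑ j : Fin (m + 1),
      if i = j then 0 else 2 * (1 + (v i - v j) ^ 2)⁻¹ := by
  have hn : ∀ i j : Fin (m + 1), 0 ≤ (if i = j then 0 else 2 * (1 + (v i - v j) ^ 2)⁻¹) := by
    intro i j; split_ifs <;> positivity
  calc 2 * (1 + (v i - v j) ^ 2)⁻¹ = (if i = j then 0 else 2 * (1 + (v i - v j) ^ 2)⁻¹) := by simp [hij]
    _ ≤ ∑ j, (if i = j then 0 else 2 * (1 + (v i - v j) ^ 2)⁻¹) :=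
        Finset.single_le_sum (fun j _ => hn i j) (Finset.mem_univ j)
    _ ≤ _ := Finset.single_le_sum (f := fun i => ∑ j, (if i = j then 0 else 2 * (1 + (v i - v j) ^ 2)⁻¹))
        (fun i _ => Finset.sum_nonneg fun j _ => hn i j) (Finset.mem_univ i)

theorem det_le {m : ℕ} (u : Fin m → ℝ) : |(sM u).det - 1| ≤ ((m + 1).factorial : ℝ) * sB u := by
  classical
  set v : Fin (m + 1) → ℝ := Fin.snoc u 0 with hv
  have hM : ∀ i j, sM u i j = sK (v i - v j) := fun i j => rfl
  have hB : sB u = ∑ i : Fin (m + 1), ∑ j : Fin (m + 1), if i = j then 0 else 2 * (1 + (v i - v j) ^ 2)⁻¹ := rfl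
  have hB0 : 0 ≤ sB u := by
    rw [hB]; refine Finset.sum_nonneg fun i _ => Finset.sum_nonneg fun j _ => ?_
    split_ifs <;> positivity
  rw [Matrix.det_apply]
  rw [← Finset.add_sum_erase _ _ (Finset.mem_univ (1 : Equiv.Perm (Fin (m + 1))))]
  have h1 : Equiv.Perm.sign (1 : Equiv.Perm (Fin (m + 1))) • ∏ i, sM u ((1 : Equiv.Perm (Fin (m + 1))) i) i = 1 := by
    simp [hM, sK_zero]
  rw [h1, add_sub_cancel_left]
  refine (Finset.abs_sum_le_sum_abs _ _).trans ?_
  have h2 : ∀ σ ∈ (Finset.univ : Finset (Equiv.Perm (Fin (m + 1)))).erase 1,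
      |Equiv.Perm.sign σ • ∏ i, sM u (σ i) i| ≤ sB u := by
    intro σ hσ
    have hne : σ ≠ 1 := Finset.ne_of_mem_erase hσ
    have e0 : |Equiv.Perm.sign σ • ∏ i, sM u (σ i) i| = ∏ i, |sM u (σ i) i| := by
      have e00 : |∏ i, sM u (σ i) i| = ∏ i, |sM u (σ i) i| := Finset.abs_prod _ _
      rw [← e00]
      rcases Int.units_eq_one_or (Equiv.Perm.sign σ) with h | h <;> simp [h]
    rw [e0]
    obtain ⟨i0, hi0⟩ : ∃ i, σ i ≠ i := by
      by_contra hcon
      push Not at hcon
      exact hne (Equiv.ext hcon)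
    set j0 := σ i0 with hj0
    have hj : σ j0 ≠ j0 := by
      intro hh
      exact hi0 (σ.injective hh)
    have hij : i0 ≠ j0 := fun hh => hi0 hh.symm
    have hle1 : ∀ i, |sM u (σ i) i| ≤ 1 := fun i => sK_abs _
    have e1 : ∏ i, |sM u (σ i) i| ≤ |sM u (σ i0) i0| * |sM u (σ j0) j0| := by
      rw [← Finset.prod_sdiff (Finset.subset_univ ({i0, j0} : Finset (Fin (m + 1))))]
      rw [Finset.prod_pair hij]
      have : ∏ x ∈ Finset.univ \ {i0, j0}, |sM u (σ x) x| ≤ 1 :=
        Finset.prod_le_one (fun i _ => abs_nonneg _) fun i _ => hle1 i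
      exact mul_le_of_le_one_left (by positivity) this
    have e2 : |sM u (σ i0) i0| * |sM u (σ j0) j0| ≤ (sK (v j0 - v i0) ^ 2 + sK (v (σ j0) - v j0) ^ 2) / 2 := by
      rw [hM, hM, ← hj0]
      nlinarith [sq_nonneg (|sK (v j0 - v i0)| - |sK (v (σ j0) - v j0)|), sq_abs (sK (v j0 - v i0)),
        sq_abs (sK (v (σ j0) - v j0))]
    have e3 : sK (v j0 - v i0) ^ 2 ≤ sB u := (sK_sq _).trans (pair_le v j0 i0 hij.symm)
    have e4 : sK (v (σ j0) - v j0) ^ 2 ≤ sB u := (sK_sq _).trans (pair_le v (σ j0) j0 hj)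
    linarith
  calc ∑ σ ∈ (Finset.univ : Finset (Equiv.Perm (Fin (m + 1)))).erase 1, |Equiv.Perm.sign σ • ∏ i, sM u (σ i) i|
      ≤ ∑ _σ ∈ (Finset.univ : Finset (Equiv.Perm (Fin (m + 1)))).erase 1, sB u := Finset.sum_le_sum h2
    _ ≤ ∑ _σ : Equiv.Perm (Fin (m + 1)), sB u :=
        Finset.sum_le_sum_of_subset_of_nonneg (Finset.erase_subset _ _) fun _ _ _ => hB0
    _ = ((m + 1).factorial : ℝ) * sB u := by
        rw [Finset.sum_const, nsmul_eq_mul, Finset.card_univ, Fintype.card_perm, Fintype.card_fin]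

theorem pair_int {n : ℕ} (i j : Fin (n + 2)) (hij : i ≠ j) (α β : Fin (n + 1) → ℝ) (A : ℝ)
    (h : ∀ i, -A ≤ α i ∧ α i ≤ β i ∧ β i ≤ A) :
    ∫ u in Icc α β, (2 * (1 + ((Fin.snoc u 0 : Fin (n + 2) → ℝ) i - (Fin.snoc u 0 : Fin (n + 2) → ℝ) j) ^ 2)⁻¹) ≤
      2 * Real.pi * (2 * A) ^ n := by
  have main : ∀ (a : Fin (n + 1)) (j : Fin (n + 2)), a.castSucc ≠ j →
      ∫ u in Icc α β, (2 * (1 + ((Fin.snoc u 0 : Fin (n + 2) → ℝ) a.castSucc -
        (Fin.snoc u 0 : Fin (n + 2) → ℝ) j) ^ 2)⁻¹) ≤ 2 * Real.pi * (2 * A) ^ n := by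
    intro a j haj
    induction j using Fin.lastCases with
    | last =>
      have := int_le a α β A h (fun _ => 0) continuous_const
      simpa using this
    | cast b =>
      have hab : b ≠ a := fun hh => haj (by rw [hh])
      obtain ⟨b', hb'⟩ := Fin.exists_succAbove_eq hab
      have := int_le a α β A h (fun y => y b') (continuous_apply b')
      simpa [hb'] using this
  induction i using Fin.lastCases with
  | last =>
    induction j using Fin.lastCases with
    | last => exact absurd rfl hij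
    | cast b =>
      have := main b (Fin.last _) hij.symm
      have e : ∀ u : Fin (n + 1) → ℝ, ((Fin.snoc u 0 : Fin (n + 2) → ℝ) (Fin.last _) -
          (Fin.snoc u 0 : Fin (n + 2) → ℝ) b.castSucc) ^ 2 = ((Fin.snoc u 0 : Fin (n + 2) → ℝ) b.castSucc -
          (Fin.snoc u 0 : Fin (n + 2) → ℝ) (Fin.last _)) ^ 2 := fun u => by ring
      simp_rw [e]
      exact this
  | cast a => exact main a j hij

theorem snoc_cont {m : ℕ} (i : Fin (m + 1)) : Continuous fun u : Fin m → ℝ => (Fin.snoc u 0 : Fin (m + 1) → ℝ) i := by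
  induction i using Fin.lastCases with
  | last => simpa using continuous_const
  | cast a => simpa using continuous_apply a

theorem pB_cont {m : ℕ} (i j : Fin (m + 1)) : Continuous fun u : Fin m → ℝ => if i = j then 0 else
    2 * (1 + ((Fin.snoc u 0 : Fin (m + 1) → ℝ) i - (Fin.snoc u 0 : Fin (m + 1) → ℝ) j) ^ 2)⁻¹ := by
  split_ifs
  · exact continuous_const
  · refine continuous_const.mul (Continuous.inv₀ ?_ fun u => by positivity)
    exact continuous_const.add (((snoc_cont i).sub (snoc_cont j)).pow 2)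

theorem sB_cont {m : ℕ} : Continuous fun u : Fin m → ℝ => sB u := by
  unfold sB
  exact continuous_finsetSum _ fun i _ => continuous_finsetSum _ fun j _ => pB_cont i j

theorem sM_cont {m : ℕ} : Continuous fun u : Fin m → ℝ => (sM u).det := by
  refine Continuous.matrix_det ?_
  refine continuous_matrix fun i j => ?_
  exact sK_cont.comp ((snoc_cont i).sub (snoc_cont j))

/-- the integral of the determinant over a box in `[-A, A]^m` is its volume up to `O(A^(m-1))` -/
theorem det_int {m : ℕ} (hm : 1 ≤ m) (α β : Fin m → ℝ) (A : ℝ) (h : ∀ i, -A ≤ α i ∧ α i ≤ β i ∧ β i ≤ A) :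
    |(∫ u in Icc α β, (sM u).det) - ∏ i, (β i - α i)| ≤
      ((m + 1).factorial : ℝ) * ((m + 1) ^ 2 * (2 * Real.pi * (2 * A) ^ (m - 1))) := by
  obtain ⟨n, rfl⟩ : ∃ n, m = n + 1 := ⟨m - 1, by omega⟩
  have hA : 0 ≤ A := by
    have := h 0; linarith
  have hle : α ≤ β := fun i => (h i).2.1
  have i1 : IntegrableOn (fun u : Fin (n + 1) → ℝ => (sM u).det) (Icc α β) :=
    sM_cont.continuousOn.integrableOn_compact isCompact_Icc
  have i2 : IntegrableOn (fun _ : Fin (n + 1) → ℝ => (1 : ℝ)) (Icc α β) :=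
    continuous_const.continuousOn.integrableOn_compact isCompact_Icc
  have i3 : IntegrableOn (fun u : Fin (n + 1) → ℝ => sB u) (Icc α β) :=
    sB_cont.continuousOn.integrableOn_compact isCompact_Icc
  have e1 : (∏ i, (β i - α i)) = ∫ _u in Icc α β, (1 : ℝ) := by
    rw [setIntegral_const, smul_eq_mul, mul_one]
    rw [Measure.real, Real.volume_Icc_pi_toReal hle]
  rw [e1, ← integral_sub i1 i2]
  calc |∫ u in Icc α β, ((sM u).det - 1)| ≤ ∫ u in Icc α β, |(sM u).det - 1| := abs_integral_le_integral_abs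
    _ ≤ ∫ u in Icc α β, ((n + 1 + 1).factorial : ℝ) * sB u := by
        refine integral_mono (i1.sub i2).abs (i3.const_mul _) fun u => det_le u
    _ = ((n + 1 + 1).factorial : ℝ) * ∫ u in Icc α β, sB u := integral_const_mul _ _
    _ ≤ ((n + 1 + 1).factorial : ℝ) * (((n + 1 : ℕ) + 1) ^ 2 * (2 * Real.pi * (2 * A) ^ n)) := by
        refine mul_le_mul_of_nonneg_left ?_ (by positivity)
        unfold sB
        rw [integral_finsetSum]
        · calc ∑ i : Fin (n + 1 + 1), ∫ u in Icc α β, ∑ j : Fin (n + 1 + 1), (if i = j then 0 else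
                2 * (1 + ((Fin.snoc u 0 : Fin (n + 2) → ℝ) i - (Fin.snoc u 0 : Fin (n + 2) → ℝ) j) ^ 2)⁻¹)
              ≤ ∑ _i : Fin (n + 1 + 1), ∑ _j : Fin (n + 1 + 1), 2 * Real.pi * (2 * A) ^ n := by
                refine Finset.sum_le_sum fun i _ => ?_
                rw [integral_finsetSum]
                · refine Finset.sum_le_sum fun j _ => ?_
                  split_ifs with hij
                  · simp; positivity
                  · exact pair_int i j hij α β A h
                · intro j _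
                  exact (pB_cont i j).continuousOn.integrableOn_compact isCompact_Icc
            _ = _ := by
                simp only [Finset.sum_const, Finset.card_univ, Fintype.card_fin, nsmul_eq_mul]
                push_cast; ring
        · intro i _
          exact (continuous_finsetSum _ fun j _ => pB_cont i j).continuousOn.integrableOn_compact isCompact_Icc

end

end Pool.Agent.U398.MV
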