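import Pool.Agent.U398.MV.CovB
import Pool.Agent.U398.MV.Fin
import Pool.Agent.U20.MV2.RHO
import Pool.Agent.U881.MV2.RQ
import Pool.Agent.U358.MV2.IDS
import Pool.Agent.U125.MV2.PRS
import Pool.Agent.U94.MV2.VCS
import Pool.Agent.U338.MV2.MTS
import Pool.Agent.U606.MV2.TG
import Pool.Agent.U84.MV2.SC
import Pool.Agent.U114.MV2.ENS
import Pool.Agent.U503.MV2.PPS
import Pool.Agent.U946.MV2.AB

set_option autoImplicit false

/-! # Project MV2: assembly -/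

namespace Pool.Agent.U398.MV

open MeasureTheory Filter Topology Set Complex

noncomputable section

theorem hRQ : S_RQ := Pool.Agent.U881.MV2.RQ.t_RQ

theorem hIDS : S_IDS := Pool.Agent.U358.MV2.IDS.t_IDS Pool.Agent.U20.MV2.RHO.t_RHO hRQ

theorem hVCS : S_VCS := Pool.Agent.U94.MV2.VCS.t_VCS Pool.Agent.U125.MV2.PRS.t_PRS
  Pool.Agent.U139.MV.PP.t_PP Pool.Agent.U503.MV2.PPS.t_PPS

theorem hMTS : S_MTS := Pool.Agent.U338.MV2.MTS.t_MTS hRQ hVCS Pool.Agent.U139.MV.PP.t_PP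
  Pool.Agent.U503.MV2.PPS.t_PPS

theorem hSC : S_SC := Pool.Agent.U84.MV2.t_SC Pool.Agent.U606.MV2.t_TG

/-- the covariance of `S(t)` -/
theorem cov2 (hSB : S_SB) : ∃ C T0 : ℝ, 0 < C ∧ 10 ≤ T0 ∧ ∀ T : ℝ, T0 ≤ T → ∀ h : ℝ, 0 ≤ h →
    h ≤ T / (Real.log T) ^ 2 →
      |1 / T * (∫ t in T..(2 * T), pS t * pS (t + h)) - 1 / (2 * Real.pi ^ 2) *
        Real.log ‖riemannZeta (((1 + 1 / Real.log T : ℝ) : ℂ) + h * I)‖| ≤ C :=
  cov hRQ hIDS (Pool.Agent.U671.MV.ID.t_ID Pool.Agent.U460.MV.R.t_R) Pool.Agent.U256.MV.OUT.t_OUT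
    Pool.Agent.U139.MV.PP.t_PP Pool.Agent.U503.MV2.PPS.t_PPS Pool.Agent.U114.MV2.ENS.t_ENS hMTS
    Pool.Agent.U114.MV.HI.t_HI Pool.Agent.U780.MV.PB.t_PB Pool.Agent.U946.MV2.t_AB hSB hSC

end

end Pool.Agent.U398.MV
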