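import Pool.Agent.U398.MV.Fin2

set_option autoImplicit false

/-! # Project MV2: integrability of the products -/

namespace Pool.Agent.U398.MV

open MeasureTheory Filter Topology Set Complex

noncomputable section

/-- the products are integrable -/
theorem prod_int (hSB : S_SB) : ∃ T0 : ℝ, 10 ≤ T0 ∧ ∀ T : ℝ, T0 ≤ T → ∀ h : ℝ, 0 ≤ h →
    h ≤ T / (Real.log T) ^ 2 → IntervalIntegrable (fun t => pS t * pS (t + h)) volume T (2 * T) := by
  obtain ⟨hmeas, C, T0, hC, hT0, H⟩ := hSB
  refine ⟨T0, hT0, fun T hT h h0 h1 => ?_⟩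
  have hT10 : 10 ≤ T := hT0.trans hT
  have hTp : 0 < T := by linarith
  have hL1 : 1 ≤ Real.log T := by
    rw [Real.le_log_iff_exp_le hTp]
    linarith [Real.exp_one_lt_d9]
  have hhT : h ≤ T := by
    refine h1.trans ?_
    rw [div_le_iff₀ (by positivity)]
    have h2 : 1 ≤ Real.log T ^ 2 := by nlinarith
    nlinarith
  obtain ⟨hi, -, -⟩ := H T hT
  have hA : IntegrableOn (fun t => pS t ^ 4) (Icc T (2 * T)) :=
    hi.mono_set (Icc_subset_Icc (by linarith) (by linarith))
  have hB : IntegrableOn (fun t => pS (t + h) ^ 4) (Icc T (2 * T)) := by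
    have h2 : IntegrableOn (fun t => pS t ^ 4) (Icc (T + h) (2 * T + h)) :=
      hi.mono_set (Icc_subset_Icc (by linarith) (by linarith))
    have h3 := (measurePreserving_add_right (volume : Measure ℝ) h).integrableOn_comp_preimage
      (measurableEmbedding_addRight h) (f := fun t => pS t ^ 4) (s := Icc (T + h) (2 * T + h))
    have h4 : (fun x : ℝ => x + h) ⁻¹' Icc (T + h) (2 * T + h) = Icc T (2 * T) := by
      ext x
      simp only [mem_preimage, mem_Icc]
      constructor
      · rintro ⟨a, b⟩; constructor <;> linarith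
      · rintro ⟨a, b⟩; constructor <;> linarith
    rw [h4] at h3
    exact h3.2 h2
  rw [intervalIntegrable_iff_integrableOn_Icc_of_le (by linarith)]
  have hone : IntegrableOn (fun _ : ℝ => (1 : ℝ)) (Icc T (2 * T)) := by
    rw [integrableOn_const_iff]
    right
    exact measure_Icc_lt_top
  have hm2 : AEStronglyMeasurable (fun t => pS (t + h)) volume :=
    hmeas.comp_measurePreserving (measurePreserving_add_right (volume : Measure ℝ) h)
  refine Integrable.mono' ((hA.add hB).add hone) ?_ ?_
  · exact (hmeas.mul hm2).restrict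
  · refine Eventually.of_forall fun t => ?_
    simp only [Pi.add_apply]
    rw [Real.norm_eq_abs, abs_le]
    constructor
    · nlinarith [sq_nonneg (pS t + pS (t + h)), sq_nonneg (pS t ^ 2 - 1 / 2), sq_nonneg (pS (t + h) ^ 2 - 1 / 2)]
    · nlinarith [sq_nonneg (pS t - pS (t + h)), sq_nonneg (pS t ^ 2 - 1 / 2), sq_nonneg (pS (t + h) ^ 2 - 1 / 2)]

end

end Pool.Agent.U398.MV
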