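import Pool.Agent.U398.MV.Stm2

set_option autoImplicit false

/-!
# Project MV3: ALL MOMENTS of all linear forms in shifts of `S(t)`, unconditionally, with the error
term which is classically known only under RH

THEOREM (unconditional). For every `k` there are `C, T0` such that for all `T ≥ T0`, all real
`a_1, ..., a_n` with `∑ |a_i| ≤ 1` and shifts `0 ≤ h_i ≤ T / (log T)²`, with
`F(t) = ∑ a_i S(t + h_i)` and `V = ∑_{i,j} a_i a_j (1/(2π²)) log |ζ(1 + 1/log T + i(h_i - h_j))|`: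
`|(1/T) ∫_T^{2T} F^{2k+2} - (2k+2)!/(2^{k+1} (k+1)!) V^{k+1}| ≤ C (1 + |V|)^k` and
`|(1/T) ∫_T^{2T} F^{2k+1}| ≤ C (1 + |V|)^k`.
(`n = 1`: Selberg's moments with error `(log log T)^{k}` instead of `(log log T)^{k+1/2}`; `n = 2`: all
moments of the number of zeros in short intervals; polarisation: the joint moments.)

Statements of the packages. Every `S_X` is a `Prop`; package `X` proves `theorem t_X : ... → S_X`.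
-/

namespace Pool.Agent.U398.MV

open MeasureTheory Filter Topology Set Complex

noncomputable section

/-- polynomials over the primes -/
def Ap (X : ℕ) (α : ℕ → ℂ) (t : ℝ) : ℂ :=
  ∑ p ∈ (Finset.Icc 1 X).filter Nat.Prime, α p * (p : ℂ) ^ (-(1 / 2 + t * I))

/-- `∑ |α_p|² / p` -/
def Vq (X : ℕ) (α : ℕ → ℂ) : ℝ := ∑ p ∈ (Finset.Icc 1 X).filter Nat.Prime, ‖α p‖ ^ 2 / p

/-- the prime sum approximating `S(t)` -/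
def Pp (X : ℕ) (t : ℝ) : ℝ := 1 / Real.pi * (Ap X (fun _ => 1) t).im

/-- the variance of `∑ a_i S(t + h_i)` -/
def Vh {n : ℕ} (T : ℝ) (a h : Fin n → ℝ) : ℝ :=
  ∑ i, ∑ j, a i * a j * (1 / (2 * Real.pi ^ 2) *
    Real.log ‖riemannZeta (((1 + 1 / Real.log T : ℝ) : ℂ) + (h i - h j : ℝ) * I)‖)

/-- THE THEOREM -/
def S_TH3 : Prop := ∀ k : ℕ, ∃ C T0 : ℝ, 0 < C ∧ 10 ≤ T0 ∧ ∀ T : ℝ, T0 ≤ T →
  ∀ (n : ℕ) (a h : Fin n → ℝ), (∑ i, |a i|) ≤ 1 → (∀ i, 0 ≤ h i ∧ h i ≤ T / (Real.log T) ^ 2) →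
  |1 / T * (∫ t in T..(2 * T), (∑ i, a i * pS (t + h i)) ^ (2 * k + 2)) -
      ((2 * k + 2).factorial : ℝ) / (2 ^ (k + 1) * ((k + 1).factorial : ℝ)) * Vh T a h ^ (k + 1)| ≤
      C * (1 + |Vh T a h|) ^ k ∧
  |1 / T * (∫ t in T..(2 * T), (∑ i, a i * pS (t + h i)) ^ (2 * k + 1))| ≤ C * (1 + |Vh T a h|) ^ k

/-- package PM: moments and powers of prime polynomials. PROOF. `(Im A)^m = (2i)^{-m} ∑_j C(m,j) (-1)^{m-j} A^j Ā^{m-j}`;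
`A^j = ∑_n c_j(n) n^{-1/2-it}`, `c_j` = sum over the ordered prime tuples with product `n` (so `Ω(n) = j`); off-diagonal terms of
`∫ A^j Ā^l` are `≤ 2 / |log (a/b)| ≤ 2 X^{2k+1}` times the coefficients, total `≤ C T^{1/2}`; the diagonal exists only for `j = l`:
`∑_n |c_j(n)|²/n = j! Vq^j - (terms with a repeated prime)`, `0 ≤ (terms) ≤ j! C(j,2) Vq^{j-2} ∑ 1/p²`. -/
def S_PM : Prop := ∀ k : ℕ, ∃ C : ℝ, 0 < C ∧ ∀ (T : ℝ) (X : ℕ) (α : ℕ → ℂ), 16 ≤ T →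
  (X : ℝ) ^ (8 * k + 8) ≤ T → (∀ p, ‖α p‖ ≤ 1) →
  |(∫ t in T..(2 * T), (Ap X α t).im ^ (2 * k)) -
    T * (((2 * k).factorial : ℝ) / ((k.factorial : ℝ) * 4 ^ k)) * Vq X α ^ k| ≤
      C * T * (1 + Vq X α) ^ (k - 1) ∧
  |∫ t in T..(2 * T), (Ap X α t).im ^ (2 * k + 1)| ≤ C * T ∧
  ∀ j : ℕ, j ≤ k → ∃ b : ℕ → ℂ,
    (∀ t : ℝ, Ap X α t ^ j = ∑ n ∈ Finset.Icc 1 (X ^ j), b n * (n : ℂ) ^ (-(1 / 2 + t * I))) ∧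
    ∑ n ∈ Finset.Icc 1 (X ^ j), ‖b n‖ ^ 2 / n ≤ (j.factorial : ℝ) * Vq X α ^ j

/-- package SPB: prime tuples in a window. PROOF. Some `log f_i ≥ (|u| - 1)/(j+1)`; sum over `i`, fix the other coordinates (sum
`V^j`), the `i`-th prime satisfies `|log p - y| ≤ 1` for some `y` and `log p ≥ (|u| - 1)/(j + 1)`, and
`∑_{|log p - y| ≤ 1} 1/p ≤ C/(1 + |y|)` (Chebyshev / Mertens). -/
def S_SPB : Prop := ∀ j : ℕ, ∃ C : ℝ, 0 < C ∧ ∀ (X : ℕ) (w : ℕ → ℝ), (∀ p, 0 ≤ w p ∧ w p ≤ 1) →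
  ∀ ε : Fin (j + 1) → ℝ, (∀ i, ε i = 1 ∨ ε i = -1) → ∀ u : ℝ,
  ∑ f ∈ Fintype.piFinset (fun _ : Fin (j + 1) => (Finset.Icc 1 X).filter Nat.Prime),
    (if |(∑ i, ε i * Real.log (f i)) - u| ≤ 1 then ∏ i, w (f i) / (f i : ℝ) else 0) ≤
    C * (∑ p ∈ (Finset.Icc 1 X).filter Nat.Prime, w p / p) ^ j / (1 + |u|)

/-- package SP (from `S_SPB`): the spectral density of odd powers. PROOF. `A^j Ā^l`, `j + l = m = 2k+1`: with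
`A^j = ∑ c_j(a) a^{-1/2-it}`, `|c_j(a)| ≤ j! |α(a)| 1[Ω(a) = j, a is X-smooth]`, `α` completely multiplicative. Write `a = d a'`,
`b = d b'`, `(a', b') = 1`: the coefficient of `(a'/b')^{-it}` is `≤ j! l! |α(a') α(b')| (a' b')^{-1/2} ∑_{Ω(d) = i} |α(d)|²/d ≤
j! l! |α(a') α(b')| (a'b')^{-1/2} Vq^i`, `i = j - Ω(a')`. Square, sum over the window (bound the sum over `a', b'` by the sum over ordered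
prime tuples, `S_SPB` with `r + s = Ω(a') + Ω(b')` coordinates, `r + s ≥ 1` as `m` is odd): `Vq^{2i} Vq^{r+s-1} = Vq^{2k}`. -/
def S_SP : Prop := ∀ k : ℕ, ∃ C : ℝ, 1 ≤ C ∧ ∀ (X : ℕ) (α : ℕ → ℂ), (∀ p, ‖α p‖ ≤ 1) →
  ∃ (Λ : Finset (ℕ × ℕ)) (g : ℕ × ℕ → ℂ),
    (∀ q ∈ Λ, 1 ≤ q.1 ∧ q.1 ≤ X ^ (2 * k + 1) ∧ 1 ≤ q.2 ∧ q.2 ≤ X ^ (2 * k + 1) ∧
      Nat.Coprime q.1 q.2) ∧
    (∀ t : ℝ, (((Ap X α t).im ^ (2 * k + 1) : ℝ) : ℂ) =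
      ∑ q ∈ Λ, g q * cexp (-(I * t * ((Real.log q.1 - Real.log q.2 : ℝ) : ℂ)))) ∧
    (∑ q ∈ Λ, ‖g q‖ ≤ (X : ℝ) ^ (2 * k + 1)) ∧
    ∀ u : ℝ, ∑ q ∈ Λ, (if |(Real.log q.1 - Real.log q.2) - u| ≤ 1 then ‖g q‖ ^ 2 else 0) ≤
      C * Vq X α ^ (2 * k) / (1 + |u|)

/-- real trigonometric polynomials with separated small frequencies and spectral density
`≤ K² / (1 + |u|)` -/
structure Trig {ι : Type} (T K : ℝ) (Λ : Finset ι) (lam : ι → ℝ) (g : ι → ℂ) (G : ℝ → ℝ) : Prop where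
  hK : 1 ≤ K
  rep : ∀ t : ℝ, (G t : ℂ) = ∑ i ∈ Λ, g i * cexp (-(I * t * (lam i : ℂ)))
  small : ∀ i ∈ Λ, |lam i| ≤ Real.log T / 8
  sep : ∀ i ∈ Λ, ∀ j ∈ Λ, i ≠ j → T ^ (-(1 / 8) : ℝ) ≤ |lam i - lam j|
  mass : ∑ i ∈ Λ, ‖g i‖ ≤ T ^ (1 / 8 : ℝ)
  dens : ∀ u : ℝ, ∑ i ∈ Λ, (if |lam i - u| ≤ 1 then ‖g i‖ ^ 2 else 0) ≤ K ^ 2 / (1 + |u|)

/-- local transform of `f(y) dy` on `[a, b]` -/
def Wg (f : ℝ → ℝ) (a b u t : ℝ) : ℂ :=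
  ∫ y in a..b, (f y : ℂ) * (cexp (I * u * y) * cexp (-((y : ℂ) - t) ^ 2 / 2))

/-- package VG: bounds for trigonometric polynomials. PROOF. `G' = ∑ (-i lam) g e^{-i lam t}`. For `t ∈ J = [T+L, 2T-L]` the integral over
`ℝ` is `∑ (-i lam_i) g_i √(2π) e^{i(u - lam_i)t} e^{-(u - lam_i)²/2}`, the tails are `≤ T^{-10}`. Mean value:
`∫_J |∑ c_i e^{i(u-lam_i)t}|² ≤ T ∑ |c_i|² + (2/sep) (∑ |c_i|)²`, and `∑ lam² |g|² e^{-(u-lam)²} ≤ C K² (1+u)` from `dens` on unit windows.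
For `u ≥ L/2`, `|u - lam| ≥ 3L/8`. On `Jᶜ`: `|Wg| ≤ sup|G'| ∫_a^b e^{-(y-t)²/2} dy`, `sup |G'| ≤ L T^{1/8}`. Short averages multiply `g_i` by
`sinc(lam_i/2)`. -/
def S_VG : Prop := ∃ C T0 : ℝ, 0 < C ∧ 100 ≤ T0 ∧ ∀ T : ℝ, T0 ≤ T →
  ∀ (ι : Type) (K : ℝ) (Λ : Finset ι) (lam : ι → ℝ) (g : ι → ℂ) (G : ℝ → ℝ), Trig T K Λ lam g G →
  ∀ a b : ℝ, T ≤ a → a ≤ T + 1 → 2 * T - 1 ≤ b → b ≤ 2 * T →
  ContDiff ℝ 2 G ∧ (∀ t, |G t| ≤ T ^ (1 / 8 : ℝ)) ∧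
  (Continuous fun p : ℝ × ℝ => Wg (deriv G) a b p.1 p.2) ∧
  (∀ u, Integrable fun t : ℝ => ‖Wg (deriv G) a b u t‖ ^ 2) ∧
  (∀ u, 0 ≤ u → u ≤ Real.log T / 2 →
    (∫ t in (T + Real.log T)..(2 * T - Real.log T), ‖Wg (deriv G) a b u t‖ ^ 2) ≤
      C * K ^ 2 * T * (1 + u)) ∧
  (∀ u, Real.log T / 2 ≤ u →
    (∫ t in (T + Real.log T)..(2 * T - Real.log T), ‖Wg (deriv G) a b u t‖ ^ 2) ≤ C) ∧
  (∀ u, (∫ t in (Icc (T + Real.log T) (2 * T - Real.log T))ᶜ, ‖Wg (deriv G) a b u t‖ ^ 2) ≤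
    C * T ^ (1 / 2 : ℝ)) ∧
  (∫ t in T..(2 * T), (∫ y in (t - 1 / 2)..(t + 1 / 2), G y) ^ 2) ≤ C * K ^ 2 * T ∧
  (∀ t, a + 1 ≤ t → t ≤ b - 1 → (∫ y in a..b, deriv G y * gg (t - y)) =
    G t - ∫ y in (-1 : ℝ)..1, (1 - |y|) * G (t - y)) ∧
  (∀ t, |∫ y in a..b, deriv G y * gg (t - y)| ≤ C * T ^ (1 / 8 : ℝ)) ∧
  (∀ t, t < T - 2 ∨ 2 * T + 2 < t → (∫ y in a..b, deriv G y * gg (t - y)) = 0)

/-- package IDB: the bilinear Plancherel identity (from `S_RHO`, `S_RQ`). PROOF. As `S_IDS` with `s = 0` (files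
`Pool.Agent.U358.MV2.IDS`, `Pool.Agent.U671.MV.ID`). -/
def S_IDB : Prop := ∀ (ι : Type) (S : Finset ι) (w x : ι → ℝ) (lam a b : ℝ) (f g : ℝ → ℝ), a ≤ b →
  Continuous f → Continuous g →
  (∀ u : ℝ, (∫ t : ℝ, (Vf S w x lam a b (-u) t - Wg f a b (-u) t) *
      (starRingEnd ℂ) (Wg g a b (-u) t)).re =
    (∫ t : ℝ, (Vf S w x lam a b u t - Wg f a b u t) * (starRingEnd ℂ) (Wg g a b u t)).re) ∧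
  Integrable (fun u : ℝ => qq u *
    (∫ t : ℝ, (Vf S w x lam a b u t - Wg f a b u t) * (starRingEnd ℂ) (Wg g a b u t)).re) ∧
  (∫ t : ℝ, (Lf S w x lam a b gg t - ∫ y in a..b, f y * gg (t - y)) *
      (∫ y in a..b, g y * gg (t - y))) =
    1 / Real.sqrt Real.pi * ∫ u : ℝ, qq u *
      (∫ t : ℝ, (Vf S w x lam a b u t - Wg f a b u t) * (starRingEnd ℂ) (Wg g a b u t)).re

/-- the prime side without the primes up to `X` -/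
def Pq (X : ℕ) (u t : ℝ) : ℂ :=
  Pf u t - ∑ p ∈ (Finset.Icc 1 X).filter Nat.Prime, ((Real.log p / Real.sqrt p : ℝ) : ℂ) *
    (cexp (I * t * (u - Real.log p)) * Real.exp (-(u - Real.log p) ^ 2 / 2))

/-- package PPX: its mean square. PROOF. As `S_PP` (file `Pool.Agent.U139.MV.PP`), whose proof works for all coefficients bounded by
`Λ(n)`: off-diagonal `O(T)`; the diagonal is `T` times the sum of `Λ(n)²/n e^{-(u - log n)²}` over the higher prime powers (`≤ C`) and the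
primes `> X` (`≤ C (1 + u)`, and `≤ C` for `u ≤ (log X)/2`). -/
def S_PPX : Prop := ∃ C T0 : ℝ, 0 < C ∧ 100 ≤ T0 ∧
  (∀ X : ℕ, Continuous fun p : ℝ × ℝ => Pq X p.1 p.2) ∧
  ∀ T : ℝ, T0 ≤ T → ∀ X : ℕ, 2 ≤ X → ∀ u : ℝ, 0 ≤ u → u ≤ Real.log T / 2 →
    (∫ t in (T + Real.log T)..(2 * T - Real.log T), ‖Pq X u t‖ ^ 2) ≤
      C * T * (1 + if u ≤ Real.log X / 2 then 0 else u)

/-- package CE: the cross energy (abstract). PROOF. `|∫_t W conj G| ≤ ‖W‖_J ‖G‖_J + ‖W‖_{Jᶜ} ‖G‖_{Jᶜ}` (Cauchy-Schwarz). The part over `Jᶜ` is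
`≤ C1 T^{1/2}`. For `u ≥ L/2`: `‖W‖_J ‖G‖_J ≤ C1 (T L²)^{1/2}`, weight `≤ u^{-2}`. For `u ≤ L/2`: `‖G‖_J ≤ C1 K (T(1+u))^{1/2}` and
`‖W‖_J ≤ ‖E‖ + ‖Q‖ + ‖D‖`: `∫ min(1,u^{-2}) (1+u)^{1/2} (e^{-u} + 1/L) < ∞`; `Q`: `∫ min(1,u^{-2})(1+u)^{1/2} du < ∞` and
`∫_{δL}^{L/2} u^{-2} (1+u) du ≤ C`; `D`: dyadic blocks, `∑_U U^{-3/2} U^{1/2} (U⁴ T/L²)^{1/2} ≤ C T^{1/2}`. -/
def S_CE : Prop := ∀ C1 δ : ℝ, 1 ≤ C1 → 0 < δ → ∃ C : ℝ, 0 < C ∧ ∀ T L K : ℝ, 4 ≤ L → L ^ 4 ≤ T →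
  1 ≤ K → ∀ (W G Q D : ℝ → ℝ → ℂ) (r : ℝ → ℝ),
  (Continuous fun p : ℝ × ℝ => W p.1 p.2) → (Continuous fun p : ℝ × ℝ => G p.1 p.2) →
  (Continuous fun p : ℝ × ℝ => Q p.1 p.2) → (Continuous fun p : ℝ × ℝ => D p.1 p.2) →
  Continuous r → (∀ u, |r u| ≤ 1) → (∀ u, |r u| * u ^ 2 ≤ 1) →
  (∀ u : ℝ, Integrable (fun t : ℝ => ‖W u t‖ ^ 2)) → (∀ u : ℝ, Integrable (fun t : ℝ => ‖G u t‖ ^ 2)) →
  (∀ u, 0 ≤ u → ∫ t in (Icc (T + L) (2 * T - L))ᶜ, ‖W u t‖ ^ 2 ≤ C1 * T) →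
  (∀ u, 0 ≤ u → ∫ t in (Icc (T + L) (2 * T - L))ᶜ, ‖G u t‖ ^ 2 ≤ C1 * T) →
  (∀ u, 0 ≤ u → ∫ t in (T + L)..(2 * T - L), ‖W u t‖ ^ 2 ≤ C1 * T * L ^ 4) →
  (∀ u, L / 2 ≤ u → ∫ t in (T + L)..(2 * T - L), ‖G u t‖ ^ 2 ≤ C1) →
  (∀ u, 0 ≤ u → u ≤ L / 2 → ∫ t in (T + L)..(2 * T - L), ‖G u t‖ ^ 2 ≤ C1 * K ^ 2 * T * (1 + u)) →
  (∀ u, 0 ≤ u → u ≤ L / 2 → ∀ t ∈ Icc (T + L) (2 * T - L),
    ‖W u t + ((1 / Real.sqrt (2 * Real.pi) : ℝ) : ℂ) * Q u t + D u t‖ ≤ C1 * (Real.exp (-u) + 1 / L)) →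
  (∀ u, 0 ≤ u → u ≤ L / 2 → ∫ t in (T + L)..(2 * T - L), ‖Q u t‖ ^ 2 ≤
    C1 * T * (1 + if u ≤ δ * L then 0 else u)) →
  (∀ U, 1 ≤ U → U ≤ L / 2 →
    ∫ u in (0 : ℝ)..U, ∫ t in (T + L)..(2 * T - L), ‖D u t‖ ^ 2 ≤ C1 * U ^ 4 * T / L ^ 2) →
  Integrable (fun u : ℝ => r u * (∫ t : ℝ, W u t * (starRingEnd ℂ) (G u t)).re) →
  |∫ u in Ioi (0 : ℝ), r u * (∫ t : ℝ, W u t * (starRingEnd ℂ) (G u t)).re| ≤ C * K * T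

/-- package ABB: from local parts to the functions (abstract; compare `S_AB`, proved in `Pool.Agent.U946.MV2.AB`). PROOF. With
`s = σ 1_[T,2T]`, `g = G 1_[T,2T]`, `k1 = 1_[-1/2,1/2]`, `k = k1*k1`: `<s,g> - <s - s*k, g - g*k> = 2 <s*k1, g*k1> - <s*k1, (g*k1)*k>`,
bounded by `3 ‖s*k1‖ ‖g*k1‖ ≤ 3 C1 K T + edges`; `s - s*k = A + O(1/T)` and `g - g*k = B` on `[T+3, 2T-3]`; all edges cost
`≤ C T^{3/4}` (`|G|, |B|, |A| ≤ C1 T^{1/8}`, `∫_edge σ² ≤ C (∫σ⁴)^{1/2}`). -/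
def S_ABB : Prop := ∀ C1 : ℝ, 1 ≤ C1 → ∃ C T0 : ℝ, 0 < C ∧ ∀ T : ℝ, T0 ≤ T → ∀ K : ℝ, 1 ≤ K →
  ∀ σ A G B : ℝ → ℝ,
  AEStronglyMeasurable σ volume → IntegrableOn (fun t => σ t ^ 4) (Icc (T / 2) (3 * T)) →
  (∫ t in (T / 2)..(3 * T), σ t ^ 4) ≤ C1 * T →
  (∫ t in T..(2 * T), (∫ y in (t - 1 / 2)..(t + 1 / 2), σ y) ^ 2) ≤ C1 * T →
  (∀ᵐ t : ℝ, T + 3 ≤ t → t ≤ 2 * T - 3 →
    |σ t - (∫ y in (-1 : ℝ)..1, (1 - |y|) * σ (t - y)) - A t| ≤ C1 / T) →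
  Measurable A → (∀ t, |A t| ≤ C1 * T ^ (1 / 8 : ℝ)) → (∀ t, t < T - 2 ∨ 2 * T + 2 < t → A t = 0) →
  Continuous G → (∀ t, |G t| ≤ T ^ (1 / 8 : ℝ)) →
  (∫ t in T..(2 * T), (∫ y in (t - 1 / 2)..(t + 1 / 2), G y) ^ 2) ≤ C1 * K ^ 2 * T →
  (∀ t, T + 3 ≤ t → t ≤ 2 * T - 3 → B t = G t - ∫ y in (-1 : ℝ)..1, (1 - |y|) * G (t - y)) →
  Measurable B → (∀ t, |B t| ≤ C1 * T ^ (1 / 8 : ℝ)) → (∀ t, t < T - 2 ∨ 2 * T + 2 < t → B t = 0) →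
  |∫ t : ℝ, A t * B t| ≤ C1 * K * T →
  |∫ t in T..(2 * T), σ t * G t| ≤ C * K * T

/-- package EM (from the library `Pool.Agent.U761.SZ`, theorem `THS`): all moments of the error relative to every Dirichlet
polynomial. PROOF. `THS` for `aS`; `π pS = aS` almost everywhere (package SB of project MV2); `Im LE X t - Im Ap X 1 t` is
`Im ½ ∑_{p ≤ X} p^{-1-2it} + O(1)`, whose moments relative to `|B|²` are bounded (as the prime polynomials in the proof of `THS`). -/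
def S_EM : Prop := AEStronglyMeasurable pS volume ∧ ∀ m : ℕ, ∃ θ δ₀ : ℝ, 0 < θ ∧ 0 < δ₀ ∧
  ∀ δ : ℝ, 0 < δ → δ ≤ δ₀ → ∃ C T0 : ℝ, 0 < C ∧ 10 ≤ T0 ∧ ∀ T : ℝ, T0 ≤ T →
  ∀ N : ℕ, (N : ℝ) ≤ T ^ θ → ∀ b : ℕ → ℂ,
  IntervalIntegrable (fun t => |pS t - Pp ⌊T ^ δ⌋₊ t| ^ m *
    ‖∑ n ∈ Finset.Icc 1 N, b n * (n : ℂ) ^ (-(1 / 2 + t * I))‖ ^ 2) volume (T / 2) (4 * T) ∧
  (∫ t in (T / 2)..(4 * T), |pS t - Pp ⌊T ^ δ⌋₊ t| ^ m *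
    ‖∑ n ∈ Finset.Icc 1 N, b n * (n : ℂ) ^ (-(1 / 2 + t * I))‖ ^ 2) ≤
    C * T * ∑ n ∈ Finset.Icc 1 N, ‖b n‖ ^ 2 / n

/-- CRX, the cross theorem (assembled by helper398) -/
def S_CRX : Prop := ∀ k : ℕ, ∃ δ₀ : ℝ, 0 < δ₀ ∧ ∀ δ : ℝ, 0 < δ → δ ≤ δ₀ → ∃ C T0 : ℝ, 0 < C ∧
  10 ≤ T0 ∧ ∀ T : ℝ, T0 ≤ T → ∀ α : ℕ → ℂ, (∀ p, ‖α p‖ ≤ 1) →
  |∫ t in T..(2 * T), (pS t - Pp ⌊T ^ δ⌋₊ t) * (Ap ⌊T ^ δ⌋₊ α t).im ^ (2 * k + 1)| ≤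
    C * T * (1 + Vq ⌊T ^ δ⌋₊ α) ^ k

/-- package FIN3: `S_EM → S_PM → S_CRX → S_PRS → S_TH3`. PROOF. Choose one `δ` small enough for all; `X = ⌊T^δ⌋₊`.
`F = P + E`, `P = ∑ a_i Pp X (t + h_i) = (1/π) Im Ap X α t`, `α_p = ∑ a_i p^{-i h_i}`, `|α_p| ≤ 1`, `E = ∑ a_i (pS - Pp X)(t + h_i)`. Even
case, `m = 2k+2`: `|(x+y)^m - x^m - m x^{m-1} y| ≤ 2^m (x^{m-2} y² + y^m)`. `∫ P^m`: `S_PM`. `∫ P^{m-2} E²`: Jensen over the `a_i`, `S_EM` with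
`B = (Ap X α)^k` shifted by `h_i` (the shift multiplies `b_n` by a unimodular number), `∑ |b_n|²/n ≤ k! Vq^k`. `∫ E^m`: `S_EM` with `B = 1`. Cross
term: `∫_T^{2T} P^{2k+1} E = ∑ a_i ∫_{T+h_i}^{2T+h_i} P(t - h_i)^{2k+1} (pS - Pp X)(t) dt`, apply `S_CRX` to `α_p p^{i h_i}` on `[T, 2T]`; the two
edges of length `h_i ≤ T/L²` cost `≤ (T/L²)^{1/2} (∫_{T/2}^{4T} |Ap|^{4k+2} |pS - Pp|²)^{1/2} ≤ C T L^{-1} Vq^{k+1/2}`, and `Vq ≤ C log log T`.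
Odd case: `|(x+y)^m - x^m| ≤ 2^m (x^{m-1} |y| + |y|^m)`. Variance: `Vq X α = ∑ a_i a_j ∑_{p ≤ X} cos((h_i - h_j) log p)/p`, compare `X`
with `T` by `S_PRS` at `s = 0`, then `S_PRS` at `s = |h_i - h_j|`: `|Vq/(2π²) - Vh| ≤ C`. -/
def J_FIN3 : Prop := S_EM → S_PM → S_CRX → S_PRS → S_TH3

end

end Pool.Agent.U398.MV
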