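import Pool.Agent.U398.MV.CrxE
import Pool.Agent.U398.MV.Fin2
import Pool.Agent.U204.MV3.PW
import Pool.Agent.U473.MV3.CE
import Pool.Agent.U473.MV3.IDB
import Pool.Agent.U6.MV3.PPX
import Pool.Agent.U667.MV3.ABB
import Pool.Agent.U668.MV3.SP
import Pool.Agent.U780.MV3.TR
import Pool.Agent.U504.MV3.PM
import Pool.Agent.U618.MV3.FIN3
import Pool.Agent.U94.MV3.VG
import Pool.Agent.U858.MV3.EM

set_option autoImplicit false

/-! # Project MV3: assembly -/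

namespace Pool.Agent.U398.MV

open MeasureTheory Filter Topology Set Complex

noncomputable section

theorem hCRX : S_CRX := crx hRQ
  (Pool.Agent.U473.MV3.IDB.t_IDB Pool.Agent.U20.MV2.RHO.t_RHO hRQ)
  (Pool.Agent.U671.MV.ID.t_ID Pool.Agent.U460.MV.R.t_R) Pool.Agent.U256.MV.OUT.t_OUT
  Pool.Agent.U6.MV3.PPX.t_PPX Pool.Agent.U94.MV3.VG.t_VG Pool.Agent.U473.MV3.CE.t_CE
  Pool.Agent.U204.MV3.PW.t_PW (Pool.Agent.U780.MV3.TR.t_TR Pool.Agent.U668.MV3.t_SP')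
  Pool.Agent.U667.MV3.t_ABB Pool.Agent.U858.MV3.t_EM2 Pool.Agent.U858.MV2.t_SB hSC

/-- all moments of linear forms in shifts of `S(t)` -/
theorem th3 : S_TH3 := Pool.Agent.U618.MV3.t_FIN3 Pool.Agent.U858.MV3.t_EM2
  Pool.Agent.U504.MV3.PM.t_PM hCRX Pool.Agent.U125.MV2.PRS.t_PRS

end

end Pool.Agent.U398.MV
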