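import Pool.Agent.U398.MV.Fin3

set_option autoImplicit false

/-! # Project MV3: integrability of the powers -/

namespace Pool.Agent.U398.MV

open MeasureTheory Filter Topology Set Complex
open Pool.Agent.U858.MV3 (S_EM2)

noncomputable section

lemma pS_memLp (hEM : S_EM2) (hc : ∀ X : ℕ, Continuous (Pp X)) (m : ℕ) (hm : 1 ≤ m) :
    ∃ T0 : ℝ, 10 ≤ T0 ∧ ∀ T : ℝ, T0 ≤ T →
    MemLp pS m (volume.restrict (Icc (T / 2) (4 * T))) := by
  obtain ⟨hmeas, hEM⟩ := hEM
  obtain ⟨δ, hδ, hEM⟩ := hEM m 0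
  obtain ⟨C, T0, hC, hT0, hEM⟩ := hEM δ hδ le_rfl
  refine ⟨T0, hT0, fun T hT => ?_⟩
  have hT10 : 10 ≤ T := hT0.trans hT
  obtain ⟨hi, -⟩ := hEM T hT (fun _ => 0) (fun p => by simp)
  have e4 : ∀ t, |pS t - Pp ⌊T ^ δ⌋₊ t| ^ m * ‖Ap ⌊T ^ δ⌋₊ (fun _ => 0) t‖ ^ (2 * 0) =
      ‖pS t - Pp ⌊T ^ δ⌋₊ t‖ ^ m := by
    intro t
    rw [mul_zero, pow_zero, mul_one, Real.norm_eq_abs]
  simp_rw [e4] at hi
  rw [intervalIntegrable_iff_integrableOn_Icc_of_le (by linarith)] at hi
  have hm0 : (m : ENNReal) ≠ 0 := by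
    simp only [ne_eq, Nat.cast_eq_zero]
    omega
  have hmt : (m : ENNReal) ≠ ⊤ := ENNReal.natCast_ne_top m
  have h1 : MemLp (fun t => pS t - Pp ⌊T ^ δ⌋₊ t) m (volume.restrict (Icc (T / 2) (4 * T))) := by
    have hm' : AEStronglyMeasurable (fun t => pS t - Pp ⌊T ^ δ⌋₊ t)
        (volume.restrict (Icc (T / 2) (4 * T))) := (hmeas.sub (hc _).aestronglyMeasurable).restrict
    refine (integrable_norm_rpow_iff hm' hm0 hmt).1 ?_
    simp only [ENNReal.toReal_natCast, Real.rpow_natCast]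
    exact hi
  have h2 : MemLp (Pp ⌊T ^ δ⌋₊) m (volume.restrict (Icc (T / 2) (4 * T))) := by
    obtain ⟨B, hB⟩ := isCompact_Icc.exists_bound_of_continuousOn (s := Icc (T / 2) (4 * T))
      (f := Pp ⌊T ^ δ⌋₊) (hc _).continuousOn
    refine MemLp.of_bound (hc _).aestronglyMeasurable B ?_
    rw [ae_restrict_iff' measurableSet_Icc]
    exact Eventually.of_forall fun t ht => hB t ht
  have h3 := h1.add h2
  refine h3.ae_eq (Eventually.of_forall fun t => ?_)
  simp

lemma Pp_cont (X : ℕ) : Continuous (Pp X) := by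
  unfold Pp Ap
  refine continuous_const.mul (Complex.continuous_im.comp ?_)
  refine continuous_finsetSum _ fun p hp => ?_
  have hp' : (p : ℂ) ≠ 0 := Nat.cast_ne_zero.2 (Finset.mem_filter.1 hp).2.pos.ne'
  refine continuous_const.mul ?_
  have h1 : Continuous fun t : ℝ => (-(1 / 2 + t * I) : ℂ) := by fun_prop
  exact h1.const_cpow (Or.inl hp')

/-- the powers of the linear forms are integrable -/
theorem pow_int (hEM : S_EM2) (m : ℕ) (hm : 1 ≤ m) : ∃ T0 : ℝ, 10 ≤ T0 ∧ ∀ T : ℝ, T0 ≤ T →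
    ∀ (n : ℕ) (a h : Fin n → ℝ), (∀ i, 0 ≤ h i ∧ h i ≤ T / (Real.log T) ^ 2) →
    IntervalIntegrable (fun t => (∑ i, a i * pS (t + h i)) ^ m) volume T (2 * T) := by
  obtain ⟨T0, hT0, H⟩ := pS_memLp hEM Pp_cont m hm
  refine ⟨T0, hT0, fun T hT n a h hh => ?_⟩
  have hT10 : 10 ≤ T := hT0.trans hT
  have hTp : 0 < T := by linarith
  have hL1 : 1 ≤ Real.log T := by
    rw [Real.le_log_iff_exp_le hTp]
    linarith [Real.exp_one_lt_d9]
  have hhT : ∀ i, h i ≤ T := by
    intro i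
    refine (hh i).2.trans ?_
    rw [div_le_iff₀ (by positivity)]
    have h2 : 1 ≤ Real.log T ^ 2 := by nlinarith
    nlinarith
  have h0 := H T hT
  have h1 : ∀ i, MemLp (fun t => pS (t + h i)) m (volume.restrict (Icc T (2 * T))) := by
    intro i
    have h2 : MemLp pS m (volume.restrict (Icc (T + h i) (2 * T + h i))) :=
      h0.mono_measure (Measure.restrict_mono (Icc_subset_Icc (by linarith [(hh i).1]) (by linarith [hhT i])) le_rfl)
    have h3 := (measurePreserving_add_right (volume : Measure ℝ) (h i)).restrict_preimage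
      (measurableSet_Icc (a := T + h i) (b := 2 * T + h i))
    have h4 : (fun x : ℝ => x + h i) ⁻¹' Icc (T + h i) (2 * T + h i) = Icc T (2 * T) := by
      ext x
      simp only [mem_preimage, mem_Icc]
      constructor
      · rintro ⟨a, b⟩; constructor <;> linarith
      · rintro ⟨a, b⟩; constructor <;> linarith
    rw [h4] at h3
    exact h2.comp_measurePreserving h3
  have h5 : MemLp (fun t => ∑ i, a i * pS (t + h i)) m (volume.restrict (Icc T (2 * T))) :=
    memLp_finsetSum _ fun i _ => (h1 i).const_mul (a i)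
  rw [intervalIntegrable_iff_integrableOn_Icc_of_le (by linarith)]
  have h6 : Integrable (fun t => ‖∑ i, a i * pS (t + h i)‖ ^ m) (volume.restrict (Icc T (2 * T))) := by
    have hm0 : m ≠ 0 := by omega
    exact h5.integrable_norm_pow hm0
  refine Integrable.mono' h6 (h5.1.pow m) (Eventually.of_forall fun t => ?_)
  rw [norm_pow]

end

end Pool.Agent.U398.MV
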