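import Pool.Agent.U398.MV.Stm4

set_option autoImplicit false

/-! # Project MV4: the package GS (sums of consecutive normalised gaps, in the normalisation of the problem) -/

namespace Pool.Agent.U398.MV

open MeasureTheory Filter Topology Set

noncomputable section

/-- the sum of `r` consecutive normalised gaps `δ_n + ... + δ_{n+r-1}`, `δ_n = (γ_{n+1} log γ_{n+1} - γ_n log γ_n) / 2π` -/
def gsum (g : ℕ → ℝ) (r n : ℕ) : ℝ := (g (n + r) * Real.log (g (n + r)) - g n * Real.log (g n)) / (2 * Real.pi)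

/-- all moments of the sums of `r` consecutive normalised gaps -/
def S_GS (N : ℝ → ℕ) (g : ℕ → ℝ) : Prop := ∀ (k : ℕ) (A ε : ℝ), 1 ≤ k → 1 ≤ A → 0 < ε → ∃ C T0 : ℝ, 0 < C ∧ 10 ≤ T0 ∧
  ∀ T : ℝ, T0 ≤ T → ∀ r : ℕ, 1 ≤ r → (r : ℝ) ≤ A * Real.log T →
  |(∑ n ∈ Finset.Ioc (N T) (N (2 * T)), (gsum g r n - r) ^ k) -
      ((N (2 * T) : ℝ) - N T) * gM k (Real.log (1 + r) / Real.pi ^ 2)| ≤
    C * ((N (2 * T) : ℝ) - N T) * (1 + Real.log r) ^ (((k : ℝ) - 1) / 2 + ε)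

/-- package GS. PROOF. `S_TH4` with `m = 2`, `c = (1/2, -1/2)`, `a = (r, 0)`, `R = r`: `Y_n = uf (n + r) - uf n - r`, `VR = log (1+r) / (4π²)`,
`2^k gM k v = gM k (4 v)`. `gsum r n - r = Y_n + θ`, `θ = (g (n+r) - g n) (1 + log 2π) / 2π` (identity, `g > 0`), and by the mean value theorem
(`Mf' = log (t/2π) / 2π`, increasing) `0 ≤ g (n+r) - g n ≤ 2π (uf (n+r) - uf n) / log (T/2π) ≤ C (A + |Y|/L)`. So
`|(Y+θ)^k - Y^k| ≤ C (1 + |Y|^(k-1) + |Y|^k / L)` (uses `|Y|^j / L^j` with `j ≤ k`; or: `|θ| ≤ C (1 + |Y|/L)` and `(1 + |Y|/L)^k`), the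
means of `|Y|^j` are `≤ C Q^(j/2)` (even moments from `S_TH4` with `ε = 1/4`, Cauchy-Schwarz), `Q = 1 + log r ≤ C log L`. -/
def J_GS (N : ℝ → ℕ) (g : ℕ → ℝ) : Prop := (∃ C1 : ℝ, 1 ≤ C1 ∧ Cnt N g C1) → S_TH4 N g → S_GS N g

end

end Pool.Agent.U398.MV
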