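import Pool.Agent.U398.MV.Fin3
import Pool.Agent.U398.MV.Stm4b
import Pool.Agent.U15.MV4.CN
import Pool.Agent.U688.MV4.MM
import Pool.Agent.U123.MV4.PTW
import Pool.Agent.U898.MV4.PU
import Pool.Agent.U600.MV4.CRU
import Pool.Agent.U492.MV4.LW
import Pool.Agent.U251.MV4.CW
import Pool.Agent.U667.MV4.FIN4
import Pool.Agent.U67.MV4.GS

set_option autoImplicit false

/-! # Project MV4: assembly -/

namespace Pool.Agent.U398.MV

open MeasureTheory Filter Topology Set Complex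

noncomputable section

theorem mom4 : Mom SG.NZ := Pool.Agent.U688.MV4.t_MM SG.NZ SG.ord Pool.Agent.U15.MV4.t_CN th3

/-- linear forms in the unfolded ordinates, all moments -/
theorem th4 : S_TH4 SG.NZ SG.ord := by
  obtain ⟨C1, h1, hC⟩ := Pool.Agent.U15.MV4.t_CN.1
  exact Pool.Agent.U667.MV4.t_FIN4 Pool.Agent.U898.MV4.t_PU Pool.Agent.U600.MV4.t_CRU
    Pool.Agent.U492.MV4.t_LW Pool.Agent.U251.MV4.t_CW Pool.Agent.U123.MV4.t_PTW SG.NZ SG.ord C1 h1 hC mom4

/-- sums of consecutive normalised gaps, all moments -/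
theorem gs4 : S_GS SG.NZ SG.ord := Pool.Agent.U67.MV4.t_GS SG.NZ SG.ord Pool.Agent.U15.MV4.t_CN.1 th4

end

end Pool.Agent.U398.MV
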