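import Pool.Agent.U398.MV.Stm4

set_option autoImplicit false

/-!
# Project MV5: the `k`-level correlations of the zeta zeros in large boxes, unconditionally

THEOREM `S_TH5 SG.ord`. For every `m = k - 1 ≥ 1` there are `C, T0`: for `T ≥ T0`, `1 ≤ A ≤ log T / 10` and every box
`B = ∏ [α_i, β_i] ⊆ [-A, A]^m` the number `NK` of `k`-tuples of distinct zeros up to `T` with normalised differences in `B` is
`vol B (T/2π) log T + O(A^(m-1) T log T)` (the order of the second term of the conjecture of the problem `MP_67227b_nt`).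
-/

namespace Pool.Agent.U398.MV

open MeasureTheory Filter Topology Set

noncomputable section

/-- package FO: pair counts in a block, for the indices (`N = SG.NZ`, `g = SG.ord`). PROOF. `Pool.Agent.U501.MV.NB.t_NB` with
`Pool.Agent.U398.MV.pts` (file `Pool.Agent.U398.MV.Fin`; `Pts Zz xz mz Fz`): for `0 < h ≤ 1` the pairs with both members in `(T, 2T]` and
`0 < x_i - x_j ≤ h` number `(L/2π)² T h + O(T L)`. `∑_n (N (g n + x) - N (g n))` (`x > 0`) counts the pairs `g n < g j ≤ g n + x`, `T < g n ≤ 2T`, the same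
up to the pairs with `g j > 2T` (`≤ C L²`); for `x < 0` the same with the roles exchanged. `N (2T) - N T = T L / 2π + O(T)`. Sums over
indices = sums over zeros with multiplicity: `Pool.Agent.U196.UV.Ord` (`idx_le`, `transfer`, `mem_Ix`), or `SG.NZ_eq`. -/
def S_FO (N : ℝ → ℕ) (g : ℕ → ℝ) : Prop := ∃ C T0 : ℝ, 0 < C ∧ 10 ≤ T0 ∧ ∀ T : ℝ, T0 ≤ T → ∀ x : ℝ, |x| ≤ 1 →
  |∑ n ∈ Finset.Ioc (N T) (N (2 * T)), ((N (g n + x) : ℝ) - N (g n) - x * Real.log T / (2 * Real.pi))| ≤ C * (T * Real.log T)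

/-- package KM: moments of the fluctuations of window counts at the zeros (from `S_PU`). PROOF. For `t ∈ [g n - w, g n)`, `w = 2π/L`:
`|sg (g n + y) - sg (t + y)| ≤ N (t + y + w) - N (t + y) + C`, so the left side is at most
`C PA (|sg (t+y) - sg (t+x)|^(2q) + ν_x^(2q) + ν_y^(2q) + 1)`; `S_PU` and `Mom` (1). -/
def J_KM : Prop := S_PU → ∀ (N : ℝ → ℕ) (g : ℕ → ℝ) (C1 : ℝ), 1 ≤ C1 → Cnt N g C1 → Mom N →
  ∀ q : ℕ, ∃ C T0 : ℝ, 0 < C ∧ 10 ≤ T0 ∧ ∀ T : ℝ, T0 ≤ T → ∀ X x y : ℝ, 1 / Real.log T ≤ X → X ≤ 1 → |x| ≤ X → |y| ≤ X →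
  ∑ n ∈ Finset.Ioc (N T) (N (2 * T)), (sg N (g n + y) - sg N (g n + x)) ^ (2 * q) ≤
    C * (T * Real.log T) * (1 + Real.log (X * Real.log T)) ^ q

/-- package KLB: products of window counts at the zeros of a block (from `S_FO`, `J_KM`). PROOF.
`N (g n + y_i) - N (g n + x_i) = (y_i - x_i) L / 2π + e_i + d_i`, `d_i = sg (g n + y_i) - sg (g n + x_i)`, `|e_i| ≤ C` (`C X`, from `Mf`). Expand the product; subsets
`{i}` with `d_i`: `|∑_n d_i| ≤ C T L` by `S_FO` (difference of two, and `Mf`), other factors `≤ (C X L)^(m-1)`; subsets with a factor `e_i` or with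
at least two `d`'s: Hölder and `J_KM`: `≤ C (X L)^(m-1) T L` resp. `(X L)^(m-2) (1 + log (X L)) T L`, `X L ≥ 1`. Induction on `m` with the
auxiliary bound `∑_n ∏ (N (g n + y_i) - N (g n + x_i))^q ≤ C (X L)^(q m) T L` may be simpler. -/
def J_KLB (N : ℝ → ℕ) (g : ℕ → ℝ) : Prop := S_FO N g → J_KM → S_PU → ∀ C1 : ℝ, 1 ≤ C1 → Cnt N g C1 → Mom N →
  ∀ m : ℕ, 1 ≤ m → ∃ C T0 : ℝ, 0 < C ∧ 10 ≤ T0 ∧ ∀ T : ℝ, T0 ≤ T → ∀ X : ℝ, 1 / Real.log T ≤ X → X ≤ 1 →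
  ∀ x y : Fin m → ℝ, (∀ i, -X ≤ x i ∧ x i ≤ y i ∧ y i ≤ X) →
  |(∑ n ∈ Finset.Ioc (N T) (N (2 * T)), ∏ i, ((N (g n + y i) : ℝ) - N (g n + x i))) -
      T * Real.log T / (2 * Real.pi) * ∏ i, ((y i - x i) * Real.log T / (2 * Real.pi))| ≤
    C * (X * Real.log T) ^ (m - 1) * (T * Real.log T)

/-- the number of `k`-tuples, `k = m + 1`, of pairwise distinct indices of zeros with ordinates in `(0, T]` and normalised
differences in the box `∏ [α_i, β_i]` -/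
def NK (g : ℕ → ℝ) {m : ℕ} (T : ℝ) (α β : Fin m → ℝ) : ℕ :=
  Set.ncard {j : Fin (m + 1) → ℕ | Function.Injective j ∧ (∀ i, 1 ≤ j i ∧ g (j i) ≤ T) ∧
    ∀ i : Fin m, (g (j i.castSucc) - g (j (Fin.last m))) * (Real.log T / (2 * Real.pi)) ∈ Icc (α i) (β i)}

/-- THE THEOREM -/
def S_TH5 (g : ℕ → ℝ) : Prop := ∀ m : ℕ, 1 ≤ m → ∃ C T0 : ℝ, 0 < C ∧ 10 ≤ T0 ∧ ∀ T : ℝ, T0 ≤ T →
  ∀ A : ℝ, 1 ≤ A → A ≤ Real.log T / 10 → ∀ α β : Fin m → ℝ, (∀ i, -A ≤ α i ∧ α i ≤ β i ∧ β i ≤ A) →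
  |(NK g T α β : ℝ) - (∏ i, (β i - α i)) * (T / (2 * Real.pi) * Real.log T)| ≤ C * A ^ (m - 1) * (T * Real.log T)

/-- package KLF: from the blocks to `NK`. PROOF. `L = log T`. Tuples (repetitions allowed) with last index `n`: `∏_i #{j : g n + a_i ≤ g j ≤ g n + b_i}`, `a_i = 2πα_i/L`,
`b_i = 2πβ_i/L`, up to the condition `g j ≤ T`. `#` lies between `N (g n + b_i) - N (g n + a_i)` and `N (g n + b_i) - N (g n + a_i - 1/L)`; both products
are treated by `J_KLB` on the blocks `(T', 2T']`, `T' = T / 2^l ≥ √T`, `X = 2πA/L + 1/L ≤ 1`, `log T' ∈ [L/2, L]` (so `X log T' ≥ 1`), and differ by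
`O(A^(m-1))` in the main term. `∑_l T' (log T')^(m+1) = T L^(m+1) (1 + O(1/L))`, and `A^m T ≤ A^(m-1) T L`. Zeros below `√T` and the condition
`g j ≤ T` (only for `g n > T - 1`): `≤ √T (C L)^(m+1)` and `(C L)^(m+1)` (`N (t+1) - N t ≤ C log t` by `rvm`). Tuples with two equal
indices: `j_i = j_l` or `j_i = n`: at most `C_m ∑_n ∏` over `m - 1` windows `[-A, A]`, `O(A^(m-1) T L)` by `J_KLB` (or by the
moments) with `m - 1` windows (for `m = 1`: `≤ N T`). -/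
def J_KLF (N : ℝ → ℕ) (g : ℕ → ℝ) : Prop := J_KLB N g → S_FO N g → J_KM → S_PU → ∀ C1 : ℝ, 1 ≤ C1 → Cnt N g C1 → Mom N → S_TH5 g

end

end Pool.Agent.U398.MV
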