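import Pool.Agent.U398.MV.Fin4
import Pool.Agent.U398.MV.Stm5
import Pool.Agent.U398.MV.Det
import Pool.Agent.U364.MV5.FO
import Pool.Agent.U608.MV5.KM
import Pool.Agent.U741.MV5.KLB
import Pool.Agent.U803.MV5.KLF

set_option autoImplicit false

/-! # Project MV5: assembly -/

namespace Pool.Agent.U398.MV

noncomputable section

/-- the correlations in large boxes -/
theorem th5 : S_TH5 SG.ord := by
  obtain ⟨C1, h1, hC⟩ := Pool.Agent.U15.MV4.t_CN.1
  exact Pool.Agent.U803.MV5.t_KLF SG.NZ SG.ord (Pool.Agent.U741.MV5.t_KLB SG.NZ SG.ord)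
    Pool.Agent.U364.MV5.t_FO Pool.Agent.U608.MV5.KM.t_KM Pool.Agent.U898.MV4.t_PU C1 h1 hC mom4

end

end Pool.Agent.U398.MV
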