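import Pool.Agent.U398.MV.Stm4

set_option autoImplicit false

/-!
# Project MV8: the spectral rigidity (Dyson-Mehta statistic) of the zeta zeros in almost every window, unconditionally

`Δ₃(t; Λ)` = the least mean square deviation of the staircase `N` from a straight line on `[t, t + ℓ]`, `ℓ = 2πΛ/log T` (`Λ` mean spacings).
THEOREM `S_TH8 SG.NZ`. For every `B` there are `C, T0`: for `T ≥ T0`, `1 ≤ Λ ≤ B log T` and `K > 0` one has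
`|Δ₃(t; Λ) - log Λ/(2π²)| ≤ K (1 + log Λ)^(3/4)` for all `t ∈ [T, 2T]` outside a set of measure `≤ C T/K`. (GUE value: `log Λ/(2π²) + O(1)`.)
-/

namespace Pool.Agent.U398.MV

open MeasureTheory Filter Topology Set

noncomputable section

/-- length of a window with `Λ` mean spacings -/
def ell (T Λ : ℝ) : ℝ := 2 * Real.pi * Λ / Real.log T

/-- the Dyson-Mehta statistic -/
def D3 (N : ℝ → ℕ) (l t : ℝ) : ℝ :=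
  ⨅ p : ℝ × ℝ, 1 / l * ∫ y in t..(t + l), ((N y : ℝ) - p.1 - p.2 * y) ^ 2

/-- the uniform probability measure on `[0, l]²` -/
def mu2 (l : ℝ) : Measure (ℝ × ℝ) := ENNReal.ofReal (1 / l ^ 2) • (volume.restrict (Icc (0 : ℝ) l ×ˢ Icc (0 : ℝ) l))

/-- increments of the fluctuation -/
def Uu (N : ℝ → ℕ) (p : ℝ × ℝ) (t : ℝ) : ℝ := sg N (t + p.1) - sg N (t + p.2)

/-- the variance of the staircase in the window -/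
def Dv (N : ℝ → ℕ) (l t : ℝ) : ℝ := 1 / 2 * ∫ p, Uu N p t ^ 2 ∂(mu2 l)

/-- the linear component -/
def Gl (N : ℝ → ℕ) (l t : ℝ) : ℝ := 1 / l ^ 2 * ∫ x in (0 : ℝ)..l, (x - l / 2) * sg N (t + x)

/-- number variance on the scale `L = log T` -/
def Vv (L : ℝ) (p : ℝ × ℝ) : ℝ := 1 / Real.pi ^ 2 * Real.log (1 + |p.1 - p.2| * L / (2 * Real.pi))

/-- covariance of the increments `p` and `q` -/
def Cv (L : ℝ) (p q : ℝ × ℝ) : ℝ :=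
  1 / 2 * (Vv L (p.1, q.2) + Vv L (p.2, q.1) - Vv L (p.1, q.1) - Vv L (p.2, q.2))

/-- package DET (deterministic). PROOF. Least squares on `[0, l]`: for bounded measurable `f`, `inf_{a,b} (1/l) ∫ (f - a - b x)² = (1/2)∫∫ (f x - f y)² dμ₂ -
12 ((1/l²) ∫ (x - l/2) f)²` (mean zero, orthogonality of `1` and `x - l/2`, `(1/l) ∫ (x - l/2)² = l²/12`). `N (t + x) = sg N (t + x) + Mf (t + x)`,
`Mf (t + x)` = its tangent line at `t` `+ O(l²/t)`, `|sg| ≤ C1 log (3T)`, so replacing `N` by `sg` costs `≤ 1` for large `T`. -/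
def S_DET : Prop := ∀ C1 B : ℝ, 1 ≤ C1 → 1 ≤ B → ∃ C T0 : ℝ, 0 < C ∧ 10 ≤ T0 ∧ ∀ (N : ℝ → ℕ) (g : ℕ → ℝ), Cnt N g C1 →
  ∀ T : ℝ, T0 ≤ T → ∀ Λ : ℝ, 1 ≤ Λ → Λ ≤ B * Real.log T → ∀ t : ℝ, T ≤ t → t ≤ 2 * T →
  |D3 N (ell T Λ) t - Dv N (ell T Λ) t| ≤ C * (1 + Gl N (ell T Λ) t ^ 2)

/-- package GM: the linear component. PROOF. As `∫ (x - l/2) dx = 0`: `Gl² = -(1/(2 l⁴)) ∫∫ (x - l/2)(y - l/2) (sg (t+x) - sg (t+y))²`; Fubini; `(1/T) ∫ (sg (t+x) - sg (t+y))² =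
Vv + O((1 + log Λ)^(1/2))` (`Mom` (2), `k = 2`, `m = 2`, `c = (1/2, -1/2)`; `r = Λ`, shifts in `[0, l]`), and `|Vv L (x, y) - (1/π²) log Λ| ≤ C (1 + log (l/|x - y|))` (as `Λ ≥ 1`),
the constant `(1/π²) log Λ` integrates to `0`, `∫∫ log (l/|x-y|) dμ₂ ≤ C`. -/
def S_GM : Prop := ∀ (N : ℝ → ℕ) (g : ℕ → ℝ) (C1 : ℝ), 1 ≤ C1 → Cnt N g C1 → Mom N → ∀ B : ℝ, 1 ≤ B →
  ∃ C T0 : ℝ, 0 < C ∧ 10 ≤ T0 ∧ ∀ T : ℝ, T0 ≤ T → ∀ Λ : ℝ, 1 ≤ Λ → Λ ≤ B * Real.log T →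
  (∫ t in T..(2 * T), Gl N (ell T Λ) t ^ 2) ≤ C * T * (1 + Real.log Λ) ^ (1 / 2 : ℝ) ∧
  IntegrableOn (fun t => Gl N (ell T Λ) t ^ 2) (Icc T (2 * T))

/-- package M24: second and fourth moments. PROOF. `Mom` (2) with `k = 2`, `c = (1/2, -1/2)` (`VL = Vv/4`); `U² W² = ((U+W)⁴ + (U-W)⁴ - 2U⁴ - 2W⁴)/12` and `k = 4`,
`m = 4`, `c = (1/4, -1/4, ±1/4, ∓1/4)` (shifts `p.1, p.2, q.1, q.2`; `r = Λ`), `gM 4 v = 3 v²`, `VL` of `(U ± W)/4` is `(V_p + V_q ± 2 Cv)/16`. -/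
def S_M24 : Prop := ∀ (N : ℝ → ℕ), Monotone N → Mom N → ∀ B : ℝ, 1 ≤ B →
  ∃ C T0 : ℝ, 0 < C ∧ 10 ≤ T0 ∧ ∀ T : ℝ, T0 ≤ T → ∀ Λ : ℝ, 1 ≤ Λ → Λ ≤ B * Real.log T →
  ∀ p q : ℝ × ℝ, p ∈ Icc (0 : ℝ) (ell T Λ) ×ˢ Icc (0 : ℝ) (ell T Λ) → q ∈ Icc (0 : ℝ) (ell T Λ) ×ˢ Icc (0 : ℝ) (ell T Λ) →
  |1 / T * (∫ t in T..(2 * T), Uu N p t ^ 2) - Vv (Real.log T) p| ≤ C * (1 + Real.log Λ) ^ (1 / 2 : ℝ) ∧
  |1 / T * (∫ t in T..(2 * T), Uu N p t ^ 2 * Uu N q t ^ 2) -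
      (Vv (Real.log T) p * Vv (Real.log T) q + 2 * Cv (Real.log T) p q ^ 2)| ≤ C * (1 + Real.log Λ) ^ (3 / 2 : ℝ)

/-- package CI: integrals of the kernels (real analysis). PROOF. `s = |x - y| L/2π = Λ |x-y|/l`, `log (1 + s) = log Λ - log (l/|x-y|) + log (1 + 1/s)`,
`0 ≤ log (1 + 1/s) ≤ log 2 + log (l/|x-y|)` as `Λ ≥ 1`; `(1/l) ∫_0^l log (l/|x-y|)^j dx ≤ C` for `j = 1, 2` and `y ∈ [0, l]`. The constants cancel in `Cv`. -/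
def S_CI : Prop := ∃ C : ℝ, 0 < C ∧ ∀ T Λ : ℝ, 10 ≤ T → 1 ≤ Λ →
  |1 / 2 * (∫ p, Vv (Real.log T) p ∂(mu2 (ell T Λ))) - Real.log Λ / (2 * Real.pi ^ 2)| ≤ C ∧
  (∫ p, (∫ q, Cv (Real.log T) p q ^ 2 ∂(mu2 (ell T Λ))) ∂(mu2 (ell T Λ))) ≤ C ∧
  ∀ p ∈ Icc (0 : ℝ) (ell T Λ) ×ˢ Icc (0 : ℝ) (ell T Λ), 0 ≤ Vv (Real.log T) p ∧ Vv (Real.log T) p ≤ C * (1 + Real.log Λ)

/-- package FUB: exchange of the integrals. PROOF. `Uu N p t²` is bounded and jointly measurable on `[0,l]² × [T,2T]` (`N` monotone, `Mf` continuous); Fubini for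
finite measures; `(∫ f p dμ)² = ∫∫ f p f q`. `mu2 l` is a probability measure for `l > 0`. -/
def S_FUB : Prop := ∀ (N : ℝ → ℕ), Monotone N → ∀ T l : ℝ, 10 ≤ T → 0 < l →
  IsProbabilityMeasure (mu2 l) ∧
  IntegrableOn (fun t => Dv N l t) (Icc T (2 * T)) ∧ IntegrableOn (fun t => Dv N l t ^ 2) (Icc T (2 * T)) ∧
  (∫ t in T..(2 * T), Dv N l t) = 1 / 2 * ∫ p, (∫ t in T..(2 * T), Uu N p t ^ 2) ∂(mu2 l) ∧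
  (∫ t in T..(2 * T), Dv N l t ^ 2) =
    1 / 4 * ∫ p, (∫ q, (∫ t in T..(2 * T), Uu N p t ^ 2 * Uu N q t ^ 2) ∂(mu2 l)) ∂(mu2 l) ∧
  Integrable (fun p => ∫ t in T..(2 * T), Uu N p t ^ 2) (mu2 l) ∧
  Integrable (fun p => ∫ q, (∫ t in T..(2 * T), Uu N p t ^ 2 * Uu N q t ^ 2) ∂(mu2 l)) (mu2 l) ∧
  ∀ p, Integrable (fun q => ∫ t in T..(2 * T), Uu N p t ^ 2 * Uu N q t ^ 2) (mu2 l)

/-- THE THEOREM -/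
def S_TH8 (N : ℝ → ℕ) : Prop := ∀ B : ℝ, 1 ≤ B → ∃ C T0 : ℝ, 0 < C ∧ 10 ≤ T0 ∧ ∀ T : ℝ, T0 ≤ T → ∀ Λ : ℝ, 1 ≤ Λ → Λ ≤ B * Real.log T →
  ∀ K : ℝ, 0 < K →
  volume {t : ℝ | t ∈ Icc T (2 * T) ∧ K * (1 + Real.log Λ) ^ (3 / 4 : ℝ) < |D3 N (ell T Λ) t - Real.log Λ / (2 * Real.pi ^ 2)|} ≤
    ENNReal.ofReal (C * T / K)

/-- package FIN8. PROOF. `E = (1/T) ∫_T^{2T}`, `m = log Λ/(2π²)`. `E (Dv - m)² = E Dv² - 2 m E Dv + m²`; by `S_FUB`, `S_M24`, `S_CI`: `E Dv = m + O((1 + log Λ)^(1/2))`,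
`E Dv² = (1/4) ∫∫ (V_p V_q + 2 Cv²) + O((1 + log Λ)^(3/2)) = ((1/2) ∫ V_p)² + O(...)= m² + O((1 + log Λ)^(3/2))`. So `E (Dv - m)² ≤ C (1 + log Λ)^(3/2)`,
`E |Dv - m| ≤ C (1 + log Λ)^(3/4)`, `E (1 + Gl²) ≤ C (1 + log Λ)^(1/2)`; `|D3 - m| ≤ |Dv - m| + C (1 + Gl²)` and Markov (outer measure, the majorant
is integrable). -/
def J_FIN8 : Prop := S_DET → S_GM → S_M24 → S_CI → S_FUB → ∀ (N : ℝ → ℕ) (g : ℕ → ℝ) (C1 : ℝ), 1 ≤ C1 → Cnt N g C1 → Mom N → S_TH8 N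

/-- the assembly -/
theorem th8_of (N : ℝ → ℕ) (g : ℕ → ℝ) (hN : ∃ C1 : ℝ, 1 ≤ C1 ∧ Cnt N g C1) (hM : Mom N) (h1 : S_DET) (h2 : S_GM) (h3 : S_M24)
    (h4 : S_CI) (h5 : S_FUB) (h6 : J_FIN8) : S_TH8 N := by
  obtain ⟨C1, h, hC⟩ := hN
  exact h6 h1 h2 h3 h4 h5 N g C1 h hC hM

end

end Pool.Agent.U398.MV
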