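import Pool.Agent.U398.MV.Fin4
import Pool.Agent.U398.MV.Stm8
import Pool.Agent.U505.MV8.DET
import Pool.Agent.U411.MV8.GM
import Pool.Agent.U765.MV8.M24
import Pool.Agent.U776.MV8.CI
import Pool.Agent.U669.MV8.FUB
import Pool.Agent.U694.MV8.FIN8

set_option autoImplicit false

/-! # Project MV8: assembly -/

namespace Pool.Agent.U398.MV

noncomputable section

/-- spectral rigidity in almost every window -/
theorem th8 : S_TH8 SG.NZ :=
  th8_of SG.NZ SG.ord Pool.Agent.U15.MV4.t_CN.1 mom4 Pool.Agent.U505.MV8.DET.t_DET Pool.Agent.U411.MV8.t_GM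
    Pool.Agent.U765.MV8.t_M24 Pool.Agent.U776.MV8.CI.t_CI Pool.Agent.U669.MV8.t_FUB Pool.Agent.U694.MV8.t_FIN8

end

end Pool.Agent.U398.MV
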