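import Pool.Agent.U398.MV.Stm
import Pool.Agent.U398.NV.Zet
import Pool.Agent.H345R2.A2.EFb
import Pool.Agent.Y750.OM.Diff

set_option autoImplicit false

/-! # Project MV: the explicit formula for the local transform of the zeros -/

namespace Pool.Agent.U398.MV

open MeasureTheory Filter Topology Set Complex
open H370 (Zf mult mem_Zf good_zeta zset NN NN_eq AA PP)
open H370.A2 (lamC ef_known ld_zeta lamC_norm)
open Pool.Agent.Y750.OM (DD GG AA_split)

noncomputable section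

/-- the local transform of the zeros of zeta with ordinates in `(U1, U2]` -/
def Vz (U1 U2 L u t : ℝ) : ℂ :=
  Vf (Zf riemannZeta U1 U2) (fun s => (mult riemannZeta s : ℝ)) (fun s => s.im)
    (L / (2 * Real.pi)) U1 U2 u t

/-- the part of the zeros off the line -/
def Dz (U1 U2 L u t : ℝ) : ℂ :=
  DD (Zf riemannZeta U1 U2) (fun s => (mult riemannZeta s : ℝ)) L (u / L) t

lemma Pf_eq (u t : ℝ) : Pf u t = PP lamC u t := rfl

/-- the whole Gaussian integral -/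
lemma gauss_whole (u t : ℝ) :
    ∫ y : ℝ, cexp (I * u * y) * cexp (-((y : ℂ) - t) ^ 2 / 2) =
      (Real.sqrt (2 * Real.pi) : ℂ) * (cexp (I * u * t) * Real.exp (-u ^ 2 / 2)) := by
  have h0 : ∀ y : ℝ, cexp (I * u * y) * cexp (-((y : ℂ) - t) ^ 2 / 2) =
      cexp (((-1 / 2 : ℂ)) * (y : ℂ) ^ 2 + (I * u + t) * y + (-t ^ 2 / 2)) := by
    intro y
    rw [← Complex.exp_add]
    congr 1
    ring
  simp_rw [h0]
  rw [integral_cexp_quadratic (by norm_num : ((-1 / 2 : ℂ)).re < 0)]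
  have h1 : ((Real.pi : ℂ) / -(-1 / 2)) ^ (1 / 2 : ℂ) = (Real.sqrt (2 * Real.pi) : ℂ) := by
    have : (Real.pi : ℂ) / -(-1 / 2) = ((2 * Real.pi : ℝ) : ℂ) := by
      push_cast; ring
    rw [this, Real.sqrt_eq_rpow, Complex.ofReal_cpow (by positivity)]
    norm_num
  rw [h1, Complex.ofReal_exp, ← Complex.exp_add]
  congr 2
  push_cast
  ring_nf
  simp only [I_sq]
  ring

lemma gnorm (u t y : ℝ) : ‖cexp (I * u * y) * cexp (-((y : ℂ) - t) ^ 2 / 2)‖ =
    Real.exp (-(y - t) ^ 2 / 2) := by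
  rw [norm_mul, Complex.norm_exp, Complex.norm_exp, ← Real.exp_add]
  congr 1
  have h1 : (I * u * y : ℂ).re = 0 := by
    have : (I * u * y : ℂ) = ((u * y : ℝ) : ℂ) * I := by push_cast; ring
    rw [this, Complex.re_ofReal_mul, Complex.I_re, mul_zero]
  have h2 : (-((y : ℂ) - t) ^ 2 / 2 : ℂ) = ((-(y - t) ^ 2 / 2 : ℝ) : ℂ) := by push_cast; ring
  rw [h1, h2, Complex.ofReal_re, zero_add]

lemma gint (t : ℝ) {b : ℝ} (hb : 0 < b) : Integrable (fun y : ℝ => Real.exp (-(y - t) ^ 2 / b)) := by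
  have h := (integrable_exp_neg_mul_sq (b := 1 / b) (by positivity)).comp_sub_right t
  refine h.congr (Eventually.of_forall fun y => ?_)
  simp only
  congr 1
  ring

lemma gval (t : ℝ) {b : ℝ} (hb : 0 < b) : ∫ y : ℝ, Real.exp (-(y - t) ^ 2 / b) = Real.sqrt (Real.pi * b) := by
  have h1 : ∫ y : ℝ, Real.exp (-(y - t) ^ 2 / b) = ∫ y : ℝ, Real.exp (-(1 / b) * y ^ 2) := by
    rw [← integral_sub_right_eq_self (fun y : ℝ => Real.exp (-(1 / b) * y ^ 2)) t]
    refine integral_congr_ae (Eventually.of_forall fun y => ?_)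
    simp only
    congr 1
    ring
  rw [h1, integral_gaussian]
  congr 1
  field_simp

lemma gfint (u t : ℝ) : Integrable (fun y : ℝ => cexp (I * u * y) * cexp (-((y : ℂ) - t) ^ 2 / 2)) := by
  refine (gint t (b := 2) (by norm_num)).mono' ?_ (Eventually.of_forall fun y => ?_)
  · exact (by fun_prop : Continuous fun y : ℝ =>
      cexp (I * u * y) * cexp (-((y : ℂ) - t) ^ 2 / 2)).aestronglyMeasurable
  · rw [gnorm]

/-- the truncation of the density part -/
lemma gauss_tail {L u t a b : ℝ} (hL : 2 ≤ L) (ha : a ≤ t - (L - 1)) (hb : t + (L - 1) ≤ b) :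
    ‖(∫ y in a..b, cexp (I * u * y) * cexp (-((y : ℂ) - t) ^ 2 / 2)) -
      ∫ y : ℝ, cexp (I * u * y) * cexp (-((y : ℂ) - t) ^ 2 / 2)‖ ≤
      4 * Real.exp (-(L - 1) ^ 2 / 4) := by
  have hab : a ≤ b := by linarith
  set f : ℝ → ℂ := fun y => cexp (I * u * y) * cexp (-((y : ℂ) - t) ^ 2 / 2) with hf
  have hfi : Integrable f := gfint u t
  rw [intervalIntegral.integral_of_le hab]
  have h1 := integral_add_compl (s := Ioc a b) measurableSet_Ioc hfi
  have h2 : (∫ y in Ioc a b, f y) - ∫ y, f y = - ∫ y in (Ioc a b)ᶜ, f y := by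
    rw [← h1]; ring
  rw [h2, norm_neg]
  have h3 : ‖∫ y in (Ioc a b)ᶜ, f y‖ ≤ ∫ y in (Ioc a b)ᶜ,
      Real.exp (-(L - 1) ^ 2 / 4) * Real.exp (-(y - t) ^ 2 / 4) := by
    refine norm_integral_le_of_norm_le ((gint t (b := 4) (by norm_num)).const_mul _).integrableOn ?_
    rw [ae_restrict_iff' measurableSet_Ioc.compl]
    refine Eventually.of_forall fun y hy => ?_
    rw [hf]
    simp only
    rw [gnorm, ← Real.exp_add]
    apply Real.exp_le_exp.mpr
    have h4 : (L - 1) ^ 2 ≤ (y - t) ^ 2 := by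
      rw [mem_compl_iff, mem_Ioc, not_and_or, not_lt, not_le] at hy
      rcases hy with hy | hy
      · nlinarith
      · nlinarith
    linarith
  refine h3.trans ?_
  have h5 : ∫ y in (Ioc a b)ᶜ, Real.exp (-(L - 1) ^ 2 / 4) * Real.exp (-(y - t) ^ 2 / 4) ≤
      ∫ y : ℝ, Real.exp (-(L - 1) ^ 2 / 4) * Real.exp (-(y - t) ^ 2 / 4) :=
    setIntegral_le_integral ((gint t (b := 4) (by norm_num)).const_mul _)
      (Eventually.of_forall fun y => by positivity)
  refine h5.trans ?_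
  rw [integral_const_mul, gval t (by norm_num : (0:ℝ) < 4), mul_comm]
  gcongr
  rw [Real.sqrt_le_iff]
  refine ⟨by norm_num, ?_⟩
  nlinarith [Real.pi_le_four]

/-- THE INNER FORMULA -/
theorem inner : ∃ C T0 : ℝ, 0 < C ∧ 10 ≤ T0 ∧ ∀ T : ℝ, T0 ≤ T →
    ∃ U1 U2 : ℝ, T ≤ U1 ∧ U1 ≤ T + 1 ∧ 2 * T - 1 ≤ U2 ∧ U2 ≤ 2 * T ∧
      ∀ u t : ℝ, 0 ≤ u → u ≤ Real.log T / 2 → T + Real.log T ≤ t → t ≤ 2 * T - Real.log T →
        ‖Vz U1 U2 (Real.log T) u t + ((1 / Real.sqrt (2 * Real.pi) : ℝ) : ℂ) * Pf u t +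
          Dz U1 U2 (Real.log T) u t‖ ≤ C * (Real.exp (-u) + 1 / Real.log T) := by
  obtain ⟨C, T0, hC, hT0, hEF⟩ := ef_known good_zeta (a := lamC) (fun n => (lamC_norm n).le)
    (fun s hs _ => ld_zeta s hs)
  refine ⟨C + 16, max T0 (Real.exp 4), by positivity, hT0.trans (le_max_left _ _), fun T hT => ?_⟩
  obtain ⟨U1, U2, hU1, hU1', hU2', hU2, hmain⟩ := hEF T ((le_max_left _ _).trans hT)
  refine ⟨U1, U2, hU1, hU1', hU2', hU2, fun u t hu huL ht1 ht2 => ?_⟩
  have hT10 : 10 ≤ T := hT0.trans ((le_max_left _ _).trans hT)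
  have hTpos : 0 < T := by linarith
  set L := Real.log T with hL
  have hL4 : 4 ≤ L := by
    rw [hL, Real.le_log_iff_exp_le hTpos]
    exact (le_max_right _ _).trans hT
  have hU : 1 ≤ U1 := by linarith
  have h1 := hmain u t hu (by linarith) ht1 ht2
  have h2 := AA_split (B := U2) hU L (u / L) t
  rw [div_mul_cancel₀ u (by linarith : L ≠ 0)] at h2
  have hpi := Real.pi_pos
  have h3 := gauss_tail (L := L) (u := u) (t := t) (a := U1) (b := U2) (by linarith)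
    (by linarith) (by linarith)
  rw [gauss_whole] at h3
  set J : ℂ := ∫ y in U1..U2, cexp (I * u * y) * cexp (-((y : ℂ) - t) ^ 2 / 2) with hJ
  have e1 : Vz U1 U2 L u t = AA riemannZeta U1 U2 u t - Dz U1 U2 L u t -
      ((L / (2 * Real.pi) : ℝ) : ℂ) * J := by
    rw [h2]
    unfold Vz Vf Dz GG
    rw [hJ]
    ring
  have hs0 : 0 < Real.sqrt (2 * Real.pi) := by positivity
  have hss : Real.sqrt (2 * Real.pi) * Real.sqrt (2 * Real.pi) = 2 * Real.pi :=
    Real.mul_self_sqrt (by positivity)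
  have e2 : ((L / (2 * Real.pi) : ℝ) : ℂ) * ((Real.sqrt (2 * Real.pi) : ℂ) *
      (cexp (I * u * t) * Real.exp (-u ^ 2 / 2))) =
      ((1 / Real.sqrt (2 * Real.pi) : ℝ) : ℂ) * (L * cexp (I * u * t) * Real.exp (-u ^ 2 / 2)) := by
    have e3 : (L / (2 * Real.pi)) * Real.sqrt (2 * Real.pi) = 1 / Real.sqrt (2 * Real.pi) * L := by
      have h := (fun (r : ℝ) (hr : 0 < r) => (by field_simp : (L / (r * r)) * r = 1 / r * L))
        (Real.sqrt (2 * Real.pi)) hs0
      rw [hss] at h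
      exact h
    have e4 : ((L / (2 * Real.pi) : ℝ) : ℂ) * (Real.sqrt (2 * Real.pi) : ℂ) =
        ((1 / Real.sqrt (2 * Real.pi) : ℝ) : ℂ) * (L : ℂ) := by exact_mod_cast e3
    rw [← mul_assoc, e4]
    ring
  have e5 : Vz U1 U2 L u t + ((1 / Real.sqrt (2 * Real.pi) : ℝ) : ℂ) * Pf u t + Dz U1 U2 L u t =
      (AA riemannZeta U1 U2 u t - (1 / Real.sqrt (2 * Real.pi) : ℝ) * (L * cexp (I * u * t) *
              Real.exp (-u ^ 2 / 2) - PP lamC u t)) -
      ((L / (2 * Real.pi) : ℝ) : ℂ) * (J - (Real.sqrt (2 * Real.pi) : ℂ) *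
        (cexp (I * u * t) * Real.exp (-u ^ 2 / 2))) := by
    rw [e1, Pf_eq, mul_sub ((L / (2 * Real.pi) : ℝ) : ℂ), e2]
    ring
  rw [e5]
  refine (norm_sub_le _ _).trans ?_
  have h4 : ‖((L / (2 * Real.pi) : ℝ) : ℂ) * (J - (Real.sqrt (2 * Real.pi) : ℂ) *
        (cexp (I * u * t) * Real.exp (-u ^ 2 / 2)))‖ ≤ 16 * (1 / L) := by
    rw [norm_mul, Complex.norm_real, Real.norm_of_nonneg (by positivity)]
    have h5 : L / (2 * Real.pi) ≤ L / 4 := by
      gcongr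
      linarith [Real.pi_gt_three]
    have h6 : Real.exp (-(L - 1) ^ 2 / 4) ≤ 16 / L ^ 2 := by
      have h7 : 1 + (L - 1) ^ 2 / 4 ≤ Real.exp ((L - 1) ^ 2 / 4) := by
        have := Real.add_one_le_exp ((L - 1) ^ 2 / 4)
        linarith
      have h8 : Real.exp (-(L - 1) ^ 2 / 4) = (Real.exp ((L - 1) ^ 2 / 4))⁻¹ := by
        rw [← Real.exp_neg]; congr 1; ring
      rw [h8, inv_eq_one_div, div_le_div_iff₀ (Real.exp_pos _) (by positivity)]
      nlinarith
    calc L / (2 * Real.pi) * ‖_‖ ≤ L / 4 * (4 * Real.exp (-(L - 1) ^ 2 / 4)) := by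
          gcongr
      _ ≤ L / 4 * (4 * (16 / L ^ 2)) := by gcongr
      _ = 16 * (1 / L) := by field_simp
  have h9 : 0 ≤ Real.exp (-u) := (Real.exp_pos _).le
  have h10 : 0 ≤ 1 / L := by positivity
  nlinarith

end

end Pool.Agent.U398.MV
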