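import Pool.Agent.U398.MV.Cmp

set_option autoImplicit false

/-! # Project MV: the zeros of zeta as a system of points -/

namespace Pool.Agent.U398.MV

open MeasureTheory Filter Topology Set Complex
open H370 (Zf mult mem_Zf good_zeta zset NN NN_eq)
open U398.NV (Fz Zz mz mem_Fz)

noncomputable section

lemma mz_nonneg (s : ℂ) : 0 ≤ mz s := Nat.cast_nonneg _

lemma cnt_mono {a b : ℝ} (h : a ≤ b) : cnt Fz mz a ≤ cnt Fz mz b := by
  unfold cnt
  apply Finset.sum_le_sum_of_subset_of_nonneg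
  · intro s hs
    rw [mem_Fz] at hs ⊢
    exact ⟨hs.1, hs.2.1, by linarith [hs.2.2]⟩
  · intro s _ _
    exact mz_nonneg s

lemma cnt_nonneg (a : ℝ) : 0 ≤ cnt Fz mz a := Finset.sum_nonneg fun s _ => mz_nonneg s

lemma cnt_short : ∃ C : ℝ, 0 < C ∧ ∀ y : ℝ, 2 ≤ y → cnt Fz mz (y + 1) - cnt Fz mz y ≤ C * Real.log y := by
  obtain ⟨C, hC, hl⟩ := loc_count4
  have hlog2 : 0 < Real.log 2 := Real.log_pos (by norm_num)
  refine ⟨C + cnt Fz mz 11 / Real.log 2, by
    have := cnt_nonneg 11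
    positivity, fun y hy => ?_⟩
  have h0 := cnt_nonneg 11
  have h1 : Real.log 2 ≤ Real.log y := Real.log_le_log (by norm_num) hy
  by_cases h : 10 ≤ y
  · have h2 := cnt_diff (A := y) (B := 4 * y) (t := y) (h := 1) (by linarith) le_rfl (by norm_num)
      (by linarith)
    rw [h2]
    have h3 := hl y h y (4 * y) le_rfl le_rfl (y + 1)
    refine (Finset.sum_le_sum fun i _ => ?_).trans (h3.trans ?_)
    · apply mul_le_mul_of_nonneg_left _ (wz_nonneg i)
      by_cases h2 : y < xz i ∧ xz i ≤ y + 1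
      · rw [if_pos h2, if_pos]
        rw [abs_le]; constructor <;> linarith [h2.1, h2.2]
      · rw [if_neg h2]; split_ifs <;> norm_num
    · apply mul_le_mul_of_nonneg_right _ (by linarith)
      have : 0 ≤ cnt Fz mz 11 / Real.log 2 := by positivity
      linarith
  · push Not at h
    have h2 := cnt_mono (by linarith : y + 1 ≤ 11)
    have h3 := cnt_nonneg y
    have h4 : cnt Fz mz 11 ≤ cnt Fz mz 11 / Real.log 2 * Real.log y := by
      rw [div_mul_eq_mul_div, le_div_iff₀ hlog2]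
      exact mul_le_mul_of_nonneg_left h1 h0
    have h5 : 0 ≤ C * Real.log y := by
      apply mul_nonneg <;> linarith
    nlinarith

lemma cnt_block : ∃ C T0 : ℝ, 0 < C ∧ 10 ≤ T0 ∧ ∀ T : ℝ, T0 ≤ T →
    |cnt Fz mz (2 * T) - cnt Fz mz T - T * Real.log T / (2 * Real.pi)| ≤ C * T := by
  obtain ⟨C, T0, hC, hT0, h⟩ := H370.nn_asymp good_zeta
  refine ⟨C, T0, hC, hT0, fun T hT => ?_⟩
  have h1 := h T hT T (2 * T) le_rfl (by linarith) (by linarith) le_rfl
  have h2 := cnt_diff (A := T) (B := 2 * T) (t := T) (h := T) (by linarith) le_rfl (by linarith)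
    (by linarith)
  have e : T + T = 2 * T := by ring
  rw [e] at h2
  rw [h2]
  have h3 : ∑ i ∈ Zf riemannZeta T (2 * T), wz i * (if T < xz i ∧ xz i ≤ 2 * T then (1:ℝ) else 0) =
      (NN riemannZeta T (2 * T) : ℝ) := by
    rw [NN_eq good_zeta (by linarith)]
    push_cast
    refine Finset.sum_congr rfl fun s hs => ?_
    rw [mem_Zf good_zeta (by linarith)] at hs
    obtain ⟨g1, g2, g3, g4, g5⟩ := hs
    rw [if_pos ⟨g3, g4⟩, mul_one]
    rfl
  rw [h3]
  exact h1

/-- the system of points -/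
theorem pts_zeta (hR : S_R) (hID : S_ID) (hOUT : S_OUT) (hPP : S_PP) (hEN : S_EN) (hMT : S_MT)
    (hHI : S_HI) (hPB : S_PB) : ∃ C1 T0 : ℝ, Pts Zz xz mz Fz C1 T0 := by
  obtain ⟨C, T0, hC, hT0, hv⟩ := variance hR hID hOUT hPP hEN hMT hHI hPB
  obtain ⟨C2, hC2, hs⟩ := cnt_short
  obtain ⟨C3, T3, hC3, hT3, hb⟩ := cnt_block
  have h10 := cnt_nonneg 10
  refine ⟨C + C2 + C3 + cnt Fz mz 10, max T0 T3, ?_⟩
  refine ⟨hT0.trans (le_max_left _ _), mz_nonneg, by linarith, fun i t => mem_Fz i t, ?_, ?_, ?_⟩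
  · intro y hy
    refine (hs y hy).trans ?_
    apply mul_le_mul_of_nonneg_right _ (Real.log_nonneg (by linarith))
    linarith
  · intro T hT
    have hT' : T3 ≤ T := (le_max_right _ _).trans hT
    refine (hb T hT').trans ?_
    apply mul_le_mul_of_nonneg_right _ (by linarith)
    linarith
  · intro T hT h h1 h2
    refine (hv T ((le_max_left _ _).trans hT) h h1 h2).trans ?_
    linarith

end

end Pool.Agent.U398.MV
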